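import Pool.Agent.Lib.MP_ce5ee5_co.Defs

namespace Pool.Agent.Lib.MP_ce5ee5_co

open Finset

variable {V : Type} {G : SimpleGraph V}

/-- a set closed under edges up to `S` blocks walks -/
lemma walk_meets {A : Set V} {S : Set V} (hA : ∀ a ∈ A, ∀ b, G.Adj a b → b ∈ A ∨ b ∈ S)
    {a b : V} (p : G.Walk a b) (ha : a ∈ A) (hb : b ∉ A) : ∃ v ∈ p.support, v ∈ S := by
  induction p with
  | nil => exact absurd ha hb
  | cons h p ih =>
    rcases hA _ ha _ h with h1 | h1
    · obtain ⟨v, hv, hS⟩ := ih h1 hb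
      exact ⟨v, by simp [hv], hS⟩
    · exact ⟨_, by simp, h1⟩

section lattice

variable [Fintype V] [DecidableEq V]

open Classical in
noncomputable def cl (G : SimpleGraph V) (A : Finset V) : Finset V :=
  univ.filter fun v => v ∈ A ∨ ∃ a ∈ A, G.Adj a v

lemma mem_cl {A : Finset V} {v : V} : v ∈ cl G A ↔ v ∈ A ∨ ∃ a ∈ A, G.Adj a v := by
  simp [cl]

lemma sub_cl (A : Finset V) : A ⊆ cl G A := fun _ h => mem_cl.2 (Or.inl h)

lemma cl_mono {A B : Finset V} (h : A ⊆ B) : cl G A ⊆ cl G B := fun v hv => by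
  rcases mem_cl.1 hv with h1 | ⟨a, ha, h1⟩
  · exact mem_cl.2 (Or.inl (h h1))
  · exact mem_cl.2 (Or.inr ⟨a, h ha, h1⟩)

lemma cl_union (A B : Finset V) : cl G (A ∪ B) = cl G A ∪ cl G B := by
  ext v
  simp only [mem_cl, mem_union]
  constructor
  · rintro ((h | h) | ⟨a, h | h, h'⟩)
    · exact Or.inl (Or.inl h)
    · exact Or.inr (Or.inl h)
    · exact Or.inl (Or.inr ⟨a, h, h'⟩)
    · exact Or.inr (Or.inr ⟨a, h, h'⟩)
  · rintro ((h | ⟨a, h, h'⟩) | (h | ⟨a, h, h'⟩))
    · exact Or.inl (Or.inl h)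
    · exact Or.inr ⟨a, Or.inl h, h'⟩
    · exact Or.inl (Or.inr h)
    · exact Or.inr ⟨a, Or.inr h, h'⟩

variable {k : ℕ} {x y : V}

lemma valid_card (h : ¬ SepLE G k x y) {A : Finset V} (hx : x ∈ A) (hy : y ∉ cl G A) :
    A.card + (k + 1) ≤ (cl G A).card := by
  by_contra hc
  apply h
  refine ⟨cl G A \ A, ?_, by simp [hx], by simp [hy], fun p => ?_⟩
  · rw [card_sdiff_of_subset (sub_cl A)]; omega
  · have := walk_meets (A := (A : Set V)) (S := ((cl G A \ A : Finset V) : Set V)) (by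
      intro a ha b hab
      by_cases hb : b ∈ A
      · exact Or.inl hb
      · exact Or.inr (by simpa [hb] using mem_cl.2 (Or.inr ⟨a, ha, hab⟩))) p hx
      (fun h => hy (sub_cl A h))
    simpa using this

def Tight (G : SimpleGraph V) (k : ℕ) (x y : V) (A : Finset V) : Prop :=
  x ∈ A ∧ y ∉ cl G A ∧ (cl G A).card = A.card + (k + 1)

lemma tight_lat (h : ¬ SepLE G k x y) {A B : Finset V} (hA : Tight G k x y A)
    (hB : Tight G k x y B) :
    Tight G k x y (A ∪ B) ∧ Tight G k x y (A ∩ B) ∧ cl G (A ∩ B) = cl G A ∩ cl G B := by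
  have s1 : cl G (A ∩ B) ⊆ cl G A ∩ cl G B :=
    subset_inter (cl_mono inter_subset_left) (cl_mono inter_subset_right)
  have y1 : y ∉ cl G (A ∪ B) := by rw [cl_union]; simp [hA.2.1, hB.2.1]
  have y2 : y ∉ cl G (A ∩ B) := fun hy => hA.2.1 (mem_inter.1 (s1 hy)).1
  have x1 : x ∈ A ∪ B := mem_union_left _ hA.1
  have x2 : x ∈ A ∩ B := mem_inter.2 ⟨hA.1, hB.1⟩
  have c1 := valid_card h x1 y1
  have c2 := valid_card h x2 y2
  have c3 := card_union_add_card_inter A B
  have c4 := card_union_add_card_inter (cl G A) (cl G B)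
  have c5 := card_le_card s1
  have c6 := hA.2.2
  have c7 := hB.2.2
  rw [← cl_union] at c4
  exact ⟨⟨x1, y1, by omega⟩, ⟨x2, y2, by omega⟩, eq_of_subset_of_card_le s1 (by omega)⟩

lemma chain (h : ¬ SepLE G k x y)
    (hv : ∀ v, v ≠ x → v ≠ y → ∃ C, Tight G k x y C ∧ v ∈ cl G C ∧ v ∉ C)
    (hxy : x ≠ y) (hn : ¬ G.Adj x y) (A : Finset V) :
    Tight G k x y A → ∀ e : Fin (k + 1) → V, Function.Injective e →
      (∀ v, (v ∈ cl G A ∧ v ∉ A) ↔ ∃ i, e i = v) →
    ∃ (T : ℕ) (s : ℕ → Fin (k + 1) → V), s 0 = e ∧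
      (∀ v, (v ∉ A ∧ v ≠ y) ↔ ∃ t ≤ T, ∃ i, s t i = v) ∧
      (∀ t t' i j, t ≤ t' → t' ≤ T → s t i = s t' j →
        i = j ∧ ∀ u, t ≤ u → u ≤ t' → s u i = s t i) ∧
      (∀ t < T, ∀ i, s t i = s (t + 1) i ∨ G.Adj (s t i) (s (t + 1) i)) ∧
      (∀ v, G.Adj y v ↔ ∃ i, s T i = v) ∧
      (∀ u w, G.Adj u w → u ∉ A → u ≠ y → w ∉ A → w ≠ y →
        ∃ t ≤ T, ∃ t' ≤ T, ∃ i j, s t i = u ∧ s t' j = w ∧ t ≤ t' + 1 ∧ t' ≤ t + 1) := by
  classical
  induction A using WellFoundedGT.induction with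
  | ind A ih =>
  intro hA e he hE
  by_cases hex : ∃ B, Tight G k x y B ∧ A < B
  swap
  · have full : ∀ v, v ≠ y → v ∈ cl G A := by
      intro v hy
      by_cases hx : v = x
      · exact hx ▸ sub_cl A hA.1
      obtain ⟨C, hC, h1, -⟩ := hv v hx hy
      have hU := (tight_lat h hA hC).1
      have : A ∪ C = A := by
        by_contra hne
        exact hex ⟨_, hU, lt_of_le_of_ne subset_union_left (Ne.symm hne)⟩
      exact cl_mono (union_eq_left.1 this) h1
    have nb : ∀ v, G.Adj y v → v ∈ cl G A ∧ v ∉ A := fun v hyv =>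
      ⟨full v hyv.ne', fun hvA => hA.2.1 (mem_cl.2 (Or.inr ⟨v, hvA, hyv.symm⟩))⟩
    refine ⟨0, fun _ => e, rfl, fun v => ?_, fun t t' i j _ _ h => ⟨he h, fun _ _ _ => rfl⟩,
      fun t ht => absurd ht (by omega), fun v => ⟨fun hyv => (hE v).1 (nb v hyv), ?_⟩,
      fun u w _ hu hu' hw hw' => ?_⟩
    · constructor
      · rintro ⟨h1, h2⟩
        obtain ⟨i, hi⟩ := (hE v).1 ⟨full v h2, h1⟩
        exact ⟨0, le_rfl, i, hi⟩
      · rintro ⟨t, -, i, hi⟩
        obtain ⟨h1, h2⟩ := (hE v).2 ⟨i, hi⟩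
        exact ⟨h2, fun h => hA.2.1 (h ▸ h1)⟩
    · intro hi
      have hN : (univ.filter fun v => G.Adj y v) = cl G A \ A := by
        apply eq_of_subset_of_card_le
        · intro v hv
          simpa using nb v (by simpa using hv)
        · rw [card_sdiff_of_subset (sub_cl A), hA.2.2]
          by_contra hc
          apply h
          refine ⟨univ.filter fun v => G.Adj y v, by omega, by simpa using fun h => hn h.symm,
            by simp, fun p => ?_⟩
          have := walk_meets (A := {y}) (S := {v | G.Adj y v}) (by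
            rintro a rfl b hab; exact Or.inr hab) p.reverse rfl hxy
          simpa using this
      have : v ∈ cl G A \ A := by simpa using (hE v).2 hi
      rw [← hN] at this
      simpa using this
    · obtain ⟨i, hi⟩ := (hE u).1 ⟨full u hu', hu⟩
      obtain ⟨j, hj⟩ := (hE w).1 ⟨full w hw', hw⟩
      exact ⟨0, le_rfl, 0, le_rfl, i, j, hi, hj, by omega, by omega⟩
  obtain ⟨B, ⟨hB, hAB⟩, hmin⟩ := exists_minimal_of_wellFoundedLT _ hex
  have hAB' : A ⊆ B := hAB.le
  have hBc : B ⊆ cl G A := by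
    intro v hvB
    by_contra hvA
    have hx : v ≠ x := fun h => hvA (h ▸ sub_cl A hA.1)
    have hy : v ≠ y := fun h => hB.2.1 (h ▸ sub_cl B hvB)
    obtain ⟨C, hC, h1, h2⟩ := hv v hx hy
    obtain ⟨-, hI, hI'⟩ := tight_lat h hB hC
    have hD := (tight_lat h hA hI).1
    have hDB : A ∪ B ∩ C ⊆ B := union_subset hAB' inter_subset_left
    have : A ∪ B ∩ C = A := by
      by_contra hne
      have := hmin ⟨hD, lt_of_le_of_ne subset_union_left (Ne.symm hne)⟩ hDB hvB
      rcases mem_union.1 this with h3 | h3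
      · exact hvA (sub_cl A h3)
      · exact h2 (mem_inter.1 h3).2
    apply hvA
    apply cl_mono (union_eq_left.1 this)
    rw [hI']
    exact mem_inter.2 ⟨sub_cl B hvB, h1⟩
  set N : V → Finset V := fun v => (cl G B \ cl G A).filter fun w => G.Adj v w with hN
  obtain ⟨m, hm, hmN⟩ := (all_card_le_biUnion_card_iff_exists_injective
    (fun v : {v // v ∈ B \ A} => N v)).1 (by
      intro X
      set X' := X.map (Function.Embedding.subtype _) with hX'
      have hX'B : ∀ v ∈ X', v ∈ B ∧ v ∉ A := by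
        intro v hv
        obtain ⟨⟨w, hw⟩, -, rfl⟩ := mem_map.1 hv
        simpa using hw
      have c1 := valid_card h (A := A ∪ X') (mem_union_left _ hA.1) (fun hy => hB.2.1
        (cl_mono (union_subset hAB' fun v hv => (hX'B v hv).1) hy))
      have c2 : (A ∪ X').card = A.card + X.card := by
        rw [card_union_of_disjoint (disjoint_right.2 fun v hv => (hX'B v hv).2), card_map]
      have c3 : cl G (A ∪ X') ⊆ cl G A ∪ X.biUnion fun v => N v := by
        intro w hw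
        by_cases hwA : w ∈ cl G A
        · exact mem_union_left _ hwA
        rw [cl_union] at hw
        rcases mem_union.1 hw with h1 | h1
        · exact absurd h1 hwA
        rcases mem_cl.1 h1 with h2 | ⟨a, ha, h2⟩
        · exact absurd (hBc (hX'B w h2).1) hwA
        obtain ⟨a', ha', rfl⟩ := mem_map.1 ha
        refine mem_union_right _ (mem_biUnion.2 ⟨a', ha', ?_⟩)
        simp only [hN, mem_filter, mem_sdiff]
        exact ⟨⟨mem_cl.2 (Or.inr ⟨_, (hX'B _ ha).1, h2⟩), hwA⟩, h2⟩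
      have c4 := (card_le_card c3).trans (card_union_le _ _)
      have c5 := hA.2.2
      omega)
  have eA : ∀ i, e i ∈ cl G A ∧ e i ∉ A := fun i => (hE _).2 ⟨i, rfl⟩
  have mN : ∀ v, m v ∈ cl G B ∧ m v ∉ cl G A ∧ G.Adj v (m v) := fun v => by
    have := hmN v
    simp only [hN, mem_filter, mem_sdiff] at this
    exact ⟨this.1.1, this.1.2, this.2⟩
  set e' : Fin (k + 1) → V := fun i =>
    if hi : e i ∈ B then m ⟨e i, mem_sdiff.2 ⟨hi, (eA i).2⟩⟩ else e i with he'
  have e1 : ∀ i, e i ∉ B → e' i = e i := fun i hi => by simp [he', hi]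
  have e2 : ∀ i (hi : e i ∈ B), e' i = m ⟨e i, mem_sdiff.2 ⟨hi, (eA i).2⟩⟩ := fun i hi => by
    simp [he', hi]
  have inj : Function.Injective e' := by
    intro i j hij
    by_cases hi : e i ∈ B <;> by_cases hj : e j ∈ B
    · rw [e2 i hi, e2 j hj] at hij
      exact he (congrArg Subtype.val (hm hij))
    · rw [e2 i hi, e1 j hj] at hij
      exact absurd (hij ▸ (eA j).1) (mN _).2.1
    · rw [e1 i hi, e2 j hj] at hij
      exact absurd (hij ▸ (eA i).1) (mN _).2.1
    · rw [e1 i hi, e1 j hj] at hij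
      exact he hij
  have e'B : ∀ i, e' i ∈ cl G B ∧ e' i ∉ B := by
    intro i
    by_cases hi : e i ∈ B
    · rw [e2 i hi]; exact ⟨(mN _).1, fun h => (mN _).2.1 (hBc h)⟩
    · rw [e1 i hi]; exact ⟨cl_mono hAB' (eA i).1, hi⟩
  have hE' : ∀ v, (v ∈ cl G B ∧ v ∉ B) ↔ ∃ i, e' i = v := by
    have : univ.image e' = cl G B \ B := by
      apply eq_of_subset_of_card_le
      · intro v hv
        obtain ⟨i, -, rfl⟩ := mem_image.1 hv
        exact mem_sdiff.2 (e'B i)
      · rw [card_sdiff_of_subset (sub_cl B), hB.2.2, card_image_of_injective _ inj]; simp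
    intro v
    rw [← mem_sdiff, ← this]; simp
  obtain ⟨T, s, s0, sa, sb, sc, sd, se⟩ := ih B hAB hB e' inj hE'
  have sB : ∀ t ≤ T, ∀ i, s t i ∉ B := fun t ht i => ((sa _).2 ⟨t, ht, i, rfl⟩).1
  refine ⟨T + 1, fun t => Nat.casesOn t e s, rfl, fun v => ?_, ?_, ?_, sd, ?_⟩
  · constructor
    · rintro ⟨h1, h2⟩
      by_cases hvB : v ∈ B
      · obtain ⟨i, hi⟩ := (hE v).1 ⟨hBc hvB, h1⟩
        exact ⟨0, by omega, i, hi⟩
      · obtain ⟨t, ht, i, hi⟩ := (sa v).1 ⟨hvB, h2⟩
        exact ⟨t + 1, by omega, i, hi⟩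
    · rintro ⟨t, ht, i, hi⟩
      cases t with
      | zero => exact hi ▸ ⟨(eA i).2, fun h => hA.2.1 (h ▸ (eA i).1)⟩
      | succ t =>
        obtain ⟨h1, h2⟩ := (sa v).2 ⟨t, by omega, i, hi⟩
        exact ⟨fun h => h1 (hAB' h), h2⟩
  · intro t t' i j htt ht' hij
    cases t' with
    | zero =>
      obtain rfl : t = 0 := by omega
      refine ⟨he hij, fun u _ hu => ?_⟩
      obtain rfl : u = 0 := by omega
      rfl
    | succ t' =>
      cases t with
      | zero =>
        have hij' : e i = s t' j := hij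
        have hi : e i ∉ B := hij' ▸ sB t' (by omega) j
        have h0 : s 0 i = e i := by rw [s0, e1 i hi]
        obtain ⟨h1, h2⟩ := sb 0 t' i j (by omega) (by omega) (h0.trans hij')
        refine ⟨h1, fun u _ hu => ?_⟩
        cases u with
        | zero => rfl
        | succ u => exact (h2 u (by omega) (by omega)).trans h0
      | succ t =>
        obtain ⟨h1, h2⟩ := sb t t' i j (by omega) (by omega) hij
        refine ⟨h1, fun u hu hu' => ?_⟩
        cases u with
        | zero => omega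
        | succ u => exact h2 u (by omega) (by omega)
  · intro t ht i
    cases t with
    | zero =>
      change e i = s 0 i ∨ G.Adj (e i) (s 0 i)
      rw [s0]
      by_cases hi : e i ∈ B
      · right; rw [e2 i hi]; exact (mN ⟨e i, _⟩).2.2
      · left; exact (e1 i hi).symm
    | succ t => exact sc t (by omega) i
  · have key : ∀ u w, G.Adj u w → u ∉ A → w ∉ A → u ∈ B →
        ∃ t' ≤ 1, ∃ i j, e i = u ∧
          (Nat.casesOn t' e s : Fin (k + 1) → V) j = w := by
      intro u w huw hu hw huB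
      obtain ⟨i, hi⟩ := (hE u).1 ⟨hBc huB, hu⟩
      by_cases hwB : w ∈ B
      · obtain ⟨j, hj⟩ := (hE w).1 ⟨hBc hwB, hw⟩
        exact ⟨0, by omega, i, j, hi, hj⟩
      · obtain ⟨j, hj⟩ := (hE' w).1 ⟨mem_cl.2 (Or.inr ⟨u, huB, huw⟩), hwB⟩
        exact ⟨1, le_rfl, i, j, hi, by rw [← hj, ← s0]; rfl⟩
    intro u w huw hu hu' hw hw'
    by_cases huB : u ∈ B
    · obtain ⟨t', ht', i, j, h1, h2⟩ := key u w huw hu hw huB
      exact ⟨0, by omega, t', by omega, i, j, h1, h2, by omega, by omega⟩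
    by_cases hwB : w ∈ B
    · obtain ⟨t', ht', i, j, h1, h2⟩ := key w u huw.symm hw hu hwB
      exact ⟨t', by omega, 0, by omega, j, i, h2, h1, by omega, by omega⟩
    obtain ⟨t, ht, t', ht', i, j, h1, h2, h3, h4⟩ := se u w huw huB hu' hwB hw'
    exact ⟨t + 1, by omega, t' + 1, by omega, i, j, h1, h2, by omega, by omega⟩

/-- a critical pair all of whose vertex deletions are not critical spans a braid -/
theorem braid_of_critical (hxy : x ≠ y) (hn : ¬ G.Adj x y) (h : ¬ SepLE G k x y)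
    (hd : ∀ v, v ≠ x → v ≠ y → ∃ S : Finset V, S.card ≤ k + 1 ∧ v ∈ S ∧ x ∉ S ∧ y ∉ S ∧
      ∀ p : G.Walk x y, ∃ v ∈ p.support, v ∈ S) : IsBraid G (k + 1) x y := by
  classical
  have hv : ∀ v, v ≠ x → v ≠ y → ∃ C, Tight G k x y C ∧ v ∈ cl G C ∧ v ∉ C := by
    intro v hx hy
    obtain ⟨S, hS, hvS, hxS, hyS, hp⟩ := hd v hx hy
    set C : Finset V := univ.filter fun w => ∃ p : G.Walk x w, ∀ u ∈ p.support, u ∉ S with hC
    have mC : ∀ w, w ∈ C ↔ ∃ p : G.Walk x w, ∀ u ∈ p.support, u ∉ S := fun w => by simp [hC]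
    have xC : x ∈ C := (mC x).2 ⟨.nil, by simpa using hxS⟩
    have sub : cl G C \ C ⊆ S := by
      intro w hw
      obtain ⟨h1, h2⟩ := mem_sdiff.1 hw
      rcases mem_cl.1 h1 with h3 | ⟨a, ha, h3⟩
      · exact absurd h3 h2
      by_contra hwS
      obtain ⟨p, hp⟩ := (mC a).1 ha
      refine h2 ((mC w).2 ⟨p.concat h3, fun u hu => ?_⟩)
      rcases (by simpa using hu : u ∈ p.support ∨ u = w) with h4 | h4
      · exact hp u h4
      · rw [h4]; exact hwS
    have yC : y ∉ cl G C := by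
      intro hy'
      by_cases h1 : y ∈ C
      · obtain ⟨p, hp'⟩ := (mC y).1 h1
        obtain ⟨u, hu, hu'⟩ := hp p
        exact hp' u hu hu'
      · exact hyS (sub (mem_sdiff.2 ⟨hy', h1⟩))
    have c1 := valid_card h xC yC
    have c2 := card_le_card sub
    have c3 := card_sdiff_of_subset (sub_cl (G := G) C)
    have : cl G C \ C = S := eq_of_subset_of_card_le sub (by omega)
    refine ⟨C, ⟨xC, yC, by omega⟩, ?_⟩
    rw [← mem_sdiff, this]; exact hvS
  have y0 : y ∉ cl G {x} := by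
    simp [mem_cl, hxy.symm, hn]
  have t0 : Tight G k x y {x} := by
    obtain ⟨A, hA, hmin⟩ := exists_minimal_of_wellFoundedLT (Tight G k x y) (by
      have c1 := valid_card h (mem_singleton_self x) y0
      obtain ⟨v, hv1, hv2⟩ := exists_mem_notMem_of_card_lt_card
        (show ({x} : Finset V).card < (cl G {x}).card by omega)
      obtain ⟨C, hC, -⟩ := hv v (by simpa using hv2) (fun h => y0 (h ▸ hv1))
      exact ⟨C, hC⟩)
    have : A = {x} := by
      refine eq_singleton_iff_unique_mem.2 ⟨hA.1, fun v hvA => ?_⟩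
      by_contra hx
      obtain ⟨C, hC, -, h2⟩ := hv v hx (fun h => hA.2.1 (h ▸ sub_cl A hvA))
      exact h2 (mem_inter.1 (hmin (tight_lat h hA hC).2.1 inter_subset_left hvA)).2
    exact this ▸ hA
  have hc : (cl G {x} \ {x}).card = k + 1 := by
    rw [card_sdiff_of_subset (sub_cl _), t0.2.2]; simp
  set e : Fin (k + 1) → V := fun i => ((cl G {x} \ {x}).equivFinOfCardEq hc).symm i with he
  have hE : ∀ v, (v ∈ cl G {x} ∧ v ∉ ({x} : Finset V)) ↔ ∃ i, e i = v := by
    intro v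
    rw [← mem_sdiff]
    constructor
    · intro hv
      exact ⟨(cl G {x} \ {x}).equivFinOfCardEq hc ⟨v, hv⟩, by simp [he]⟩
    · rintro ⟨i, rfl⟩
      exact Subtype.property _
  obtain ⟨T, s, s0, sa, sb, sc, sd, se⟩ := chain h hv hxy hn {x} t0 e
    (fun i j hij => (Equiv.injective _) (Subtype.ext hij)) hE
  refine ⟨T, s, by simpa using sa, sb, sc, fun v => ?_, sd, by simpa using se⟩
  rw [s0, ← hE]
  simp only [mem_cl, mem_singleton, exists_eq_left]
  constructor
  · exact fun h => ⟨Or.inr h, h.ne'⟩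
  · rintro ⟨h1 | h1, h2⟩
    · exact absurd h1 h2
    · exact h1

end lattice

theorem IsBraid.not_sepLE {k : ℕ} {x y : V} (h : IsBraid G (k + 1) x y) : ¬ SepLE G k x y := by
  classical
  obtain ⟨T, s, sa, sb, sc, sx, sy, -⟩ := h
  rintro ⟨S, hS, hx, hy, hp⟩
  obtain ⟨i, hi⟩ : ∃ i, ∀ t ≤ T, s t i ∉ S := by
    by_contra hc
    push Not at hc
    choose f hf hf' using hc
    have := card_le_card_of_injOn (s := univ) (t := S) (fun i => s (f i) i) (fun i _ => hf' i)
      (fun i _ j _ hij => by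
        rcases le_total (f i) (f j) with h | h
        · exact (sb _ _ i j h (hf j) hij).1
        · exact ((sb _ _ j i h (hf i) hij.symm).1).symm)
    simp at this; omega
  have : ∀ t ≤ T, ∃ p : G.Walk x (s t i), ∀ u ∈ p.support, u ∉ S := by
    intro t
    induction t with
    | zero =>
      intro ht
      refine ⟨((sx _).2 ⟨i, rfl⟩).toWalk, fun u hu => ?_⟩
      simp only [SimpleGraph.Walk.support_cons, SimpleGraph.Walk.support_nil, List.mem_cons,
        List.not_mem_nil, or_false] at hu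
      rcases hu with rfl | rfl
      · exact hx
      · exact hi 0 ht
    | succ t ih =>
      intro ht
      obtain ⟨p, hp⟩ := ih (by omega)
      rcases sc t ht i with h | h
      · exact h ▸ ⟨p, hp⟩
      · refine ⟨p.concat h, fun u hu => ?_⟩
        rcases (by simpa using hu : u ∈ p.support ∨ u = s (t + 1) i) with h4 | h4
        · exact hp u h4
        · rw [h4]; exact hi _ ht
  obtain ⟨p, hp'⟩ := this T le_rfl
  obtain ⟨u, hu, huS⟩ := hp (p.concat ((sy _).2 ⟨i, rfl⟩).symm)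
  rcases (by simpa using hu : u ∈ p.support ∨ u = y) with h4 | h4
  · exact hp' u h4 huS
  · rw [h4] at huS; exact hy huS

theorem IsBraid.cut {r : ℕ} {x y : V} (h : IsBraid G r x y) (hxy : x ≠ y) (hn : ¬ G.Adj x y)
    (v : V) (hx : v ≠ x) (hy : v ≠ y) :
    ∃ S : Finset V, S.card ≤ r ∧ v ∈ S ∧ x ∉ S ∧ y ∉ S ∧
      ∀ p : G.Walk x y, ∃ v ∈ p.support, v ∈ S := by
  classical
  obtain ⟨T, s, sa, sb, -, sx, sy, se⟩ := h
  obtain ⟨t, ht, i, rfl⟩ := (sa v).1 ⟨hx, hy⟩
  have ne : ∀ u ≤ T, ∀ j, s u j ≠ x ∧ s u j ≠ y := fun u hu j => (sa _).2 ⟨u, hu, j, rfl⟩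
  refine ⟨univ.image (s t), card_image_le.trans (by simp), by simp, ?_, ?_, fun p => ?_⟩
  · simpa using fun j => (ne t ht j).1
  · simpa using fun j => (ne t ht j).2
  have := walk_meets (A := {a | a = x ∨ (a ≠ y ∧ ∀ u ≤ T, ∀ j, s u j = a → u < t)})
    (S := Set.range (s t)) ?_ p (Or.inl rfl) (by simp [hxy.symm])
  · simpa using this
  have late : ∀ b, b ≠ y → ∀ u ≤ T, ∀ j, s u j = b → u ≤ t →
      b ∈ {a | a = x ∨ (a ≠ y ∧ ∀ u ≤ T, ∀ j, s u j = a → u < t)} ∨ b ∈ Set.range (s t) := by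
    intro b hb u hu j hj hut
    by_cases hc : ∀ u ≤ T, ∀ j, s u j = b → u < t
    · exact Or.inl (Or.inr ⟨hb, hc⟩)
    · push Not at hc
      obtain ⟨u', hu', j', hj', h'⟩ := hc
      exact Or.inr ⟨j, ((sb u u' j j' (by omega) hu' (hj.trans hj'.symm)).2 t hut h').trans hj⟩
  intro a ha b hab
  by_cases hax : a = x
  · subst hax
    obtain ⟨j, hj⟩ := (sx b).1 hab
    exact late b (hj ▸ (ne 0 (by omega) j).2) 0 (by omega) j hj (by omega)
  obtain ⟨hay, ha'⟩ := ha.resolve_left hax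
  by_cases hbx : b = x
  · exact Or.inl (Or.inl hbx)
  have hby : b ≠ y := by
    rintro rfl
    obtain ⟨j, hj⟩ := (sy a).1 hab.symm
    have := ha' T le_rfl j hj
    omega
  obtain ⟨u, hu, u', hu', j, j', h1, h2, -, h4⟩ := se a b hab hax hay hbx hby
  have := ha' u hu j h1
  exact late b hby u' hu' j' h2 (by omega)

end Pool.Agent.Lib.MP_ce5ee5_co
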