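import Pool.Agent.Lib.MP_ce5ee5_co.Braid

/-! A pair that is the pair of no induced `(k+1)`-braid has separability at most `k`. -/

namespace Pool.Agent.Lib.MP_ce5ee5_co

variable {V : Type} {G : SimpleGraph V}

lemma bs_in {A : Set V} {u w : V} (hu : u ∈ A) (hw : w ∈ A) {S : Finset V}
    (hp : ∀ p : G.Walk u w, (∀ v ∈ p.support, v ∈ A) → ∃ v ∈ p.support, v ∈ S)
    [DecidablePred (· ∈ A)] (p : (G.induce A).Walk ⟨u, hu⟩ ⟨w, hw⟩) :
    ∃ v ∈ p.support, v ∈ S.subtype (· ∈ A) := by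
  have e := SimpleGraph.Walk.support_map (SimpleGraph.Embedding.induce A).toHom p
  obtain ⟨v, hv, hvS⟩ := hp (p.map (SimpleGraph.Embedding.induce A).toHom) fun v hv => by
    obtain ⟨a, -, rfl⟩ := List.mem_map.1 (e ▸ hv)
    exact a.2
  obtain ⟨a, ha, rfl⟩ := List.mem_map.1 (e ▸ hv)
  exact ⟨a, ha, by simpa using hvS⟩

theorem IsBraid.not_adj {r : ℕ} {x y : V} (h : IsBraid G r x y) : ¬ G.Adj x y := by
  obtain ⟨T, s, sa, -, -, sx, -⟩ := h
  intro e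
  obtain ⟨i, hi⟩ := (sx y).1 e
  exact ((sa y).2 ⟨0, Nat.zero_le _, i, hi⟩).2 rfl

theorem sepLE_of_no_braid [Finite V] {k : ℕ} {B : Set V} {u w : V} (uB : u ∈ B) (wB : w ∈ B)
    (huw : u ≠ w) (hn : ¬ G.Adj u w) (h : ∀ A ⊆ B, ∀ (hu : u ∈ A) (hw : w ∈ A),
      ¬ IsBraid (G.induce A) (k + 1) ⟨u, hu⟩ ⟨w, hw⟩) :
    SepLE (G.induce B) k ⟨u, uB⟩ ⟨w, wB⟩ := by
  classical
  by_contra hs
  obtain ⟨A, ⟨AB, hu, hw, hA⟩, hm⟩ := exists_minimalFor_of_wellFoundedLT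
    (fun A : Set V => A ⊆ B ∧ u ∈ A ∧ w ∈ A ∧ ¬ ∃ S : Finset V, S.card ≤ k ∧ u ∉ S ∧ w ∉ S ∧
      ∀ p : G.Walk u w, (∀ v ∈ p.support, v ∈ A) → ∃ v ∈ p.support, v ∈ S) Set.ncard
    ⟨B, subset_rfl, uB, wB, fun ⟨S, a, b, c, d⟩ => hs ⟨S.subtype (· ∈ B), by
      rw [Finset.card_subtype]
      exact (Finset.card_filter_le _ _).trans a, by simpa using b, by simpa using c,
      bs_in uB wB d⟩⟩
  have := Fintype.ofFinite A
  refine h A AB hu hw (braid_of_critical (by simpa using huw) (by simpa using hn) ?_ ?_)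
  · rintro ⟨S, hS, h1, h2, hp⟩
    refine hA ⟨S.map (Function.Embedding.subtype _), by simpa using hS, by simpa [hu] using h1,
      by simpa [hw] using h2, fun p hp' => ?_⟩
    obtain ⟨a, ha, haS⟩ := hp (p.induce A hp')
    refine ⟨a, ?_, Finset.mem_map_of_mem _ haS⟩
    rw [SimpleGraph.Walk.support_induce] at ha
    simpa using ha
  · intro v h1 h2
    have h1' : u ≠ v := fun e => h1 (Subtype.ext e.symm)
    have h2' : w ≠ v := fun e => h2 (Subtype.ext e.symm)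
    have lt : (A \ {v.1}).ncard < A.ncard := Set.ncard_sdiff_singleton_lt_of_mem v.2
    obtain ⟨S, hS, a, b, hp⟩ : ∃ S : Finset V, S.card ≤ k ∧ u ∉ S ∧ w ∉ S ∧
        ∀ p : G.Walk u w, (∀ z ∈ p.support, z ∈ A \ {v.1}) → ∃ z ∈ p.support, z ∈ S := by
      by_contra k
      exact absurd (hm (j := A \ {v.1}) ⟨Set.sdiff_subset.trans AB, ⟨hu, h1'⟩, ⟨hw, h2'⟩, k⟩ lt.le)
        (not_le.2 lt)
    refine ⟨(insert v.1 S).subtype (· ∈ A), ?_, by simp, by simp [h1', a], by simp [h2', b],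
      bs_in hu hw fun p hp' => ?_⟩
    · rw [Finset.card_subtype]
      exact (Finset.card_filter_le _ _).trans ((Finset.card_insert_le _ _).trans (by omega))
    · by_cases hv : v.1 ∈ p.support
      · exact ⟨v, hv, by simp⟩
      obtain ⟨z, hz, hzS⟩ := hp p fun z hz => ⟨hp' z hz, fun e : z = v => hv (e ▸ hz)⟩
      exact ⟨z, hz, Finset.mem_insert_of_mem hzS⟩

/-- a braid has no proper induced braid with the same ends -/
theorem IsBraid.sep_sub {k : ℕ} {x y : V} (h : IsBraid G (k + 1) x y) (hxy : x ≠ y) {A : Set V}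
    (hA : A ≠ Set.univ) (hx : x ∈ A) (hy : y ∈ A) :
    SepLE (G.induce A) k ⟨x, hx⟩ ⟨y, hy⟩ ∧ SepLE (G.induce A) k ⟨y, hy⟩ ⟨x, hx⟩ := by
  classical
  obtain ⟨v, hv⟩ := (Set.ne_univ_iff_exists_notMem A).1 hA
  obtain ⟨S, hS, hvS, a, b, hp⟩ := h.cut hxy h.not_adj v (fun e => hv (e ▸ hx)) (fun e => hv (e ▸ hy))
  have c := Finset.card_lt_card (Finset.filter_ssubset.2 ⟨v, hvS, hv⟩ : S.filter (· ∈ A) ⊂ S)
  have c' : (S.subtype (· ∈ A)).card ≤ k := by rw [Finset.card_subtype]; omega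
  refine ⟨⟨S.subtype (· ∈ A), c', by simpa using a, by simpa using b, bs_in hx hy fun p _ => hp p⟩,
    S.subtype (· ∈ A), c', by simpa using b, by simpa using a, bs_in hy hx fun p _ => ?_⟩
  simpa using hp p.reverse

end Pool.Agent.Lib.MP_ce5ee5_co
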