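import Mathlib

namespace Pool.Agent.Lib.MP_ce5ee5_co

variable {V : Type}

/-- `sep(x, y) ≤ k`: at most `k` vertices other than `x, y` meet every walk from `x` to `y`. -/
def SepLE (G : SimpleGraph V) (k : ℕ) (x y : V) : Prop :=
  ∃ S : Finset V, S.card ≤ k ∧ x ∉ S ∧ y ∉ S ∧ ∀ p : G.Walk x y, ∃ v ∈ p.support, v ∈ S

/-- `G` has separability at most `k`. -/
def InG (k : ℕ) (G : SimpleGraph V) : Prop :=
  ∀ x y, x ≠ y → ¬ G.Adj x y → SepLE G k x y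

/-- `G` is a minimal forbidden induced subgraph for separability at most `k`. -/
def InF (k : ℕ) (G : SimpleGraph V) : Prop :=
  ¬ InG k G ∧ ∀ A : Set V, A ≠ Set.univ → InG k (G.induce A)

/-- `G` is a braid with `r` strands from `x` to `y`; `s t i` is the vertex of strand `i` at
time `t`. -/
def IsBraid (G : SimpleGraph V) (r : ℕ) (x y : V) : Prop :=
  ∃ (T : ℕ) (s : ℕ → Fin r → V),
    (∀ v, (v ≠ x ∧ v ≠ y) ↔ ∃ t ≤ T, ∃ i, s t i = v) ∧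
    (∀ t t' i j, t ≤ t' → t' ≤ T → s t i = s t' j →
      i = j ∧ ∀ u, t ≤ u → u ≤ t' → s u i = s t i) ∧
    (∀ t < T, ∀ i, s t i = s (t + 1) i ∨ G.Adj (s t i) (s (t + 1) i)) ∧
    (∀ v, G.Adj x v ↔ ∃ i, s 0 i = v) ∧
    (∀ v, G.Adj y v ↔ ∃ i, s T i = v) ∧
    (∀ u w, G.Adj u w → u ≠ x → u ≠ y → w ≠ x → w ≠ y →
      ∃ t ≤ T, ∃ t' ≤ T, ∃ i j, s t i = u ∧ s t' j = w ∧ t ≤ t' + 1 ∧ t' ≤ t + 1)

end Pool.Agent.Lib.MP_ce5ee5_co
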