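import Pool.Agent.Lib.MP_ce5ee5_co.Defs

namespace Pool.Agent.Lib.MP_ce5ee5_co

variable {V : Type}

/-- `G` is a braid with `r` strands from `x` to `y`, last time `T`; `s t i` is the vertex of
strand `i` at time `t`. -/
def Braid (G : SimpleGraph V) (r : ℕ) (x y : V) (T : ℕ) (s : ℕ → Fin r → V) : Prop :=
  (∀ v, (v ≠ x ∧ v ≠ y) ↔ ∃ t ≤ T, ∃ i, s t i = v) ∧
  (∀ t t' i j, t ≤ t' → t' ≤ T → s t i = s t' j →
    i = j ∧ ∀ u, t ≤ u → u ≤ t' → s u i = s t i) ∧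
  (∀ t < T, ∀ i, s t i = s (t + 1) i ∨ G.Adj (s t i) (s (t + 1) i)) ∧
  (∀ v, G.Adj x v ↔ ∃ i, s 0 i = v) ∧
  (∀ v, G.Adj y v ↔ ∃ i, s T i = v) ∧
  (∀ u w, G.Adj u w → u ≠ x → u ≠ y → w ≠ x → w ≠ y →
    ∃ t ≤ T, ∃ t' ≤ T, ∃ i j, s t i = u ∧ s t' j = w ∧ t ≤ t' + 1 ∧ t' ≤ t + 1)

/-- `a` and `b` lie on different strands -/
def Cross {r : ℕ} (T : ℕ) (s : ℕ → Fin r → V) (a b : V) : Prop :=
  ∃ t ≤ T, ∃ t' ≤ T, ∃ i j, i ≠ j ∧ s t i = a ∧ s t' j = b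

/-- `k + 1` internally disjoint paths between two non-adjacent vertices that miss a vertex and
change strand at most `m` times altogether -/
def Shortcut (G : SimpleGraph V) (k m T : ℕ) (s : ℕ → Fin (k + 1) → V) : Prop :=
  ∃ u w v : V, u ≠ w ∧ ¬ G.Adj u w ∧ ∃ P : Fin (k + 1) → G.Walk u w,
    (∀ i, (P i).IsPath ∧ v ∉ (P i).support) ∧
    (∀ i j, i ≠ j → ∀ a ∈ (P i).support, a ∈ (P j).support → a = u ∨ a = w) ∧
    {e : V × V | Cross T s e.1 e.2 ∧ ∃ i, ∃ d ∈ (P i).darts, d.toProd = e}.ncard ≤ m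

end Pool.Agent.Lib.MP_ce5ee5_co
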