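import Pool.Agent.Lib.MP_ce5ee5_co.FpTrace

namespace Pool.Agent.Lib.MP_ce5ee5_co

variable {V : Type} {G : SimpleGraph V} {k r T : ℕ} {x y : V} {s : ℕ → Fin r → V} {Z : Set V}

lemma hit_card {W : Type} {S : Finset W} (P : Fin (k + 1) → W → Prop)
    (h1 : ∀ i, ∃ a ∈ S, P i a) (h2 : ∀ i j, ∀ a ∈ S, P i a → P j a → i = j) : k + 1 ≤ S.card := by
  choose f f1 f2 using h1
  have := Finset.card_le_card_of_injOn (s := Finset.univ) (t := S) f (fun i _ => f1 i)
    fun i _ j _ e => h2 i j _ (f1 i) (f2 i) (e ▸ f2 j)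
  simpa using this

lemma inG_induce_of {W : Type} {R : SimpleGraph W} {A : Set W} {u w : A} {v : W} (hv : v ∉ A)
    (S : Finset W) (hS : S.card ≤ k) (hu : u.1 ∉ S) (hw : w.1 ∉ S)
    (hp : ∀ p : R.Walk u w, v ∉ p.support → ∃ a ∈ p.support, a ∈ S) :
    SepLE (R.induce A) k u w := by
  classical
  refine ⟨S.subtype (· ∈ A), ?_, by simpa using hu, by simpa using hw, fun p => ?_⟩
  · rw [Finset.card_subtype]
    exact (Finset.card_filter_le _ _).trans hS
  obtain ⟨c, hc, hcS⟩ := hp (p.map (SimpleGraph.Embedding.induce A).toHom) (by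
    intro h
    obtain ⟨a, -, ha⟩ := List.mem_map.1
      ((SimpleGraph.Walk.support_map (SimpleGraph.Embedding.induce A).toHom p) ▸ h)
    exact hv (ha ▸ a.2))
  obtain ⟨a, ha, rfl⟩ := List.mem_map.1
    ((SimpleGraph.Walk.support_map (SimpleGraph.Embedding.induce A).toHom p) ▸ hc)
  exact ⟨a, ha, by simpa using hcS⟩

theorem trace_inF {s : ℕ → Fin (k + 1) → V} (h : Braid G (k + 1) x y T s) (hxy : x ≠ y)
    (hF : InF k G) (hx : x ∈ Z) (hy : y ∈ Z) (hs : ∀ i, s 0 i ∈ Z ∧ s T i ∈ Z) :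
    InF k (Trace G T s Z) := by
  classical
  have iv := h.iv
  constructor
  · intro hG
    obtain ⟨S, hS, h1, h2, hp⟩ := hG ⟨x, hx⟩ ⟨y, hy⟩ (by simpa using hxy) (by
      rw [trace_adj]
      rintro ⟨-, e | ⟨i, t, t', ⟨a1, a2, -⟩, ⟨e, -⟩ | ⟨-, e⟩⟩⟩
      · obtain ⟨i, hi⟩ := (h.2.2.2.1 y).1 e
        exact (h.ne (Nat.zero_le _) i).2 hi
      · exact (h.ne (a1.trans a2) i).1 e
      · exact (h.ne a2 i).1 e)
    have := hit_card (k := k) (S := S) (fun i a => ∃ t ≤ T, s t i = a.1) ?_ ?_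
    · omega
    · intro i
      obtain ⟨p, hp1⟩ := strand_walk h i
      obtain ⟨q, hq⟩ := contract h hx hy hs (u := ⟨x, hx⟩) (w := ⟨y, hy⟩) p (by
        rintro d hd ⟨t1, a1, t2, a2, j, l, hjl, e1, e2⟩
        exfalso
        have on : ∀ t ≤ T, ∀ j, s t j ∈ p.support → j = i := by
          intro t ht j hm
          rcases hp1 _ hm with e | e | ⟨t', ht', e⟩
          · exact absurd e (h.ne ht j).1
          · exact absurd e (h.ne ht j).2
          · exact (iv.eq ht' ht e).symm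
        exact hjl ((on t1 a1 j (e1 ▸ p.dart_fst_mem_support_of_mem_darts hd)).trans
          (on t2 a2 l (e2 ▸ p.dart_snd_mem_support_of_mem_darts hd)).symm))
      obtain ⟨a, ha, haS⟩ := hp q
      refine ⟨a, haS, ?_⟩
      rcases hp1 _ (hq a ha) with e | e | e
      · exact absurd ((Subtype.ext e : a = ⟨x, hx⟩) ▸ haS) h1
      · exact absurd ((Subtype.ext e : a = ⟨y, hy⟩) ▸ haS) h2
      · exact e
    · rintro i j a - ⟨t, ht, e⟩ ⟨t', ht', e'⟩
      exact iv.eq ht ht' (e.trans e'.symm)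
  · intro A hA u w huw hn
    obtain ⟨v, hv⟩ := (Set.ne_univ_iff_exists_notMem A).1 hA
    have huw' : u.1 ≠ w.1 := fun e => huw (Subtype.ext e)
    have hn1 : ¬ (Trace G T s Z).Adj u.1 w.1 := hn
    obtain ⟨S, hS, hu, hw, hp⟩ := hF.del (u := u.1.1) (w := w.1.1) (v := v.1)
      (fun e => hv (Subtype.ext e ▸ u.2)) (fun e => hv (Subtype.ext e ▸ w.2))
      (fun e => huw' (Subtype.ext e)) fun e => hn1 (trace_adj.2 ⟨huw', Or.inl e⟩)
    have ex : ∀ a ∈ S, ∃ o : Option Z, o ≠ some u.1 ∧ o ≠ some w.1 ∧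
        (∀ ha : a ∈ Z, o = some ⟨a, ha⟩) ∧
        ∀ i t t' τ (z1 : s t i ∈ Z) (z2 : s t' i ∈ Z), Seg T s Z i t t' → t ≤ τ → τ ≤ t' →
          s τ i = a → a ∉ Z → o = some ⟨_, z1⟩ ∨ o = some ⟨_, z2⟩ := by
      intro a haS
      by_cases ha : a ∈ Z
      · refine ⟨some ⟨a, ha⟩, ?_, ?_, fun _ => rfl, fun _ _ _ _ _ _ _ _ _ _ n => absurd ha n⟩
        · intro e
          exact hu ((congrArg Subtype.val (Option.some.inj e) : a = u.1.1) ▸ haS)
        · intro e
          exact hw ((congrArg Subtype.val (Option.some.inj e) : a = w.1.1) ▸ haS)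
      by_cases hc : ∃ i t t' τ, s t i ∈ Z ∧ s t' i ∈ Z ∧ Seg T s Z i t t' ∧ t ≤ τ ∧ τ ≤ t' ∧
          s τ i = a
      · obtain ⟨i, t, t', τ, z1, z2, sg, a1, a2, a3⟩ := hc
        have ne : (⟨_, z1⟩ : Z) ≠ ⟨_, z2⟩ := fun e =>
          ha (a3 ▸ (iv.btw (sg.1.trans sg.2.1) sg.2.1 (congrArg Subtype.val e) (Or.inl ⟨a1, a2⟩)) ▸ z1)
        have adj : (Trace G T s Z).Adj ⟨_, z1⟩ ⟨_, z2⟩ :=
          trace_adj.2 ⟨ne, Or.inr ⟨i, t, t', sg, Or.inl ⟨rfl, rfl⟩⟩⟩
        have : ∃ z : Z, (z = ⟨_, z1⟩ ∨ z = ⟨_, z2⟩) ∧ z ≠ u.1 ∧ z ≠ w.1 := by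
          by_contra hc
          push Not at hc
          have c1 := hc _ (Or.inl rfl)
          have c2 := hc _ (Or.inr rfl)
          by_cases e1 : (⟨_, z1⟩ : Z) = u.1
          · have e2 := c2 fun e => ne (e1.trans e.symm)
            exact hn1 (e1 ▸ e2 ▸ adj)
          · by_cases e2 : (⟨_, z2⟩ : Z) = u.1
            · exact hn1 (e2 ▸ c1 e1 ▸ adj.symm)
            · exact ne ((c1 e1).trans (c2 e2).symm)
        obtain ⟨z, hz, n1, n2⟩ := this
        refine ⟨some z, by simpa using n1, by simpa using n2, fun h => absurd h ha, ?_⟩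
        intro j q q' ρ z3 z4 sg' b1 b2 b3 _
        obtain ⟨e1, e2⟩ := seg_uniq iv sg sg' z1 z2 z3 z4 a1 a2 b1 b2 (a3.trans b3.symm)
          (a3 ▸ ha)
        rcases hz with rfl | rfl
        · exact Or.inl (by simp [e1])
        · exact Or.inr (by simp [e2])
      · exact ⟨none, by simp, by simp, fun h => absurd h ha,
          fun i t t' τ z1 z2 sg a1 a2 a3 _ => absurd ⟨i, t, t', τ, z1, z2, sg, a1, a2, a3⟩ hc⟩
    choose! φ φ1 φ2 φ3 φ4 using ex
    have mS : ∀ z : Z, z ∈ (S.image φ).eraseNone ↔ ∃ a ∈ S, φ a = some z := by simp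
    refine inG_induce_of hv (S.image φ).eraseNone
      ((Finset.card_eraseNone_le _).trans (Finset.card_image_le.trans hS))
      (fun e => ?_) (fun e => ?_) fun p hvp => ?_
    · obtain ⟨a, a1, a2⟩ := (mS _).1 e
      exact φ1 a a1 a2
    · obtain ⟨a, a1, a2⟩ := (mS _).1 e
      exact φ2 a a1 a2
    by_contra hc
    push Not at hc
    let Re : V → Prop := fun a => ∃ q : G.Walk u.1.1 a, ∀ c ∈ q.support, c ∉ S ∧ c ≠ v.1
    have st : ∀ a b, Re a → G.Adj a b → b ∉ S ∧ b ≠ v.1 → Re b := by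
      rintro a b ⟨q, hq⟩ hab hb
      refine ⟨q.concat hab, fun c hc => ?_⟩
      simp at hc
      rcases hc with hc | rfl
      · exact hq c hc
      · exact hb
    have run : ∀ i t t', t ≤ t' → t' ≤ T → (∀ σ, t ≤ σ → σ ≤ t' → s σ i ∉ S ∧ s σ i ≠ v.1) →
        (Re (s t i) ↔ Re (s t' i)) := by
      intro i t t' l
      induction l with
      | refl => exact fun _ _ => Iff.rfl
      | @step m l ih =>
        intro hm ok
        refine (ih (by omega) fun σ l1 l2 => ok σ l1 (by omega)).trans ?_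
        rcases h.2.2.1 m hm i with e | e
        · rw [← e]
        · exact ⟨fun q => st _ _ q e (ok _ (Nat.le_succ_of_le l) le_rfl),
            fun q => st _ _ q e.symm (ok _ l (Nat.le_succ _))⟩
    have ok : ∀ z ∈ p.support, z.1 ∉ S ∧ z.1 ≠ v.1 := fun z hz =>
      ⟨fun e => hc z hz ((mS z).2 ⟨_, e, φ3 _ e z.2⟩), fun e => hvp (Subtype.ext e ▸ hz)⟩
    have key : ∀ (a b : Z) (q : (Trace G T s Z).Walk a b), (∀ z ∈ q.support, z ∈ p.support) →
        Re a → Re b := by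
      intro a b q
      induction q with
      | nil => exact fun _ => id
      | @cons a c b hac q ih =>
        intro hq ra
        refine ih (fun z hz => hq z (by simp [hz])) ?_
        have ma := hq a (by simp)
        have mc := hq c (by simp)
        have sg : ∀ (a c : Z), a ∈ p.support → c ∈ p.support → ∀ i t t', Seg T s Z i t t' →
            s t i = a → s t' i = c → (Re a ↔ Re c) := by
          intro a c ma mc i t t' sg e1 e2
          rw [← e1, ← e2]
          refine run i t t' sg.1 sg.2.1 fun σ l1 l2 => ?_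
          by_cases hz : s σ i ∈ Z
          · rcases sg.2.2 σ l1 l2 hz with e | e
            · rw [e, e1]; exact ok a ma
            · rw [e, e2]; exact ok c mc
          · refine ⟨fun hS => ?_, fun e => hz (e ▸ v.2)⟩
            rcases φ4 _ hS i t t' σ (e1 ▸ a.2) (e2 ▸ c.2) sg l1 l2 rfl hz with e | e
            · exact hc a ma ((mS a).2 ⟨_, hS, by simp [e, e1]⟩)
            · exact hc c mc ((mS c).2 ⟨_, hS, by simp [e, e2]⟩)
        rcases (trace_adj.1 hac).2 with e | ⟨i, t, t', s1, ⟨e1, e2⟩ | ⟨e1, e2⟩⟩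
        · exact st _ _ ra e (ok c mc)
        · exact (sg a c ma mc i t t' s1 e1 e2).1 ra
        · exact (sg c a mc ma i t t' s1 e1 e2).2 ra
    obtain ⟨q, hq⟩ := key _ _ p (fun _ h => h)
      ⟨.nil, by simpa using ok _ p.start_mem_support⟩
    obtain ⟨a, a1, a2⟩ := hp q fun e => (hq _ e).2 rfl
    exact (hq a a1).1 a2

lemma between_aux (h : Braid G r x y T s) {i : Fin r} {t t' : ℕ} (l : t ≤ t') (hT : t' ≤ T)
    (hne : s t i ≠ s t' i) (hn : ¬ G.Adj (s t i) (s t' i)) :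
    ∃ σ, t ≤ σ ∧ σ ≤ t' ∧ s σ i ≠ s t i ∧ s σ i ≠ s t' i := by
  by_contra hc
  push Not at hc
  have : ∀ σ, t ≤ σ → σ ≤ t' → s σ i = s t i := by
    intro σ l1
    induction l1 with
    | refl => exact fun _ => rfl
    | @step m l1 ih =>
      intro l2
      have e := ih (by omega)
      by_contra n
      have e2 := hc _ (Nat.le_succ_of_le l1) l2 n
      rcases h.2.2.1 m (by omega) i with q | q
      · exact n (q.symm.trans e)
      · exact hn (e ▸ e2 ▸ q)
  exact hne (this t' l le_rfl).symm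

lemma exists_between (h : Braid G r x y T s) {u w : V} (huw : u ≠ w) (hn : ¬ G.Adj u w) :
    ∃ m : V, ∀ Z : Set V, m ∈ Z → ∀ i t t', Seg T s Z i t t' →
      ¬ ((s t i = u ∧ s t' i = w) ∨ (s t i = w ∧ s t' i = u)) := by
  have iv := h.iv
  have key : ∀ a b : V, a ≠ b → ¬ G.Adj a b → ∀ i t t', t ≤ t' → t' ≤ T → s t i = a →
      s t' i = b → ∃ m : V, ∀ Z : Set V, m ∈ Z → ∀ i t t', Seg T s Z i t t' →
      ¬ ((s t i = a ∧ s t' i = b) ∨ (s t i = b ∧ s t' i = a)) := by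
    rintro _ _ hab hn i t t' l hT rfl rfl
    obtain ⟨σ, l1, l2, n1, n2⟩ := between_aux h l hT hab hn
    refine ⟨s σ i, ?_⟩
    rintro Z hm j q q' ⟨c1, c2, c3⟩ (⟨e1, e2⟩ | ⟨e1, e2⟩)
    · obtain rfl := iv.eq (c1.trans c2) (l.trans hT) e1
      have k1 : q ≤ σ := by
        by_contra hc
        exact n1 (iv.btw (l.trans hT) (c1.trans c2) e1.symm (by omega))
      have k2 : σ ≤ q' := by
        by_contra hc
        exact n2 (iv.btw hT c2 e2.symm (by omega))
      rcases c3 σ k1 k2 hm with e | e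
      · exact n1 (e.trans e1)
      · exact n2 (e.trans e2)
    · obtain rfl := iv.eq (c1.trans c2) hT e1
      rcases le_total q t with k | k
      · exact hab (iv.btw hT (c1.trans c2) e1.symm (by omega))
      · exact hab ((iv.btw (u := q) (l.trans hT) c2 e2.symm (by omega)).symm.trans e1)
  by_cases h1 : ∃ i t t', t ≤ t' ∧ t' ≤ T ∧ s t i = u ∧ s t' i = w
  · obtain ⟨i, t, t', a1, a2, a3, a4⟩ := h1
    exact key u w huw hn i t t' a1 a2 a3 a4
  by_cases h2 : ∃ i t t', t ≤ t' ∧ t' ≤ T ∧ s t i = w ∧ s t' i = u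
  · obtain ⟨i, t, t', a1, a2, a3, a4⟩ := h2
    obtain ⟨m, hm⟩ := key w u huw.symm (fun e => hn e.symm) i t t' a1 a2 a3 a4
    exact ⟨m, fun Z hZ i t t' sg e => hm Z hZ i t t' sg e.symm⟩
  refine ⟨u, ?_⟩
  rintro Z - i t t' sg (e | e)
  · exact h1 ⟨i, t, t', sg.1, sg.2.1, e⟩
  · exact h2 ⟨i, t, t', sg.1, sg.2.1, e⟩

theorem inF_traces [Finite V] (k : ℕ) (F : SimpleGraph V) :
    InF k F ↔ ∃ x y T s, x ≠ y ∧ Braid F (k + 1) x y T s ∧
      ∀ Z : Set V, x ∈ Z → y ∈ Z → (∀ i, s 0 i ∈ Z ∧ s T i ∈ Z) →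
        Z.ncard ≤ 4 ^ (k + 6) * (k + 2) ^ 3 → InF k (Trace F T s Z) := by
  classical
  constructor
  · intro hF
    obtain ⟨x, y, T, s, hxy, hb, -⟩ := (inF_patterns k F).1 hF
    exact ⟨x, y, T, s, hxy, hb, fun Z hx hy hs _ => trace_inF hb hxy hF hx hy hs⟩
  · rintro ⟨x, y, T, s, hxy, hb, hZ⟩
    refine (inF_patterns k F).2 ⟨x, y, T, s, hxy, hb, ?_⟩
    rintro ⟨u, w, v, huw, hn, P, hP, hd, hX⟩
    obtain ⟨m, hm⟩ := exists_between hb huw hn
    set X := {e : V × V | Cross T s e.1 e.2 ∧ ∃ i, ∃ d ∈ (P i).darts, d.toProd = e} with hXd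
    let Z : Set V := ((({x, y, u} ∪ {w, v, m}) ∪ (Set.range (s 0) ∪ Set.range (s T))) ∪
      (Prod.fst '' X ∪ Prod.snd '' X))
    have rg : ∀ t, (Set.range (s t)).ncard ≤ k + 1 := fun t => by
      rw [← Set.image_univ]
      exact (Set.ncard_image_le (Set.toFinite _)).trans (by simp)
    have three : ∀ a b c : V, ({a, b, c} : Set V).ncard ≤ 3 := fun a b c =>
      (Set.ncard_insert_le _ _).trans (by
        have := Set.ncard_insert_le b ({c} : Set V)
        rw [Set.ncard_singleton] at this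
        omega)
    have cZ : Z.ncard ≤ 4 ^ (k + 6) * (k + 2) ^ 3 := by
      have h1 : Z.ncard ≤ ((3 + 3) + ((k + 1) + (k + 1))) + (X.ncard + X.ncard) :=
        (Set.ncard_union_le _ _).trans (add_le_add ((Set.ncard_union_le _ _).trans (add_le_add
          ((Set.ncard_union_le _ _).trans (add_le_add (three _ _ _) (three _ _ _)))
          ((Set.ncard_union_le _ _).trans (add_le_add (rg _) (rg _)))))
          ((Set.ncard_union_le _ _).trans (add_le_add (Set.ncard_image_le (Set.toFinite _))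
            (Set.ncard_image_le (Set.toFinite _)))))
      have h2 : 4 * (k + 2) ≤ 4 ^ (k + 5) * (k + 2) ^ 3 :=
        Nat.mul_le_mul (Nat.le_self_pow (by omega) 4) (Nat.le_self_pow (by omega) _)
      rw [show k + 6 = (k + 5) + 1 from rfl, pow_succ 4 (k + 5), mul_right_comm]
      omega
    have hx : x ∈ Z := by simp [Z]
    have hy : y ∈ Z := by simp [Z]
    have hu : u ∈ Z := by simp [Z]
    have hw : w ∈ Z := by simp [Z]
    have hv : v ∈ Z := by simp [Z]
    have hmZ : m ∈ Z := by simp [Z]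
    have hs : ∀ i, s 0 i ∈ Z ∧ s T i ∈ Z := fun i =>
      ⟨Or.inl (Or.inr (Or.inl ⟨i, rfl⟩)), Or.inl (Or.inr (Or.inr ⟨i, rfl⟩))⟩
    obtain ⟨S, hS, h1, h2, hp⟩ := (hZ Z hx hy hs cZ).del (u := ⟨u, hu⟩) (w := ⟨w, hw⟩)
      (v := ⟨v, hv⟩)
      (fun e => (hP 0).2 (by rw [← Subtype.mk.inj e]; exact (P 0).start_mem_support))
      (fun e => (hP 0).2 (by rw [← Subtype.mk.inj e]; exact (P 0).end_mem_support))
      (by simpa using huw) (by
        rw [trace_adj]
        rintro ⟨-, e | ⟨i, t, t', sg, e⟩⟩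
        · exact hn e
        · exact hm Z hmZ i t t' sg e)
    have := hit_card (k := k) (S := S) (fun i a => a.1 ∈ (P i).support) ?_ ?_
    · omega
    · intro i
      obtain ⟨q, hq⟩ := contract hb hx hy hs (u := ⟨u, hu⟩) (w := ⟨w, hw⟩) (P i) fun d h3 h4 =>
        ⟨Or.inr (Or.inl ⟨d.toProd, ⟨h4, i, d, h3, rfl⟩, rfl⟩),
          Or.inr (Or.inr ⟨d.toProd, ⟨h4, i, d, h3, rfl⟩, rfl⟩)⟩
      obtain ⟨a, a1, a2⟩ := hp q fun e => (hP i).2 (hq _ e)
      exact ⟨a, a2, hq a a1⟩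
    · intro i j a ha h3 h4
      by_contra hij
      rcases hd i j hij _ h3 h4 with e | e
      · exact h1 ((Subtype.ext e : a = ⟨u, hu⟩) ▸ ha)
      · exact h2 ((Subtype.ext e : a = ⟨w, hw⟩) ▸ ha)

end Pool.Agent.Lib.MP_ce5ee5_co
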