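import Pool.Agent.Lib.MP_ce5ee5_co.FpDefs
import Pool.Agent.Lib.MP_ce5ee5_co.Braid

namespace Pool.Agent.Lib.MP_ce5ee5_co

variable {V : Type} {G : SimpleGraph V}

structure Fl (G : SimpleGraph V) (k : ℕ) (u w : V) (D : V → V → Prop) : Prop where
  adj : ∀ a b, D a b → G.Adj a b
  io : ∀ a b, a ≠ w → D b a → ∃ c, D a c
  ui : ∀ a b c, a ≠ w → D b a → D c a → b = c
  nu : ∀ b, ¬ D b u
  nw : ∀ b, ¬ D w b
  cd : {b | D u b}.ncard = k + 1

def Fw {r : ℕ} (s : ℕ → Fin r → V) (lo hi : ℕ) (i : Fin r) (a b : V) : Prop :=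
  ∃ τ, lo ≤ τ ∧ τ < hi ∧ s τ i = a ∧ s (τ + 1) i = b ∧ a ≠ b

def Iv {r : ℕ} (s : ℕ → Fin r → V) (T : ℕ) : Prop :=
  ∀ t t' i j, t ≤ t' → t' ≤ T → s t i = s t' j → i = j ∧ ∀ u, t ≤ u → u ≤ t' → s u i = s t i

section fw
variable {r T lo hi : ℕ} {s : ℕ → Fin r → V} {i : Fin r}

lemma Iv.eq (h : Iv s T) {t t' : ℕ} {i j : Fin r} (ht : t ≤ T) (ht' : t' ≤ T)
    (e : s t i = s t' j) : i = j := by
  rcases le_total t t' with h1 | h1
  · exact (h t t' i j h1 ht' e).1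
  · exact (h t' t j i h1 ht e.symm).1.symm

lemma Iv.mid (h : Iv s T) {t t' u : ℕ} {i j : Fin r} (h1 : t ≤ u) (h2 : u ≤ t') (ht' : t' ≤ T)
    (e : s t j = s t' i) : s u i = s t' i := by
  obtain ⟨rfl, h3⟩ := h t t' j i (h1.trans h2) ht' e
  rw [h3 u h1 h2, e]

lemma fw_out_ex {τ : ℕ} (h1 : lo ≤ τ) (h2 : τ ≤ hi) (h3 : s τ i ≠ s hi i) :
    ∃ b, Fw s lo hi i (s τ i) b := by
  induction hd : hi - τ generalizing τ with
  | zero => exact absurd (by rw [show τ = hi by omega]) h3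
  | succ n ih =>
    by_cases e : s τ i = s (τ + 1) i
    · rw [e] at h3 ⊢
      exact ih (by omega) (by omega) h3 (by omega)
    · exact ⟨_, τ, h1, by omega, rfl, rfl, e⟩

lemma fw_in_ex {τ : ℕ} (h1 : lo ≤ τ) (h2 : τ ≤ hi) (h3 : s τ i ≠ s lo i) :
    ∃ a, Fw s lo hi i a (s τ i) := by
  induction τ with
  | zero => exact absurd (by rw [show lo = 0 by omega]) h3
  | succ n ih =>
    have hn : lo ≤ n := by
      by_contra hc
      exact h3 (by rw [show lo = n + 1 by omega])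
    by_cases e : s n i = s (n + 1) i
    · rw [← e] at h3 ⊢
      exact ih hn (by omega) h3
    · exact ⟨_, n, hn, by omega, rfl, rfl, e⟩

lemma fw_out_uniq (h : Iv s T) (hT : hi ≤ T) {a b c : V} (h1 : Fw s lo hi i a b)
    (h2 : Fw s lo hi i a c) : b = c := by
  obtain ⟨τ, a1, a2, a3, a4, a5⟩ := h1
  obtain ⟨σ, b1, b2, b3, b4, b5⟩ := h2
  rcases lt_trichotomy τ σ with e | e | e
  · have := h.mid (t := τ) (u := τ + 1) (t' := σ) (i := i) (j := i) (by omega) (by omega)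
      (by omega) (a3.trans b3.symm)
    exact absurd (b3.symm.trans (this.symm.trans a4)) a5
  · subst e; exact a4.symm.trans b4
  · have := h.mid (t := σ) (u := σ + 1) (t' := τ) (i := i) (j := i) (by omega) (by omega)
      (by omega) (b3.trans a3.symm)
    exact absurd (a3.symm.trans (this.symm.trans b4)) b5

lemma fw_in_uniq (h : Iv s T) (hT : hi ≤ T) {a b c : V} (h1 : Fw s lo hi i b a)
    (h2 : Fw s lo hi i c a) : b = c := by
  obtain ⟨τ, a1, a2, a3, a4, a5⟩ := h1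
  obtain ⟨σ, b1, b2, b3, b4, b5⟩ := h2
  rcases lt_trichotomy τ σ with e | e | e
  · have := h.mid (t := τ + 1) (u := σ) (t' := σ + 1) (i := i) (j := i) (by omega) (by omega)
      (by omega) (a4.trans b4.symm)
    exact absurd (b3.symm.trans (this.trans b4)) b5
  · subst e; exact a3.symm.trans b3
  · have := h.mid (t := σ + 1) (u := τ) (t' := τ + 1) (i := i) (j := i) (by omega) (by omega)
      (by omega) (b4.trans a4.symm)
    exact absurd (a3.symm.trans (this.trans a4)) a5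

lemma fw_ne_hi (h : Iv s T) (hT : hi ≤ T) {a b : V} (h1 : Fw s lo hi i a b) : a ≠ s hi i := by
  obtain ⟨τ, a1, a2, a3, a4, a5⟩ := h1
  intro e
  have := h.mid (t := τ) (u := τ + 1) (t' := hi) (i := i) (j := i) (by omega) (by omega) hT
    (a3.trans e)
  exact a5 (e.trans (this.symm.trans a4))

lemma fw_ne_lo (h : Iv s T) (hT : hi ≤ T) {a b : V} (h1 : Fw s lo hi i a b) : b ≠ s lo i := by
  obtain ⟨τ, a1, a2, a3, a4, a5⟩ := h1
  intro e
  have := h.mid (t := lo) (u := τ) (t' := τ + 1) (i := i) (j := i) (by omega) (by omega)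
    (by omega) (e.symm.trans a4.symm)
  exact a5 (a3.symm.trans (this.trans a4))

lemma fw_moves (h : Iv s T) (hT : hi ≤ T) {a b : V} (h1 : Fw s lo hi i a b) :
    s lo i ≠ s hi i := by
  intro e
  have h2 := fw_ne_hi h hT h1
  obtain ⟨τ, a1, a2, a3, -, -⟩ := h1
  exact h2 (a3.symm.trans (h.mid a1 a2.le hT e))

end fw

/-- a braid carries a flow -/
lemma fl_of_braid {k : ℕ} {u w : V} (huw : u ≠ w) (h : IsBraid G (k + 1) u w) :
    ∃ D, Fl G k u w D := by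
  obtain ⟨T, s, sa, sb, sc, sx, sy, -⟩ := h
  have iv : Iv s T := sb
  have ne : ∀ t ≤ T, ∀ i, s t i ≠ u ∧ s t i ≠ w := fun t ht i => (sa _).2 ⟨t, ht, i, rfl⟩
  have f1 : ∀ i a b, Fw s 0 T i a b → ∃ t ≤ T, s t i = a := by
    rintro i a b ⟨τ, -, a2, a3, -⟩; exact ⟨τ, a2.le, a3⟩
  have f2 : ∀ i a b, Fw s 0 T i a b → ∃ t ≤ T, s t i = b := by
    rintro i a b ⟨τ, -, a2, -, a4, -⟩; exact ⟨τ + 1, a2, a4⟩
  refine ⟨fun a b => ∃ i, (a = u ∧ b = s 0 i) ∨ (a = s T i ∧ b = w) ∨ Fw s 0 T i a b,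
    ?_, ?_, ?_, ?_, ?_, ?_⟩
  · rintro a b ⟨i, ⟨rfl, rfl⟩ | ⟨rfl, rfl⟩ | ⟨τ, -, a2, rfl, rfl, a5⟩⟩
    · exact (sx _).2 ⟨i, rfl⟩
    · exact ((sy _).2 ⟨i, rfl⟩).symm
    · exact (sc τ a2 i).resolve_left a5
  · have key : ∀ t ≤ T, ∀ i, ∃ c, ∃ j, (s t i = u ∧ c = s 0 j) ∨ (s t i = s T j ∧ c = w) ∨
        Fw s 0 T j (s t i) c := by
      intro t ht i
      by_cases e : s t i = s T i
      · exact ⟨w, i, Or.inr (Or.inl ⟨e, rfl⟩)⟩
      · obtain ⟨b, hb⟩ := fw_out_ex (lo := 0) (Nat.zero_le _) ht e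
        exact ⟨b, i, Or.inr (Or.inr hb)⟩
    rintro a b haw ⟨i, ⟨-, rfl⟩ | ⟨-, rfl⟩ | h⟩
    · exact key 0 (Nat.zero_le _) i
    · exact absurd rfl haw
    · obtain ⟨t, ht, rfl⟩ := f2 _ _ _ h
      exact key t ht i
  · rintro a b c haw ⟨i, ⟨rfl, h1⟩ | ⟨-, rfl⟩ | h1⟩ ⟨j, ⟨rfl, h2⟩ | ⟨-, h2⟩ | h2⟩
    · rfl
    · exact absurd h2 haw
    · obtain ⟨t, ht, e⟩ := f2 _ _ _ h2
      obtain rfl := iv.eq ht (Nat.zero_le _) (e.trans h1)
      exact absurd h1 (fw_ne_lo iv le_rfl h2)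
    · exact absurd rfl haw
    · exact absurd rfl haw
    · exact absurd rfl haw
    · obtain ⟨t, ht, e⟩ := f2 _ _ _ h1
      obtain rfl := iv.eq ht (Nat.zero_le _) (e.trans h2)
      exact absurd h2 (fw_ne_lo iv le_rfl h1)
    · exact absurd h2 haw
    · obtain ⟨t, ht, e⟩ := f2 _ _ _ h1
      obtain ⟨t', ht', e'⟩ := f2 _ _ _ h2
      obtain rfl := iv.eq ht ht' (e.trans e'.symm)
      exact fw_in_uniq iv le_rfl h1 h2
  · rintro b ⟨i, ⟨-, h⟩ | ⟨-, h⟩ | h⟩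
    · exact (ne 0 (Nat.zero_le _) i).1 h.symm
    · exact huw h
    · obtain ⟨t, ht, e⟩ := f2 _ _ _ h
      exact (ne t ht i).1 e
  · rintro b ⟨i, ⟨h, -⟩ | ⟨h, -⟩ | h⟩
    · exact huw h.symm
    · exact (ne T le_rfl i).2 h.symm
    · obtain ⟨t, ht, e⟩ := f1 _ _ _ h
      exact (ne t ht i).2 e
  · have : {b | ∃ i, (u = u ∧ b = s 0 i) ∨ (u = s T i ∧ b = w) ∨ Fw s 0 T i u b} =
        Set.range (s 0) := by
      ext b
      constructor
      · rintro ⟨i, ⟨-, h⟩ | ⟨h, -⟩ | h⟩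
        · exact ⟨i, h.symm⟩
        · exact absurd h.symm (ne T le_rfl i).1
        · obtain ⟨t, ht, e⟩ := f1 _ _ _ h
          exact absurd e (ne t ht i).1
      · rintro ⟨i, rfl⟩
        exact ⟨i, Or.inl ⟨rfl, rfl⟩⟩
    rw [this, Set.ncard_range_of_injective fun i j e => iv.eq (Nat.zero_le _) (Nat.zero_le _) e]
    simp

/-- a flow of an induced subgraph is a flow of the graph -/
lemma Fl.map {k : ℕ} {A : Set V} {u w : A} {D : A → A → Prop} (h : Fl (G.induce A) k u w D) :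
    ∃ D', Fl G k u w D' ∧ ∀ a b, D' a b → a ∈ A ∧ b ∈ A := by
  refine ⟨fun a b => ∃ ha hb, D ⟨a, ha⟩ ⟨b, hb⟩, ⟨?_, ?_, ?_, ?_, ?_, ?_⟩, ?_⟩
  · rintro a b ⟨ha, hb, hd⟩; exact h.adj _ _ hd
  · rintro a b haw ⟨hb, ha, hd⟩
    obtain ⟨c, hc⟩ := h.io ⟨a, ha⟩ _ (fun e => haw (congrArg Subtype.val e)) hd
    exact ⟨c, ha, c.2, hc⟩
  · rintro a b c haw ⟨hb, ha, hd⟩ ⟨hc, ha', hd'⟩
    exact congrArg Subtype.val (h.ui ⟨a, ha⟩ _ _ (fun e => haw (congrArg Subtype.val e)) hd hd')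
  · rintro b ⟨hb, ha, hd⟩; exact h.nu _ hd
  · rintro b ⟨ha, hb, hd⟩; exact h.nw _ hd
  · rw [← h.cd, ← Set.ncard_image_of_injective _ Subtype.val_injective]
    congr 1
    ext b
    constructor
    · rintro ⟨ha, hb, hd⟩; exact ⟨⟨b, hb⟩, hd, rfl⟩
    · rintro ⟨c, hc, rfl⟩; exact ⟨u.2, c.2, hc⟩
  · rintro a b ⟨ha, hb, -⟩; exact ⟨ha, hb⟩

/-- Menger, flow form -/
lemma menger_fl (k n : ℕ) : ∀ (V : Type) [Finite V] (G : SimpleGraph V) (u w : V),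
    Nat.card V = n → u ≠ w → ¬ G.Adj u w → ¬ SepLE G k u w → ∃ D, Fl G k u w D := by
  induction n using Nat.strong_induction_on with
  | _ n ih =>
  intro V _ G u w hn huw hna h
  classical
  have := Fintype.ofFinite V
  by_cases hc : ∀ v, ∀ (hu : v ≠ u) (hw : v ≠ w),
      SepLE (G.induce {v}ᶜ) k ⟨u, hu.symm⟩ ⟨w, hw.symm⟩
  · refine fl_of_braid huw (braid_of_critical huw hna h fun v hu hw => ?_)
    obtain ⟨S, hS, hu', hw', hp⟩ := hc v hu hw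
    refine ⟨insert v (S.map (Function.Embedding.subtype _)),
      (Finset.card_insert_le _ _).trans (by simpa using hS), by simp, ?_, ?_, fun p => ?_⟩
    · simp [hu.symm, hu']
    · simp [hw.symm, hw']
    by_cases hv : v ∈ p.support
    · exact ⟨v, hv, by simp⟩
    obtain ⟨a, ha, haS⟩ := hp (p.induce {v}ᶜ fun a ha (h : a = v) => hv (h ▸ ha))
    refine ⟨a, ?_, Finset.mem_insert_of_mem (Finset.mem_map_of_mem _ haS)⟩
    rw [SimpleGraph.Walk.support_induce] at ha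
    simpa using ha
  · push Not at hc
    obtain ⟨v, hu, hw, hs⟩ := hc
    have hlt : Nat.card ({v}ᶜ : Set V) < n := by
      rw [← hn]
      exact Finite.card_subtype_lt (x := v) (by simp)
    obtain ⟨D, hD⟩ := ih _ hlt _ (G.induce {v}ᶜ) ⟨u, hu.symm⟩ ⟨w, hw.symm⟩ rfl
      (by simpa using huw) (by simpa using hna) hs
    obtain ⟨D', hD', -⟩ := hD.map
    exact ⟨D', hD'⟩

end Pool.Agent.Lib.MP_ce5ee5_co
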