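import Pool.Agent.Lib.MP_ce5ee5_co.FpPump

namespace Pool.Agent.Lib.MP_ce5ee5_co

variable {V : Type} {G : SimpleGraph V} {k r T : ℕ} {x y u w v : V} {D : V → V → Prop}
  {s : ℕ → Fin r → V}

def XS (T : ℕ) (s : ℕ → Fin r → V) (D : V → V → Prop) : Set (V × V) :=
  {e | Cross T s e.1 e.2 ∧ D e.1 e.2}

lemma fw_not_cross (iv : Iv s T) {t t' : ℕ} (hT : t' ≤ T) {i : Fin r} {a b : V}
    (hf : Fw s t t' i a b) : ¬ Cross T s a b ∧ ¬ Cross T s b a := by
  obtain ⟨⟨τ, -, a2, a3⟩, σ, -, b2, b3⟩ := fw_on hf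
  constructor
  · rintro ⟨t1, h1, t2, h2, j, l, hjl, e1, e2⟩
    exact hjl ((iv.eq h1 (a2.trans hT) (e1.trans a3.symm)).trans
      (iv.eq h2 (b2.trans hT) (e2.trans b3.symm)).symm)
  · rintro ⟨t1, h1, t2, h2, j, l, hjl, e1, e2⟩
    exact hjl ((iv.eq h1 (b2.trans hT) (e1.trans b3.symm)).trans
      (iv.eq h2 (a2.trans hT) (e2.trans a3.symm)).symm)

lemma stat (h : Braid G r x y T s) {t t' : ℕ} (hT : t' ≤ T) {z : V}
    (h1 : InR x s t z ↔ InR x s t' z) (h2 : (∃ i, s t i = z) ↔ ∃ i, s t' i = z) :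
    ∀ i τ, t ≤ τ → τ ≤ t' → s τ i = z → s t i = s t' i := by
  rintro i τ a1 a2 rfl
  have e := h.now a1 (a2.trans hT) (h1.2 (Or.inr ⟨τ, a2, i, rfl⟩))
  obtain ⟨j, hj⟩ := h2.1 ⟨i, e⟩
  obtain rfl := h.iv.eq hT (a2.trans hT) hj
  exact e.trans hj.symm

lemma win_card [Finite V] (s : ℕ → Fin r → V) (t : ℕ) :
    ((Set.range (s t) ∪ Set.range (s (t + 1))) ×ˢ
      (Set.range (s t) ∪ Set.range (s (t + 1)))).ncard ≤ 4 * r ^ 2 := by
  have h1 : ∀ t, (Set.range (s t)).ncard ≤ r := fun t => by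
    rw [← Set.image_univ]
    exact (Set.ncard_image_le (Set.toFinite _)).trans (by simp)
  have h2 := (Set.ncard_union_le (Set.range (s t)) (Set.range (s (t + 1)))).trans
    (Nat.add_le_add (h1 t) (h1 (t + 1)))
  rw [Set.ncard_prod]
  calc _ ≤ (r + r) * (r + r) := Nat.mul_le_mul h2 h2
    _ = 4 * r ^ 2 := by ring

lemma pump [Finite V] (h : Braid G r x y T s) (n : ℕ) : ∀ D, Fl G k u w D →
    (∀ a b, D a b → a ≠ v ∧ b ≠ v) → (XS T s D).ncard = n →
    ∃ D, Fl G k u w D ∧ (∀ a b, D a b → a ≠ v ∧ b ≠ v) ∧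
      (XS T s D).ncard ≤ 4 * r ^ 2 * (4 ^ r * 64 * (k + 2)) := by
  induction n using Nat.strong_induction_on with
  | _ n ih =>
  intro D hD hv hn
  classical
  let U : ℕ → Set V := fun t => {b | D u b ∧ Past x s t u b}
  have hU : ∀ t, (U t).ncard < k + 2 := fun t => by
    have : (U t).ncard ≤ {b | D u b}.ncard :=
      Set.ncard_le_ncard (fun b hb => hb.1) (Set.toFinite _)
    rw [hD.cd] at this
    omega
  let st : ℕ → V → Prop × Prop := fun t z => (InR x s t z, ∃ i, s t i = z)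
  let e : ℕ → (Fin r → Prop × Prop) × ((Prop × Prop) × (Prop × Prop) × (Prop × Prop)) ×
      Fin (k + 2) := fun t =>
    (fun i => (PIn D x s t i, POut D x s t i), (st t u, st t w, st t v), ⟨_, hU t⟩)
  let C : ℕ → Set (V × V) := fun t => {d ∈ XS T s D | Past x s t d.1 d.2}
  by_cases hc : ∀ t t', t < t' → t' ≤ T → e t = e t' → C t' ⊆ C t
  · refine ⟨D, hD, hv, ?_⟩
    have hT : XS T s D = C T := by
      ext d
      refine ⟨fun hd => ⟨hd, ?_⟩, fun hd => hd.1⟩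
      obtain ⟨⟨t1, h1, t2, h2, i, j, -, e1, e2⟩, -⟩ := hd
      exact ⟨Or.inr ⟨t1, h1, i, e1⟩, Or.inr ⟨t2, h2, j, e2⟩⟩
    have nx : ∀ d ∈ XS T s D, d.1 ≠ x ∧ d.2 ≠ x := by
      rintro d ⟨⟨t1, h1, t2, h2, i, j, -, e1, e2⟩, -⟩
      exact ⟨e1 ▸ (h.ne h1 i).1, e2 ▸ (h.ne h2 j).1⟩
    rw [hT]
    refine (count_le e (fun t => (C t).ncard) T (4 * r ^ 2) ?_ ?_ ?_ ?_).trans (le_of_eq ?_)
    · refine (Set.ncard_le_ncard ?_ (Set.toFinite _)).trans (win_card s 0)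
      rintro d ⟨hd, p1, p2⟩
      obtain ⟨τ, a1, i, a2⟩ := p1.resolve_left (nx d hd).1
      obtain ⟨σ, b1, j, b2⟩ := p2.resolve_left (nx d hd).2
      obtain rfl : τ = 0 := by omega
      obtain rfl : σ = 0 := by omega
      exact ⟨Or.inl ⟨i, a2⟩, Or.inl ⟨j, b2⟩⟩
    · intro t ht
      refine le_trans ?_ (Nat.add_le_add_left (win_card s t) _)
      refine (Set.ncard_le_ncard ?_ (Set.toFinite _)).trans (Set.ncard_union_le _ _)
      rintro d ⟨hd, p1, p2⟩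
      by_cases q : Past x s t d.1 d.2
      · exact Or.inl ⟨hd, q⟩
      have new : ∀ a, a ≠ x → InR x s (t + 1) a → ¬ InR x s t a → a ∈ Set.range (s (t + 1)) := by
        intro a hax h1 h2
        obtain ⟨τ, a1, i, a2⟩ := h1.resolve_left hax
        by_cases e : τ = t + 1
        · exact ⟨i, e ▸ a2⟩
        · exact absurd (Or.inr ⟨τ, by omega, i, a2⟩) h2
      have adj := hD.adj _ _ hd.2
      refine Or.inr ⟨?_, ?_⟩
      · by_cases q1 : InR x s t d.1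
        · exact Or.inl (h.nbr ht.le adj q1 fun q2 => q ⟨q1, q2⟩)
        · exact Or.inr (new _ (nx d hd).1 p1 q1)
      · by_cases q2 : InR x s t d.2
        · exact Or.inl (h.nbr ht.le adj.symm q2 fun q1 => q ⟨q1, q2⟩)
        · exact Or.inr (new _ (nx d hd).2 p2 q2)
    · intro t t' h1 _
      exact Set.ncard_le_ncard (fun d hd => ⟨hd.1, hd.2.mono h1⟩) (Set.toFinite _)
    · intro t t' h1 h2 h3
      exact Set.ncard_le_ncard (hc t t' h1 h2 h3) (Set.toFinite _)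
    · simp [Fintype.card_prod, Fintype.card_pi, mul_assoc]
  · push Not at hc
    obtain ⟨t, t', htt, hT, he, hsub⟩ := hc
    obtain ⟨d, hd1, hd2⟩ := Set.not_subset.1 hsub
    simp only [e, st, Prod.mk.injEq, funext_iff, eq_iff_iff, Fin.mk.injEq] at he
    obtain ⟨he1, ⟨⟨u1, u2⟩, ⟨w1, w2⟩, v1, v2⟩, he3⟩ := he
    have hUU : U t = U t' := Set.eq_of_subset_of_ncard_le
      (fun b hb => ⟨hb.1, hb.2.mono htt.le⟩) he3.ge (Set.toFinite _)
    have hF := rep_fl h hD htt.le hT (fun i => (he1 i).1) (fun i => (he1 i).2)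
      (stat h hT u1 u2) (stat h hT w1 w2)
      (fun b hb hp => ((Set.ext_iff.1 hUU b).2 ⟨hb, hp⟩).2)
    refine ih _ ?_ _ hF ?_ rfl
    · rw [← hn]
      refine Set.ncard_lt_ncard ⟨?_, fun hs => ?_⟩ (Set.toFinite _)
      · rintro d ⟨hx, ⟨hd, -⟩ | ⟨i, ⟨-, -, hf⟩ | ⟨-, -, hf⟩⟩⟩
        · exact ⟨hx, hd⟩
        · exact absurd hx (fw_not_cross h.iv hT hf).1
        · exact absurd hx (fw_not_cross h.iv hT hf).2
      · obtain ⟨hx, ⟨-, hp | hp⟩ | ⟨i, ⟨-, -, hf⟩ | ⟨-, -, hf⟩⟩⟩ := hs hd1.1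
        · exact hd2 ⟨hd1.1, hp⟩
        · exact hp hd1.2
        · exact absurd hx (fw_not_cross h.iv hT hf).1
        · exact absurd hx (fw_not_cross h.iv hT hf).2
    · rintro a b (⟨hd, -⟩ | ⟨i, ⟨-, -, hf⟩ | ⟨-, -, hf⟩⟩)
      · exact hv _ _ hd
      · exact rep_avoid h hT (stat h hT v1 v2) hf
      · exact (rep_avoid h hT (stat h hT v1 v2) hf).symm

theorem inF_patterns [Finite V] (k : ℕ) (F : SimpleGraph V) :
    InF k F ↔ ∃ x y T s, x ≠ y ∧ Braid F (k + 1) x y T s ∧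
      ¬ Shortcut F k (4 ^ (k + 5) * (k + 2) ^ 3) T s := by
  classical
  have := Fintype.ofFinite V
  constructor
  · rintro ⟨h1, h2⟩
    simp only [InG, not_forall] at h1
    obtain ⟨x, y, hxy, hn, h⟩ := h1
    have hb : IsBraid F (k + 1) x y := by
      refine braid_of_critical hxy hn h fun v hu hw => ?_
      obtain ⟨S, hS, hu', hw', hp⟩ := h2 {v}ᶜ (by simp) ⟨x, hu.symm⟩ ⟨y, hw.symm⟩
        (by simpa using hxy) (by simpa using hn)
      refine ⟨insert v (S.map (Function.Embedding.subtype _)),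
        (Finset.card_insert_le _ _).trans (by simpa using hS), by simp, ?_, ?_, fun p => ?_⟩
      · simp [hu.symm, hu']
      · simp [hw.symm, hw']
      by_cases hv : v ∈ p.support
      · exact ⟨v, hv, by simp⟩
      obtain ⟨a, ha, haS⟩ := hp (p.induce {v}ᶜ fun a ha (h : a = v) => hv (h ▸ ha))
      refine ⟨a, ?_, Finset.mem_insert_of_mem (Finset.mem_map_of_mem _ haS)⟩
      rw [SimpleGraph.Walk.support_induce] at ha
      simpa using ha
    obtain ⟨T, s, hb⟩ := hb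
    refine ⟨x, y, T, s, hxy, hb, ?_⟩
    rintro ⟨u, w, v, huw, hn', P, hP, hd, -⟩
    have hu : u ≠ v := fun e => (hP 0).2 (e ▸ (P 0).start_mem_support)
    have hw : w ≠ v := fun e => (hP 0).2 (e ▸ (P 0).end_mem_support)
    obtain ⟨S, hS, hu', hw', hp⟩ := h2 {v}ᶜ (by simp) ⟨u, hu⟩ ⟨w, hw⟩
      (by simpa using huw) (by simpa using hn')
    have : ∀ i, ∃ a ∈ S, a.1 ∈ (P i).support := by
      intro i
      obtain ⟨a, ha, haS⟩ := hp ((P i).induce {v}ᶜ fun a ha (h : a = v) => (hP i).2 (h ▸ ha))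
      refine ⟨a, haS, ?_⟩
      rw [SimpleGraph.Walk.support_induce] at ha
      simpa using ha
    choose f f1 f2 using this
    have inj : Function.Injective f := by
      intro i j e
      by_contra hij
      rcases hd i j hij _ (f2 i) (e ▸ f2 j) with q | q
      · exact hu' ((Subtype.ext q : f i = ⟨u, hu⟩) ▸ f1 i)
      · exact hw' ((Subtype.ext q : f i = ⟨w, hw⟩) ▸ f1 i)
    have := Finset.card_le_card_of_injOn (s := Finset.univ) (t := S) f (fun i _ => f1 i)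
      inj.injOn
    simp at this
    omega
  · rintro ⟨x, y, T, s, hxy, hb, hs⟩
    have hn : ¬ F.Adj x y := fun e => by
      obtain ⟨i, hi⟩ := (hb.2.2.2.1 y).1 e
      exact (hb.ne (Nat.zero_le _) i).2 hi
    refine ⟨fun h => IsBraid.not_sepLE ⟨T, s, hb⟩ (h x y hxy hn), fun A hA u w huw hn' => ?_⟩
    by_contra hc
    obtain ⟨D0, hD0⟩ := menger_fl k _ _ (F.induce A) u w rfl huw hn' hc
    obtain ⟨D1, hD1, hA1⟩ := hD0.map
    obtain ⟨v, hv⟩ := (Set.ne_univ_iff_exists_notMem A).1 hA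
    obtain ⟨D, hD, hDv, hcard⟩ := pump (v := v) hb _ D1 hD1
      (fun a b h => ⟨fun e => hv (e ▸ (hA1 a b h).1), fun e => hv (e ▸ (hA1 a b h).2)⟩) rfl
    obtain ⟨P, p1, p2, p3, p4⟩ := hD.paths
    refine hs ⟨u, w, v, fun e => huw (Subtype.ext e), hn', P, fun i => ⟨p1 i, fun h => ?_⟩, p3, ?_⟩
    · rcases p2 i v h with ⟨b, hb⟩ | ⟨b, hb⟩
      · exact (hDv _ _ hb).1 rfl
      · exact (hDv _ _ hb).2 rfl
    · refine (Set.ncard_le_ncard (t := XS T s D) ?_ (Set.toFinite _)).trans (hcard.trans ?_)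
      · rintro e ⟨hx, i, d, hd, rfl⟩
        exact ⟨hx, p4 i d hd⟩
      · calc 4 * (k + 1) ^ 2 * (4 ^ (k + 1) * 64 * (k + 2))
            ≤ 4 * (k + 2) ^ 2 * (4 ^ (k + 1) * 64 * (k + 2)) := by gcongr; omega
          _ = 4 ^ (k + 5) * (k + 2) ^ 3 := by ring

end Pool.Agent.Lib.MP_ce5ee5_co
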