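import Pool.Agent.Lib.MP_ce5ee5_co.FpFlow

namespace Pool.Agent.Lib.MP_ce5ee5_co

open Relation

variable {V : Type} {G : SimpleGraph V} {k : ℕ} {u w : V} {D : V → V → Prop}

lemma Fl.reach_ne (_h : Fl G k u w D) {z a : V} (hz : D u z) (ha : ReflTransGen D z a) :
    ∃ b, D b a := by
  rcases ha.cases_tail with rfl | ⟨c, -, hc⟩
  · exact ⟨u, hz⟩
  · exact ⟨c, hc⟩

lemma Fl.reach_w [Finite V] (h : Fl G k u w D) {z : V} (hz : D u z) : ReflTransGen D z w := by
  by_contra hw
  let A := {a // ReflTransGen D z a}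
  have hne : ∀ a : A, a.1 ≠ w := fun a e => hw (e ▸ a.2)
  have hout : ∀ a : A, ∃ c : A, D a.1 c.1 := by
    intro a
    obtain ⟨b, hb⟩ := h.reach_ne hz a.2
    obtain ⟨c, hc⟩ := h.io _ _ (hne a) hb
    exact ⟨⟨c, a.2.tail hc⟩, hc⟩
  choose f hf using hout
  have inj : Function.Injective f := fun a b e =>
    Subtype.ext (h.ui _ _ _ (hne (f a)) (hf a) (e ▸ hf b))
  obtain ⟨a, ha⟩ := Finite.surjective_of_injective inj ⟨z, ReflTransGen.refl⟩
  have h1 : D a.1 z := by have := hf a; rwa [ha] at this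
  have h2 : a.1 = u := h.ui z _ _ (hne ⟨z, ReflTransGen.refl⟩) h1 hz
  obtain ⟨b, hb⟩ := h.reach_ne hz a.2
  exact h.nu b (h2 ▸ hb)

lemma Fl.det (h : Fl G k u w D) {z z' a : V} (hz : D u z) (hz' : D u z')
    (ha : ReflTransGen D z a) (ha' : ReflTransGen D z' a) (haw : a ≠ w) : z = z' := by
  have nu : ∀ {z c}, D u z → ReflTransGen D z c → c ≠ u := by
    intro z c hz hc e
    obtain ⟨b, hb⟩ := h.reach_ne hz hc
    exact h.nu b (e ▸ hb)
  induction ha with
  | refl =>
    rcases ha'.cases_tail with e | ⟨c, hc1, hc⟩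
    · exact e
    · exact absurd (h.ui _ _ _ haw hc hz) (nu hz' hc1)
  | tail h1 h2 ih =>
    rcases ha'.cases_tail with e | ⟨c, hc1, hc⟩
    · subst e
      exact absurd (h.ui _ _ _ haw h2 hz') (nu hz h1)
    · obtain rfl := h.ui _ _ _ haw h2 hc
      exact ih hc1 fun e => h.nw _ (e ▸ hc)

lemma Fl.walk (h : Fl G k u w D) {z a : V} (ha : ReflTransGen D z a) :
    ∃ p : G.Walk z a, (∀ d ∈ p.darts, D d.fst d.snd) ∧ ∀ b ∈ p.support, ReflTransGen D z b := by
  induction ha using ReflTransGen.head_induction_on with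
  | refl => exact ⟨.nil, by simp, by simp [ReflTransGen.refl]⟩
  | head h1 _ ih =>
    obtain ⟨p, hp1, hp2⟩ := ih
    refine ⟨.cons (h.adj _ _ h1) p, ?_, ?_⟩
    · intro d hd
      rw [SimpleGraph.Walk.darts_cons, List.mem_cons] at hd
      rcases hd with rfl | hd
      · exact h1
      · exact hp1 d hd
    · intro b hb
      rw [SimpleGraph.Walk.support_cons, List.mem_cons] at hb
      rcases hb with rfl | hb
      · exact ReflTransGen.refl
      · exact ReflTransGen.head h1 (hp2 b hb)

lemma Fl.paths [Finite V] (h : Fl G k u w D) :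
    ∃ P : Fin (k + 1) → G.Walk u w, (∀ i, (P i).IsPath) ∧
      (∀ i, ∀ a ∈ (P i).support, (∃ b, D a b) ∨ ∃ b, D b a) ∧
      (∀ i j, i ≠ j → ∀ a ∈ (P i).support, a ∈ (P j).support → a = u ∨ a = w) ∧
      ∀ i, ∀ d ∈ (P i).darts, D d.fst d.snd := by
  classical
  have hc : Nat.card {b | D u b} = k + 1 := h.cd
  let z : Fin (k + 1) → {b | D u b} := (Finite.equivFinOfCardEq hc).symm
  have zi : Function.Injective z := (Finite.equivFinOfCardEq hc).symm.injective
  have hz : ∀ i, D u (z i).1 := fun i => (z i).2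
  choose p hp1 hp2 using fun i => h.walk (h.reach_w (hz i))
  have sup : ∀ i, ∀ a ∈ (SimpleGraph.Walk.cons (h.adj _ _ (hz i)) (p i)).bypass.support,
      a = u ∨ ReflTransGen D (z i).1 a := by
    intro i a ha
    have := SimpleGraph.Walk.support_bypass_subset_support _ ha
    rw [SimpleGraph.Walk.support_cons, List.mem_cons] at this
    exact this.imp id (hp2 i a)
  refine ⟨fun i => (SimpleGraph.Walk.cons (h.adj _ _ (hz i)) (p i)).bypass,
    fun i => SimpleGraph.Walk.bypass_isPath _, ?_, ?_, ?_⟩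
  · intro i a ha
    rcases sup i a ha with rfl | h1
    · exact Or.inl ⟨_, hz i⟩
    · exact Or.inr (h.reach_ne (hz i) h1)
  · intro i j hij a ha ha'
    by_contra hc
    push Not at hc
    exact hij (zi (Subtype.ext (h.det (hz i) (hz j) ((sup i a ha).resolve_left hc.1)
      ((sup j a ha').resolve_left hc.1) hc.2)))
  · intro i d hd
    have := SimpleGraph.Walk.darts_bypass_subset_darts _ hd
    rw [SimpleGraph.Walk.darts_cons, List.mem_cons] at this
    rcases this with rfl | hd
    · exact hz i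
    · exact hp1 i d hd

lemma count_le {E : Type} [Fintype E] (e : ℕ → E) (c : ℕ → ℕ) (T B : ℕ) (h0 : c 0 ≤ B)
    (hs : ∀ t < T, c (t + 1) ≤ c t + B) (hm : ∀ t t', t ≤ t' → t' ≤ T → c t ≤ c t')
    (he : ∀ t t', t < t' → t' ≤ T → e t = e t' → c t' ≤ c t) : c T ≤ B * Fintype.card E := by
  classical
  have key : ∀ t ≤ T, c t ≤ B * ((Finset.range (t + 1)).image e).card := by
    intro t ht
    induction t with
    | zero => simpa using h0
    | succ n ih =>
      have ih := ih (by omega)
      rw [Finset.range_add_one, Finset.image_insert]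
      by_cases hn : e (n + 1) ∈ (Finset.range (n + 1)).image e
      · rw [Finset.insert_eq_of_mem hn]
        obtain ⟨m, hm1, hm2⟩ := Finset.mem_image.1 hn
        rw [Finset.mem_range] at hm1
        have := he m (n + 1) hm1 ht hm2
        have := hm m n (by omega) (by omega)
        omega
      · rw [Finset.card_insert_of_notMem hn, Nat.mul_succ]
        have := hs n (by omega)
        omega
  exact (key T le_rfl).trans (Nat.mul_le_mul_left _ (Finset.card_le_univ _))

end Pool.Agent.Lib.MP_ce5ee5_co
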