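import Pool.Agent.Lib.MP_ce5ee5_co.FpPath

namespace Pool.Agent.Lib.MP_ce5ee5_co

variable {V : Type} {G : SimpleGraph V} {k r T : ℕ} {x y u w v : V} {D : V → V → Prop}
  {s : ℕ → Fin r → V}

def InR (x : V) (s : ℕ → Fin r → V) (t : ℕ) (a : V) : Prop := a = x ∨ ∃ τ ≤ t, ∃ i, s τ i = a

def Past (x : V) (s : ℕ → Fin r → V) (t : ℕ) (a b : V) : Prop := InR x s t a ∧ InR x s t b

lemma InR.mono {t t' : ℕ} {a : V} (h : InR x s t a) (ht : t ≤ t') : InR x s t' a := by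
  rcases h with h | ⟨τ, h1, h2⟩
  · exact Or.inl h
  · exact Or.inr ⟨τ, h1.trans ht, h2⟩

lemma Past.mono {t t' : ℕ} {a b : V} (h : Past x s t a b) (ht : t ≤ t') : Past x s t' a b :=
  ⟨h.1.mono ht, h.2.mono ht⟩

lemma Braid.iv (h : Braid G r x y T s) : Iv s T := h.2.1

lemma Braid.ne (h : Braid G r x y T s) {t : ℕ} (ht : t ≤ T) (i : Fin r) :
    s t i ≠ x ∧ s t i ≠ y := (h.1 _).2 ⟨t, ht, i, rfl⟩

/-- edges leave the past only through the current transversal -/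
lemma Braid.nbr (h : Braid G r x y T s) {t : ℕ} (ht : t ≤ T) {a b : V} (hab : G.Adj a b)
    (ha : InR x s t a) (hb : ¬ InR x s t b) : ∃ i, s t i = a := by
  rcases ha with rfl | ⟨τ, h1, i, rfl⟩
  · obtain ⟨i, hi⟩ := (h.2.2.2.1 b).1 hab
    exact absurd (Or.inr ⟨0, Nat.zero_le _, i, hi⟩) hb
  by_cases hy : b = y
  · subst hy
    obtain ⟨j, hj⟩ := (h.2.2.2.2.1 _).1 hab.symm
    exact ⟨j, (h.iv.mid h1 ht le_rfl hj.symm).trans hj⟩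
  obtain ⟨t1, a1, t2, a2, i1, j, e1, e2, -, a4⟩ := h.2.2.2.2.2 _ _ hab
    (h.ne (h1.trans ht) i).1 (h.ne (h1.trans ht) i).2 (fun e => hb (Or.inl e)) hy
  by_cases hc : t ≤ t1
  · exact ⟨i1, (h.iv.mid h1 hc a1 e1.symm).trans e1⟩
  · exact absurd (Or.inr ⟨t2, by omega, j, e2⟩) hb

lemma Braid.now (h : Braid G r x y T s) {t τ : ℕ} {i : Fin r} (h1 : t ≤ τ) (h2 : τ ≤ T)
    (ha : InR x s t (s τ i)) : s t i = s τ i := by
  rcases ha with e | ⟨σ, h3, j, e⟩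
  · exact absurd e (h.ne h2 i).1
  · exact h.iv.mid h3 h1 h2 e

def PIn (D : V → V → Prop) (x : V) (s : ℕ → Fin r → V) (t : ℕ) (i : Fin r) : Prop :=
  ∃ c, D c (s t i) ∧ Past x s t c (s t i)

def POut (D : V → V → Prop) (x : V) (s : ℕ → Fin r → V) (t : ℕ) (i : Fin r) : Prop :=
  ∃ c, D (s t i) c ∧ Past x s t (s t i) c

def Rep (D : V → V → Prop) (x : V) (s : ℕ → Fin r → V) (t t' : ℕ) (a b : V) : Prop :=
  (D a b ∧ (Past x s t a b ∨ ¬ Past x s t' a b)) ∨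
  ∃ i, (PIn D x s t i ∧ ¬ POut D x s t i ∧ Fw s t t' i a b) ∨
    (POut D x s t i ∧ ¬ PIn D x s t i ∧ Fw s t t' i b a)

lemma fw_on {lo hi : ℕ} {i : Fin r} {a b : V} (h : Fw s lo hi i a b) :
    (∃ τ, lo ≤ τ ∧ τ ≤ hi ∧ s τ i = a) ∧ ∃ τ, lo ≤ τ ∧ τ ≤ hi ∧ s τ i = b := by
  obtain ⟨τ, a1, a2, a3, a4, -⟩ := h
  exact ⟨⟨τ, a1, a2.le, a3⟩, τ + 1, by omega, a2, a4⟩

lemma rep_avoid (h : Braid G r x y T s) {t t' : ℕ} (hT : t' ≤ T) {z : V}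
    (hz : ∀ i τ, t ≤ τ → τ ≤ t' → s τ i = z → s t i = s t' i) {i : Fin r} {a b : V}
    (hf : Fw s t t' i a b) : a ≠ z ∧ b ≠ z := by
  obtain ⟨⟨τ, a1, a2, a3⟩, σ, b1, b2, b3⟩ := fw_on hf
  exact ⟨fun e => fw_moves h.iv hT hf (hz i τ a1 a2 (a3.trans e)),
    fun e => fw_moves h.iv hT hf (hz i σ b1 b2 (b3.trans e))⟩

lemma rep_fl (h : Braid G r x y T s) (hD : Fl G k u w D) {t t' : ℕ} (htt : t ≤ t') (hT : t' ≤ T)
    (hi : ∀ i, PIn D x s t i ↔ PIn D x s t' i) (ho : ∀ i, POut D x s t i ↔ POut D x s t' i)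
    (hu : ∀ i τ, t ≤ τ → τ ≤ t' → s τ i = u → s t i = s t' i)
    (hw : ∀ i τ, t ≤ τ → τ ≤ t' → s τ i = w → s t i = s t' i)
    (hc : ∀ b, D u b → Past x s t' u b → Past x s t u b) :
    Fl G k u w (Rep D x s t t') := by
  have iv := h.iv
  have fadj : ∀ i a b, Fw s t t' i a b → G.Adj a b := by
    rintro i a b ⟨τ, -, a2, rfl, rfl, a5⟩
    exact (h.2.2.1 τ (by omega) i).resolve_left a5
  have mix : ∀ a b c, a ≠ w → D b a → (Past x s t b a ∨ ¬ Past x s t' b a) → ∀ i,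
      ¬ ((PIn D x s t i ∧ ¬ POut D x s t i ∧ Fw s t t' i c a) ∨
        (POut D x s t i ∧ ¬ PIn D x s t i ∧ Fw s t t' i a c)) := by
    rintro a b c haw hd hp i (⟨f1, -, f3⟩ | ⟨-, f2, f3⟩)
    · obtain ⟨-, τ, a1, a2, rfl⟩ := fw_on f3
      have n1 : ¬ InR x s t (s τ i) := fun hr =>
        fw_ne_lo iv hT f3 (h.now a1 (a2.trans hT) hr).symm
      have n2 := hp.resolve_left fun hp => n1 hp.2
      have r2 : InR x s t' (s τ i) := Or.inr ⟨τ, a2, i, rfl⟩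
      obtain ⟨j, hj⟩ := h.nbr hT (hD.adj _ _ hd).symm r2 fun hb => n2 ⟨hb, r2⟩
      obtain rfl := iv.eq hT (a2.trans hT) hj
      obtain ⟨c', hc1, hc2⟩ := (hi j).1 f1
      rw [hj] at hc1 hc2
      obtain rfl := hD.ui _ _ _ haw hc1 hd
      exact n2 hc2
    · obtain ⟨⟨τ, a1, a2, rfl⟩, -⟩ := fw_on f3
      have r2 : InR x s t' (s τ i) := Or.inr ⟨τ, a2, i, rfl⟩
      have r3 : InR x s t' b := by
        by_contra hb
        obtain ⟨j, hj⟩ := h.nbr hT (hD.adj _ _ hd).symm r2 hb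
        obtain rfl := iv.eq hT (a2.trans hT) hj
        exact fw_ne_hi iv hT f3 hj.symm
      have p1 := hp.resolve_right fun hn => hn ⟨r3, r2⟩
      have e := h.now a1 (a2.trans hT) p1.2
      exact f2 ⟨b, e ▸ hd, e ▸ p1⟩
  refine ⟨?_, ?_, ?_, ?_, ?_, ?_⟩
  · rintro a b (⟨hd, -⟩ | ⟨i, ⟨-, -, hf⟩ | ⟨-, -, hf⟩⟩)
    · exact hD.adj _ _ hd
    · exact fadj _ _ _ hf
    · exact (fadj _ _ _ hf).symm
  · rintro a b haw (⟨hd, hp⟩ | ⟨i, ⟨f1, f2, hf⟩ | ⟨f1, f2, hf⟩⟩)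
    · obtain ⟨c, hc⟩ := hD.io _ _ haw hd
      by_cases k1 : Past x s t a c ∨ ¬ Past x s t' a c
      · exact ⟨c, Or.inl ⟨hc, k1⟩⟩
      push Not at k1
      obtain ⟨k1, k2⟩ := k1
      by_cases q : Past x s t b a
      · obtain ⟨i, rfl⟩ := h.nbr (htt.trans hT) (hD.adj _ _ hc) q.2 fun hr => k1 ⟨q.2, hr⟩
        by_cases o : POut D x s t i
        · obtain ⟨c', o1, o2⟩ := o
          exact ⟨c', Or.inl ⟨o1, Or.inl o2⟩⟩
        by_cases e : s t i = s t' i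
        · exact absurd ((ho i).2 ⟨c, e ▸ hc, e ▸ k2⟩) o
        · obtain ⟨c', hc'⟩ := fw_out_ex le_rfl htt e
          exact ⟨c', Or.inr ⟨i, Or.inl ⟨⟨b, hd, q⟩, o, hc'⟩⟩⟩
      · have q2 := hp.resolve_left q
        obtain ⟨i, rfl⟩ := h.nbr hT (hD.adj _ _ hd).symm k2.1 fun hr => q2 ⟨hr, k2.1⟩
        have o : POut D x s t i := (ho i).2 ⟨c, hc, k2⟩
        have n : ¬ PIn D x s t i := fun hn => by
          obtain ⟨c', n1, n2⟩ := (hi i).1 hn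
          obtain rfl := hD.ui _ _ _ haw n1 hd
          exact q2 n2
        by_cases e : s t' i = s t i
        · obtain ⟨c', o1, o2⟩ := o
          exact ⟨c', Or.inl ⟨e ▸ o1, Or.inl (e ▸ o2)⟩⟩
        · obtain ⟨c', hc'⟩ := fw_in_ex htt le_rfl e
          exact ⟨c', Or.inr ⟨i, Or.inr ⟨o, n, hc'⟩⟩⟩
    · obtain ⟨-, τ, a1, a2, rfl⟩ := fw_on hf
      by_cases e : s τ i = s t' i
      · obtain ⟨c', n1, -⟩ := (hi i).1 f1
        obtain ⟨c, hc⟩ := hD.io _ _ (e ▸ haw) n1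
        refine ⟨c, Or.inl ⟨e ▸ hc, Or.inr fun hp => f2 ((ho i).2 ⟨c, hc, e ▸ hp⟩)⟩⟩
      · obtain ⟨c', hc'⟩ := fw_out_ex a1 a2 e
        exact ⟨c', Or.inr ⟨i, Or.inl ⟨f1, f2, hc'⟩⟩⟩
    · obtain ⟨⟨τ, a1, a2, rfl⟩, -⟩ := fw_on hf
      by_cases e : s τ i = s t i
      · obtain ⟨c', o1, o2⟩ := f1
        exact ⟨c', Or.inl ⟨e ▸ o1, Or.inl (e ▸ o2)⟩⟩
      · obtain ⟨c', hc'⟩ := fw_in_ex a1 a2 e
        exact ⟨c', Or.inr ⟨i, Or.inr ⟨f1, f2, hc'⟩⟩⟩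
  · rintro a b c haw (⟨hd, hp⟩ | ⟨i, hi'⟩) (⟨hd', hp'⟩ | ⟨j, hj'⟩)
    · exact hD.ui _ _ _ haw hd hd'
    · exact absurd hj' (mix a b c haw hd hp j)
    · exact absurd hi' (mix a c b haw hd' hp' i)
    · have on : ∀ {i b}, ((PIn D x s t i ∧ ¬ POut D x s t i ∧ Fw s t t' i b a) ∨
          (POut D x s t i ∧ ¬ PIn D x s t i ∧ Fw s t t' i a b)) → ∃ τ ≤ T, s τ i = a := by
        rintro i b (⟨-, -, hf⟩ | ⟨-, -, hf⟩)
        · obtain ⟨-, τ, -, a2, a3⟩ := fw_on hf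
          exact ⟨τ, a2.trans hT, a3⟩
        · obtain ⟨⟨τ, -, a2, a3⟩, -⟩ := fw_on hf
          exact ⟨τ, a2.trans hT, a3⟩
      obtain ⟨τ, a1, a2⟩ := on hi'
      obtain ⟨σ, b1, b2⟩ := on hj'
      obtain rfl := iv.eq a1 b1 (a2.trans b2.symm)
      rcases hi' with ⟨f1, f2, f3⟩ | ⟨f1, f2, f3⟩ <;> rcases hj' with ⟨g1, g2, g3⟩ | ⟨g1, g2, g3⟩
      · exact fw_in_uniq iv hT f3 g3
      · exact absurd f1 g2
      · exact absurd f1 g2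
      · exact fw_out_uniq iv hT f3 g3
  · rintro b (⟨hd, -⟩ | ⟨i, ⟨-, -, hf⟩ | ⟨-, -, hf⟩⟩)
    · exact hD.nu _ hd
    · exact (rep_avoid h hT hu hf).2 rfl
    · exact (rep_avoid h hT hu hf).1 rfl
  · rintro b (⟨hd, -⟩ | ⟨i, ⟨-, -, hf⟩ | ⟨-, -, hf⟩⟩)
    · exact hD.nw _ hd
    · exact (rep_avoid h hT hw hf).1 rfl
    · exact (rep_avoid h hT hw hf).2 rfl
  · rw [← hD.cd]
    congr 1
    ext b
    constructor
    · rintro (⟨hd, -⟩ | ⟨i, ⟨-, -, hf⟩ | ⟨-, -, hf⟩⟩)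
      · exact hd
      · exact absurd rfl (rep_avoid h hT hu hf).1
      · exact absurd rfl (rep_avoid h hT hu hf).2
    · intro hd
      refine Or.inl ⟨hd, ?_⟩
      by_cases hp : Past x s t' u b
      · exact Or.inl (hc b hd hp)
      · exact Or.inr hp

end Pool.Agent.Lib.MP_ce5ee5_co
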