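import Pool.Agent.Lib.MP_ce5ee5_co.FpTestDefs
import Pool.Agent.Lib.MP_ce5ee5_co.Braid

namespace Pool.Agent.Lib.MP_ce5ee5_co

open Sum

variable {V : Type} {G : SimpleGraph V} {k : ℕ}

lemma InF.del (h : InF k G) {u w v : V} (hu : u ≠ v) (hw : w ≠ v) (huw : u ≠ w)
    (hn : ¬ G.Adj u w) : ∃ S : Finset V, S.card ≤ k ∧ u ∉ S ∧ w ∉ S ∧
      ∀ p : G.Walk u w, v ∉ p.support → ∃ a ∈ p.support, a ∈ S := by
  obtain ⟨S, hS, hu', hw', hp⟩ := h.2 {v}ᶜ (by simp) ⟨u, hu⟩ ⟨w, hw⟩
    (by simpa using huw) (by simpa using hn)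
  refine ⟨S.map (Function.Embedding.subtype _), by simpa using hS, by simp [hu, hu'],
    by simp [hw, hw'], fun p hv => ?_⟩
  obtain ⟨a, ha, haS⟩ := hp (p.induce {v}ᶜ fun a ha (h : a = v) => hv (h ▸ ha))
  refine ⟨a, ?_, Finset.mem_map_of_mem _ haS⟩
  rw [SimpleGraph.Walk.support_induce] at ha
  simpa using ha

lemma inF_of_braid [Finite V] {x y : V} (hxy : x ≠ y) (hn : ¬ G.Adj x y)
    (hb : IsBraid G (k + 1) x y)
    (h2 : ∀ u w, u ≠ w → ¬ G.Adj u w → (u = x ∧ w = y) ∨ (u = y ∧ w = x) ∨ SepLE G k u w) :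
    InF k G := by
  classical
  have := Fintype.ofFinite V
  refine ⟨fun h => hb.not_sepLE (h x y hxy hn), fun A hA u w huw hn' => ?_⟩
  have huw' : (u : V) ≠ w := fun h => huw (Subtype.ext h)
  obtain ⟨v, hv⟩ := (Set.ne_univ_iff_exists_notMem A).1 hA
  have cut : v ≠ x → v ≠ y → ∃ S : Finset V, (S.filter (· ∈ A)).card ≤ k ∧ x ∉ S ∧ y ∉ S ∧
      ∀ p : G.Walk x y, ∃ v ∈ p.support, v ∈ S := by
    intro h1 h2
    obtain ⟨S, hS, hvS, h⟩ := hb.cut hxy hn v h1 h2
    refine ⟨S, ?_, h⟩
    have := Finset.card_lt_card (Finset.filter_ssubset.2 ⟨v, hvS, hv⟩ :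
      S.filter (· ∈ A) ⊂ S)
    omega
  obtain ⟨S, hS, hu, hw, hp⟩ : ∃ S : Finset V, (S.filter (· ∈ A)).card ≤ k ∧ u.1 ∉ S ∧ w.1 ∉ S ∧
      ∀ p : G.Walk u w, ∃ v ∈ p.support, v ∈ S := by
    rcases h2 u w huw' hn' with ⟨e1, e2⟩ | ⟨e1, e2⟩ | ⟨S, hS, h⟩
    · have := cut (fun h => hv (h ▸ e1 ▸ u.2)) (fun h => hv (h ▸ e2 ▸ w.2))
      rwa [← e1, ← e2] at this
    · obtain ⟨S, s1, s2, s3, s4⟩ := cut (fun h => hv (h ▸ e2 ▸ w.2)) (fun h => hv (h ▸ e1 ▸ u.2))
      rw [← e1, ← e2] at s4
      refine ⟨S, s1, e1 ▸ s3, e2 ▸ s2, fun p => ?_⟩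
      simpa using s4 p.reverse
    · exact ⟨S, (Finset.card_filter_le _ _).trans hS, h⟩
  refine ⟨S.subtype (· ∈ A), by simpa using hS, by simpa using hu, by simpa using hw, fun p => ?_⟩
  obtain ⟨v, hv, hvS⟩ := hp (p.map (SimpleGraph.Embedding.induce A).toHom)
  obtain ⟨a, ha, rfl⟩ := List.mem_map.1
    ((SimpleGraph.Walk.support_map (SimpleGraph.Embedding.induce A).toHom p) ▸ hv)
  exact ⟨a, ha, by simpa using hvS⟩

lemma SepLE.symm {a b : V} (h : SepLE G k a b) : SepLE G k b a := by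
  obtain ⟨S, h1, h2, h3, h4⟩ := h
  exact ⟨S, h1, h3, h2, fun p => by simpa using h4 p.reverse⟩

lemma sepLE_of_nbr {a b : V} (hab : a ≠ b) (hn : ¬ G.Adj a b) (N : Finset V) (hN : N.card ≤ k)
    (h : ∀ c, G.Adj a c → c ∈ N) : SepLE G k a b := by
  classical
  refine ⟨N.filter (G.Adj a ·), (Finset.card_filter_le _ _).trans hN, by simp, by simp [hn],
    fun p => ?_⟩
  cases p with
  | nil => exact absurd rfl hab
  | cons h1 p => exact ⟨_, by simp, Finset.mem_filter.2 ⟨h _ h1, h1⟩⟩

variable {W : Type} {H : SimpleGraph W} {u w : W} {j : ℕ}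

lemma test_braid [Fintype W] :
    IsBraid (Test H u w j) (2 * Fintype.card W + j + 2 + 1) (inr (inl false)) (inr (inl true)) := by
  classical
  let q : Fin (2 * Fintype.card W + j + 2 + 1) ≃ W ⊕ Fin (j + 3) ⊕ W :=
    Fintype.equivOfCardEq (by simp; ring)
  let σ : ℕ → W ⊕ Fin (j + 3) ⊕ W → W ⊕ Bool ⊕ Fin (j + 3) ⊕ W × Bool := fun t =>
    Sum.elim inl (Sum.elim (fun z => inr (inr (inl z))) fun c => inr (inr (inr (c, t != 0))))
  have ex : ∀ t (P : _ → Prop), (∃ i, P (σ t (q i))) ↔ ∃ i, P (σ t i) := fun t P =>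
    ⟨fun ⟨i, h⟩ => ⟨q i, h⟩, fun ⟨i, h⟩ => ⟨q.symm i, by simpa using h⟩⟩
  have all : ∀ v, v ≠ inr (inl false) → v ≠ inr (inl true) → ∃ t ≤ 1, ∃ i, σ t (q i) = v := by
    rintro (a | e | z | ⟨c, e⟩) h1 h2
    · exact ⟨0, by omega, q.symm (inl a), by simp [σ]⟩
    · cases e <;> simp at h1 h2
    · exact ⟨0, by omega, q.symm (inr (inl z)), by simp [σ]⟩
    · cases e
      · exact ⟨0, by omega, q.symm (inr (inr c)), by simp [σ]⟩
      · exact ⟨1, by omega, q.symm (inr (inr c)), by simp [σ]⟩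
  refine ⟨1, fun t i => σ t (q i), ?_, ?_, ?_, ?_, ?_, ?_⟩
  · intro v
    refine ⟨fun h => all v h.1 h.2, ?_⟩
    rintro ⟨t, -, i, rfl⟩
    beta_reduce
    generalize q i = m
    rcases m with a | z | c <;> simp [σ]
  · intro t t' i i' h1 h2 e
    have : q i = q i' ∧ ∀ m, t ≤ m → m ≤ t' → σ m (q i) = σ t (q i) := by
      revert e
      beta_reduce
      generalize q i = m
      generalize q i' = m'
      rcases m with a | z | c <;> rcases m' with a' | z' | c' <;> simp [σ]
      rintro rfl e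
      refine ⟨rfl, fun m m1 m2 => ?_⟩
      have : t = 0 ↔ t' = 0 := by
        by_cases a : t = 0 <;> by_cases b : t' = 0 <;> simp_all
      have : m = t := by omega
      rw [this]
    exact ⟨q.injective this.1, this.2⟩
  · intro t ht i
    obtain rfl : t = 0 := by omega
    beta_reduce
    generalize q i = m
    rcases m with a | z | c <;> simp [σ, Test]
  · intro v
    rw [ex 0 (· = v)]
    rcases v with a | e | z | ⟨c, e⟩ <;> simp [σ, Test]
  · intro v
    rw [ex 1 (· = v)]
    rcases v with a | e | z | ⟨c, e⟩ <;> simp [σ, Test]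
  · intro a b _ h1 h2 h3 h4
    obtain ⟨t, ht, i, hi⟩ := all a h1 h2
    obtain ⟨t', ht', i', hi'⟩ := all b h3 h4
    exact ⟨t, ht, t', ht', i, i', hi, hi', by omega, by omega⟩

theorem test_iff [Finite W] (huw : u ≠ w) (hn : ¬ H.Adj u w) :
    InF (2 * Nat.card W + j + 2) (Test H u w j) ↔ SepLE H j u w := by
  classical
  have := Fintype.ofFinite W
  rw [Nat.card_eq_fintype_card]
  let C : Finset (W ⊕ Bool ⊕ Fin (j + 3) ⊕ W × Bool) :=
    (Finset.univ : Finset (Bool ⊕ W × Bool)).map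
      ⟨Sum.elim (fun e => inr (inl e)) fun p => inr (inr (inr p)), by
        rintro (a | a) (b | b) <;> simp⟩
  have cC : C.card = 2 * Fintype.card W + 2 := by simp [C]; ring
  have mC : ∀ c, c ∈ C ↔ (∃ e, c = inr (inl e)) ∨ ∃ p, c = inr (inr (inr p)) := by
    rintro (a | e | z | p) <;> simp [C]
  have hn' : ¬ (Test H u w j).Adj (inl u) (inl w) := by
    simp [Test, hn]
    intro _ h
    exact hn h.symm
  have c2 : 2 ≤ Fintype.card W := Fintype.one_lt_card_iff.2 ⟨u, w, huw⟩
  constructor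
  · intro h
    obtain ⟨S, hS, hu, hw, hp⟩ := h.del (u := inl u) (w := inl w) (v := inr (inr (inl 0)))
      (by simp) (by simp) (by simpa using huw) hn'
    have sub : C ⊆ S := by
      intro c hc
      have a1 : (Test H u w j).Adj (inl u) c := by
        rcases (mC c).1 hc with ⟨e, rfl⟩ | ⟨⟨p, _ | _⟩, rfl⟩ <;> simp [Test]
      have a2 : (Test H u w j).Adj c (inl w) := by
        rcases (mC c).1 hc with ⟨e, rfl⟩ | ⟨⟨p, _ | _⟩, rfl⟩ <;> simp [Test]
      obtain ⟨a, ha, haS⟩ := hp (.cons a1 (.cons a2 .nil)) (by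
        rcases (mC c).1 hc with ⟨e, rfl⟩ | ⟨p, rfl⟩ <;> simp)
      simp at ha
      rcases ha with rfl | rfl | rfl
      · exact absurd haS hu
      · exact haS
      · exact absurd haS hw
    refine ⟨Finset.univ.filter fun a => inl a ∈ S, ?_, by simpa using hu, by simpa using hw,
      fun p => ?_⟩
    · have h1 : ((Finset.univ.filter fun a => inl a ∈ S).map ⟨inl, inl_injective⟩) ⊆ S \ C := by
        intro c hc
        simp only [Finset.mem_map, Finset.mem_filter] at hc
        obtain ⟨a, ⟨-, ha⟩, rfl⟩ := hc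
        exact Finset.mem_sdiff.2 ⟨ha, by simp [mC]⟩
      have h2 := Finset.card_le_card h1
      rw [Finset.card_map, Finset.card_sdiff_of_subset sub] at h2
      omega
    · let f : H →g Test H u w j := ⟨inl, fun {a b} h => by simp [Test, h, h.ne]⟩
      obtain ⟨a, ha, haS⟩ := hp (p.map f) (by simp [f])
      obtain ⟨b, hb, rfl⟩ := List.mem_map.1 ((SimpleGraph.Walk.support_map f p) ▸ ha)
      exact ⟨b, hb, by simpa [f] using haS⟩
  · rintro ⟨S, hS, hu, hw, hp⟩
    have uw : SepLE (Test H u w j) (2 * Fintype.card W + j + 2) (inl u) (inl w) := by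
      refine ⟨S.map ⟨inl, inl_injective⟩ ∪ C, ?_, by simp [mC, hu], by simp [mC, hw], fun p => ?_⟩
      · refine (Finset.card_union_le _ _).trans ?_
        rw [Finset.card_map]
        omega
      · refine walk_meets (S := ↑(S.map ⟨inl, inl_injective⟩ ∪ C))
          (A := {v | ∃ a, v = inl a ∧ ∃ p : H.Walk u a, ∀ z ∈ p.support, z ∉ S}) ?_ p
          ⟨u, rfl, .nil, by simpa using hu⟩ ?_
        · rintro _ ⟨a, rfl, q, hq⟩ (b | e | z | c) hab
          · have : H.Adj a b := by
              simp [Test] at hab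
              exact hab.2.elim id fun h => h.symm
            by_cases hb : b ∈ S
            · exact Or.inr (by simp [hb])
            · refine Or.inl ⟨b, rfl, q.concat this, fun z hz => ?_⟩
              simp at hz
              rcases hz with hz | rfl
              · exact hq z hz
              · exact hb
          · exact Or.inr (by simp [mC])
          · simp [Test] at hab
          · exact Or.inr (by simp [mC])
        · rintro ⟨a, ha, q, hq⟩
          obtain rfl : w = a := inl_injective ha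
          obtain ⟨z, h1, h2⟩ := hp q
          exact hq z h1 h2
    have small : ∀ a b, a ≠ b → ¬ (Test H u w j).Adj a b → a ≠ inl u → a ≠ inl w →
        (∀ e, a ≠ inr (inl e)) → SepLE (Test H u w j) (2 * Fintype.card W + j + 2) a b := by
      rintro (a | e | z | ⟨c, e⟩) b hab hn h1 h2 h3
      · refine sepLE_of_nbr hab hn (Finset.univ.map ⟨inl, inl_injective⟩ ∪
          {inr (inl false), inr (inl true)}) ?_ ?_
        · refine (Finset.card_union_le _ _).trans ?_
          have := Finset.card_le_two (a := (inr (inl false) : W ⊕ Bool ⊕ Fin (j + 3) ⊕ W × Bool))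
            (b := inr (inl true))
          rw [Finset.card_map, Finset.card_univ]
          omega
        · rintro (c | e | z | p) hc
          · simp
          · cases e <;> simp
          · simp [Test] at hc
          · simp [Test] at hc h1 h2
            tauto
      · exact absurd rfl (h3 e)
      · refine sepLE_of_nbr hab hn {inr (inl false), inr (inl true)}
          (Finset.card_le_two.trans (by omega)) ?_
        rintro (c | e | z | p) hc
        · simp [Test] at hc
        · cases e <;> simp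
        · simp [Test] at hc
        · simp [Test] at hc
      · refine sepLE_of_nbr hab hn {inl u, inl w, inr (inl e), inr (inr (inr (c, !e)))}
          (Finset.card_le_four.trans (by omega)) ?_
        rintro (c' | e' | z | ⟨c', e'⟩) hc <;> cases e <;> simp [Test] at hc ⊢ <;> grind
    refine inF_of_braid (by simp) (by simp [Test]) test_braid fun a b hab hn2 => ?_
    by_cases ha : a ≠ inl u ∧ a ≠ inl w ∧ ∀ e, a ≠ inr (inl e)
    · exact Or.inr (Or.inr (small a b hab hn2 ha.1 ha.2.1 ha.2.2))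
    by_cases hb : b ≠ inl u ∧ b ≠ inl w ∧ ∀ e, b ≠ inr (inl e)
    · exact Or.inr (Or.inr (small b a hab.symm (fun h => hn2 h.symm) hb.1 hb.2.1 hb.2.2).symm)
    have ha' : a = inl u ∨ a = inl w ∨ ∃ e, a = inr (inl e) := by grind
    have hb' : b = inl u ∨ b = inl w ∨ ∃ e, b = inr (inl e) := by grind
    rcases ha' with rfl | rfl | ⟨e, rfl⟩ <;> rcases hb' with rfl | rfl | ⟨e', rfl⟩
    · exact absurd rfl hab
    · exact Or.inr (Or.inr uw)
    · simp [Test] at hn2
    · exact Or.inr (Or.inr uw.symm)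
    · exact absurd rfl hab
    · simp [Test] at hn2
    · simp [Test] at hn2
    · simp [Test] at hn2
    · cases e <;> cases e' <;> simp at hab ⊢

end Pool.Agent.Lib.MP_ce5ee5_co
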