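import Pool.Agent.Lib.MP_ce5ee5_co.FpDefs

namespace Pool.Agent.Lib.MP_ce5ee5_co

open Sum

/-- `H`, two poles `e : Bool`, `j + 3` further vertices and `|W|` disjoint edges
`(c, false), (c, true)`: the poles see `H` and the further vertices, pole `e` sees all `(c, e)`,
and `u, w` see all `(c, e)`. -/
def Test {W : Type} (H : SimpleGraph W) (u w : W) (j : ℕ) :
    SimpleGraph (W ⊕ Bool ⊕ Fin (j + 3) ⊕ W × Bool) :=
  SimpleGraph.fromRel fun a b =>
    (∃ a' b', H.Adj a' b' ∧ a = inl a' ∧ b = inl b') ∨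
    (∃ e a', a = inr (inl e) ∧ b = inl a') ∨
    (∃ e z, a = inr (inl e) ∧ b = inr (inr (inl z))) ∨
    (∃ e c, a = inr (inl e) ∧ b = inr (inr (inr (c, e)))) ∨
    (∃ c, a = inr (inr (inr (c, false))) ∧ b = inr (inr (inr (c, true)))) ∨
    ∃ p, a = inr (inr (inr p)) ∧ (b = inl u ∨ b = inl w)

end Pool.Agent.Lib.MP_ce5ee5_co
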