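import Pool.Agent.Lib.MP_ce5ee5_co.FpTraceDefs
import Pool.Agent.Lib.MP_ce5ee5_co.FpMain
import Pool.Agent.Lib.MP_ce5ee5_co.FpTest

namespace Pool.Agent.Lib.MP_ce5ee5_co

variable {V : Type} {G : SimpleGraph V} {k r T : ℕ} {x y : V} {s : ℕ → Fin r → V} {Z : Set V}

def Seg (T : ℕ) (s : ℕ → Fin r → V) (Z : Set V) (i : Fin r) (t t' : ℕ) : Prop :=
  t ≤ t' ∧ t' ≤ T ∧ ∀ σ, t ≤ σ → σ ≤ t' → s σ i ∈ Z → s σ i = s t i ∨ s σ i = s t' i

lemma trace_adj {a b : Z} : (Trace G T s Z).Adj a b ↔ a ≠ b ∧ (G.Adj a b ∨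
    ∃ i t t', Seg T s Z i t t' ∧ ((s t i = a ∧ s t' i = b) ∨ (s t i = b ∧ s t' i = a))) := by
  simp only [Trace, SimpleGraph.fromRel_adj, Seg]
  refine and_congr_right fun _ => ⟨?_, ?_⟩
  · rintro ((h | ⟨i, t, t', h1, h2, h3, h4, h5⟩) | h | ⟨i, t, t', h1, h2, h3, h4, h5⟩)
    · exact Or.inl h
    · exact Or.inr ⟨i, t, t', ⟨h1, h2, by rwa [h3, h4]⟩, Or.inl ⟨h3, h4⟩⟩
    · exact Or.inl h.symm
    · exact Or.inr ⟨i, t, t', ⟨h1, h2, by rwa [h3, h4]⟩, Or.inr ⟨h3, h4⟩⟩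
  · rintro (h | ⟨i, t, t', ⟨h1, h2, h5⟩, ⟨h3, h4⟩ | ⟨h3, h4⟩⟩)
    · exact Or.inl (Or.inl h)
    · exact Or.inl (Or.inr ⟨i, t, t', h1, h2, h3, h4, by rwa [h3, h4] at h5⟩)
    · exact Or.inr (Or.inr ⟨i, t, t', h1, h2, h3, h4, by rwa [h3, h4] at h5⟩)

lemma Iv.btw (h : Iv s T) {t t' u : ℕ} {i : Fin r} (ht : t ≤ T) (ht' : t' ≤ T)
    (e : s t i = s t' i) (hu : (t ≤ u ∧ u ≤ t') ∨ (t' ≤ u ∧ u ≤ t)) : s u i = s t i := by
  rcases hu with ⟨h1, h2⟩ | ⟨h1, h2⟩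
  · exact (h.mid h1 h2 ht' e).trans e.symm
  · exact h.mid h1 h2 ht e.symm

/-- a walk whose strand changes lie in `Z` contracts to a walk of the trace -/
lemma contract (h : Braid G r x y T s) (hx : x ∈ Z) (hy : y ∈ Z)
    (hs : ∀ i, s 0 i ∈ Z ∧ s T i ∈ Z) {u w : Z} (p : G.Walk u w)
    (hp : ∀ d ∈ p.darts, Cross T s d.fst d.snd → d.fst ∈ Z ∧ d.snd ∈ Z) :
    ∃ q : (Trace G T s Z).Walk u w, ∀ c ∈ q.support, c.1 ∈ p.support := by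
  let Bd : V → V → Prop := fun z a => ∃ i t τ, t ≤ T ∧ τ ≤ T ∧ s t i = z ∧ s τ i = a ∧
    ∀ σ, (t ≤ σ ∧ σ ≤ τ) ∨ (τ ≤ σ ∧ σ ≤ t) → s σ i ∈ Z → s σ i = z
  have edge : ∀ a b, G.Adj a b → ¬ (a ∈ Z ∧ b ∈ Z) → ¬ Cross T s a b →
      ∃ i t t', t ≤ T ∧ t' ≤ T ∧ s t i = a ∧ s t' i = b ∧ t ≤ t' + 1 ∧ t' ≤ t + 1 := by
    intro a b hab hz hc
    have n1 : ∀ a b, G.Adj a b → ¬ (a ∈ Z ∧ b ∈ Z) → a ≠ x ∧ a ≠ y := by
      intro a b hab hz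
      constructor
      · rintro rfl
        obtain ⟨i, rfl⟩ := (h.2.2.2.1 b).1 hab
        exact hz ⟨hx, (hs i).1⟩
      · rintro rfl
        obtain ⟨i, rfl⟩ := (h.2.2.2.2.1 b).1 hab
        exact hz ⟨hy, (hs i).2⟩
    have n2 := n1 b a hab.symm fun q => hz q.symm
    obtain ⟨t, h1, t', h2, i, j, e1, e2, h3, h4⟩ :=
      h.2.2.2.2.2 a b hab (n1 a b hab hz).1 (n1 a b hab hz).2 n2.1 n2.2
    obtain rfl : i = j := by
      by_contra hij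
      exact hc ⟨t, h1, t', h2, i, j, hij, e1, e2⟩
    exact ⟨i, t, t', h1, h2, e1, e2, h3, h4⟩
  have key : ∀ (a b : V) (p : G.Walk a b) (hb : b ∈ Z),
      (∀ d ∈ p.darts, Cross T s d.fst d.snd → d.fst ∈ Z ∧ d.snd ∈ Z) →
      ∃ z : Z, (z.1 = a ∨ (a ∉ Z ∧ Bd z a)) ∧
        ∃ q : (Trace G T s Z).Walk z ⟨b, hb⟩, ∀ c ∈ q.support, c.1 ∈ p.support := by
    intro a b p hb
    induction p with
    | nil => exact fun _ => ⟨⟨_, hb⟩, Or.inl rfl, .nil, by simp⟩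
    | @cons a c b hac p ih =>
      intro hd
      obtain ⟨z, hz, q, hq⟩ := ih hb fun d h1 => hd d (by simp [h1])
      have hq' : ∀ e ∈ q.support, e.1 ∈ (SimpleGraph.Walk.cons hac p).support :=
        fun e he => by simp [hq e he]
      have step : ∀ ha : a ∈ Z, (⟨a, ha⟩ : Z) = z ∨ (Trace G T s Z).Adj ⟨a, ha⟩ z →
          ∃ z : Z, (z.1 = a ∨ (a ∉ Z ∧ Bd z a)) ∧ ∃ q : (Trace G T s Z).Walk z ⟨b, hb⟩,
            ∀ e ∈ q.support, e.1 ∈ (SimpleGraph.Walk.cons hac p).support := by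
        rintro ha (rfl | h1)
        · exact ⟨_, Or.inl rfl, q, hq'⟩
        · refine ⟨_, Or.inl rfl, .cons h1 q, fun e he => ?_⟩
          rw [SimpleGraph.Walk.support_cons, List.mem_cons] at he
          rcases he with rfl | he
          · simp
          · exact hq' e he
      by_cases hz2 : a ∈ Z ∧ c ∈ Z
      · obtain rfl : z.1 = c := hz.resolve_right fun e => e.1 hz2.2
        exact step hz2.1 (Or.inr (trace_adj.2 ⟨fun e => hac.ne (congrArg Subtype.val e),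
          Or.inl hac⟩))
      obtain ⟨i, t1, t2, a1, a2, e1, e2, a3, a4⟩ :=
        edge a c hac hz2 fun hc => hz2 (hd ⟨(a, c), hac⟩ (by simp) hc)
      have bd : ∃ t, t ≤ T ∧ s t i = z ∧ ∀ σ, (t ≤ σ ∧ σ ≤ t1) ∨ (t1 ≤ σ ∧ σ ≤ t) →
          s σ i ∈ Z → s σ i = z ∨ s σ i = a := by
        rcases hz with hz | ⟨hc, j, t, τ, b1, b2, b3, b4, b5⟩
        · refine ⟨t2, a2, e2.trans hz.symm, fun σ hσ _ => ?_⟩
          by_cases e : σ = t1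
          · exact Or.inr (e ▸ e1)
          · exact Or.inl ((show σ = t2 by omega) ▸ e2.trans hz.symm)
        · obtain rfl := h.iv.eq b2 a2 (b4.trans e2.symm)
          refine ⟨t, b1, b3, fun σ hσ hσZ => ?_⟩
          by_cases e : σ = t1
          · exact Or.inr (e ▸ e1)
          by_cases e' : (t ≤ σ ∧ σ ≤ τ) ∨ (τ ≤ σ ∧ σ ≤ t)
          · exact Or.inl (b5 σ e' hσZ)
          · have := h.iv.btw (u := σ) b2 a2 (b4.trans e2.symm) (by omega)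
            exact absurd (b4 ▸ this ▸ hσZ) hc
      obtain ⟨t, c1, c2, c3⟩ := bd
      by_cases ha : a ∈ Z
      · refine step ha (or_iff_not_imp_left.2 fun hne => trace_adj.2 ⟨hne, Or.inr ?_⟩)
        rcases le_total t t1 with l | l
        · exact ⟨i, t, t1, ⟨l, a1, fun σ l1 l2 hσ => by
            rw [c2, e1]; exact c3 σ (Or.inl ⟨l1, l2⟩) hσ⟩, Or.inr ⟨c2, e1⟩⟩
        · exact ⟨i, t1, t, ⟨l, c1, fun σ l1 l2 hσ => by
            rw [c2, e1]; exact (c3 σ (Or.inr ⟨l1, l2⟩) hσ).symm⟩, Or.inl ⟨e1, c2⟩⟩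
      · exact ⟨z, Or.inr ⟨ha, i, t, t1, c1, a1, c2, e1, fun σ hσ hσZ =>
          (c3 σ hσ hσZ).resolve_right fun e => ha (e ▸ hσZ)⟩, q, hq'⟩
  obtain ⟨z, hz, q, hq⟩ := key _ _ p w.2 hp
  obtain rfl : z = u := Subtype.ext (hz.resolve_right fun e => e.1 u.2)
  exact ⟨q, hq⟩

lemma strand_walk (h : Braid G r x y T s) (i : Fin r) :
    ∃ p : G.Walk x y, ∀ c ∈ p.support, c = x ∨ c = y ∨ ∃ t ≤ T, s t i = c := by
  have key : ∀ t ≤ T, ∃ p : G.Walk x (s t i), ∀ c ∈ p.support, c = x ∨ ∃ t ≤ T, s t i = c := by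
    intro t ht
    induction t with
    | zero =>
      refine ⟨.cons ((h.2.2.2.1 _).2 ⟨i, rfl⟩) .nil, ?_⟩
      simp only [SimpleGraph.Walk.support_cons, SimpleGraph.Walk.support_nil, List.mem_cons,
        List.not_mem_nil, or_false]
      rintro c (rfl | rfl)
      · exact Or.inl rfl
      · exact Or.inr ⟨0, ht, rfl⟩
    | succ n ih =>
      obtain ⟨p, hp⟩ := ih (by omega)
      rcases h.2.2.1 n ht i with e | e
      · rw [← e]; exact ⟨p, hp⟩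
      · refine ⟨p.concat e, fun c hc => ?_⟩
        simp at hc
        rcases hc with hc | rfl
        · exact hp c hc
        · exact Or.inr ⟨n + 1, ht, rfl⟩
  obtain ⟨p, hp⟩ := key T le_rfl
  refine ⟨p.concat ((h.2.2.2.2.1 _).2 ⟨i, rfl⟩).symm, fun c hc => ?_⟩
  simp at hc
  rcases hc with hc | rfl
  · exact (hp c hc).imp id Or.inr
  · exact Or.inr (Or.inl rfl)

lemma seg_uniq (iv : Iv s T) {i j : Fin r} {t t' q q' τ ρ : ℕ} (h1 : Seg T s Z i t t')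
    (h2 : Seg T s Z j q q') (z1 : s t i ∈ Z) (z2 : s t' i ∈ Z) (z3 : s q j ∈ Z) (z4 : s q' j ∈ Z)
    (a1 : t ≤ τ) (a2 : τ ≤ t') (b1 : q ≤ ρ) (b2 : ρ ≤ q') (e : s τ i = s ρ j) (hz : s τ i ∉ Z) :
    s t i = s q j ∧ s t' i = s q' j := by
  have hτ := a2.trans h1.2.1
  have hρ := b2.trans h2.2.1
  obtain rfl := iv.eq hτ hρ e
  have nb : ∀ σ, s σ i ∈ Z → ¬ ((τ ≤ σ ∧ σ ≤ ρ) ∨ (ρ ≤ σ ∧ σ ≤ τ)) := fun σ hσ hb =>
    hz (iv.btw hτ hρ e hb ▸ hσ)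
  have n1 := nb t z1
  have n2 := nb t' z2
  have n3 := nb q z3
  have n4 := nb q' z4
  have sp : ∀ a b, a ≤ τ → τ ≤ b → b ≤ T → s a i ∈ Z → s a i ≠ s b i := fun a b l1 l2 l3 l4 e' =>
    hz ((iv.btw (l1.trans hτ) l3 e' (Or.inl ⟨l1, l2⟩)) ▸ l4)
  constructor
  · rcases le_total t q with l | l
    · exact ((h1.2.2 q l (by omega) z3).resolve_right (sp q t' (by omega) a2 h1.2.1 z3)).symm
    · exact (h2.2.2 t l (by omega) z1).resolve_right (sp t q' a1 (by omega) h2.2.1 z1)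
  · rcases le_total t' q' with l | l
    · exact (h2.2.2 t' (by omega) l z2).resolve_left (sp q t' (by omega) a2 h1.2.1 z3).symm
    · exact ((h1.2.2 q' (by omega) l z4).resolve_left (sp t q' a1 (by omega) h2.2.1 z1).symm).symm

end Pool.Agent.Lib.MP_ce5ee5_co
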