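import Pool.Agent.Lib.MP_ce5ee5_co.FpTestDefs

namespace Pool.Agent.Lib.MP_ce5ee5_co

/-- the trace on `Z`: edges of `G` inside `Z`, and an edge between any two vertices of `Z` that
are consecutive in `Z` along a strand -/
def Trace {V : Type} {r : ℕ} (G : SimpleGraph V) (T : ℕ) (s : ℕ → Fin r → V) (Z : Set V) :
    SimpleGraph Z :=
  SimpleGraph.fromRel fun a b => G.Adj a b ∨ ∃ i t t', t ≤ t' ∧ t' ≤ T ∧ s t i = a ∧ s t' i = b ∧
    ∀ σ, t ≤ σ → σ ≤ t' → s σ i ∈ Z → s σ i = a ∨ s σ i = b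

end Pool.Agent.Lib.MP_ce5ee5_co
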