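import Pool.Agent.Lib.MP_ce5ee5_co.Defs

namespace Pool.Agent.Lib.MP_ce5ee5_co

open Set

variable {V : Type}

/-- `r` paths `p i 0, …, p i (n i + 1)` from `x` to `y` whose interiors partition the other
vertices, every interior vertex lying on a transversal with no edge jumping over it. -/
def IsBr {r : ℕ} (G : SimpleGraph V) (x y : V) (n : Fin r → ℕ) (p : Fin r → ℕ → V) : Prop :=
  x ≠ y ∧
  (∀ i, 1 ≤ n i ∧ p i 0 = x ∧ p i (n i + 1) = y ∧ ∀ a ≤ n i, G.Adj (p i a) (p i (a + 1))) ∧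
  (∀ v, (v ≠ x ∧ v ≠ y) ↔ ∃ i, ∃ a ∈ Icc 1 (n i), p i a = v) ∧
  (∀ i j, ∀ a ∈ Icc 1 (n i), ∀ b ∈ Icc 1 (n j), p i a = p j b → i = j ∧ a = b) ∧
  ∀ i, ∀ a ∈ Icc 1 (n i), ∃ c : Fin r → ℕ, c i = a ∧ (∀ j, c j ∈ Icc 1 (n j)) ∧
    ∀ j k b d, b < c j → c k < d → d ≤ n k + 1 → ¬ G.Adj (p j b) (p k d)

/-- relations between positions on four paths -/
abbrev Rl := Fin 4 → ℕ → Fin 4 → ℕ → Prop

/-- edges between interior vertices of different paths -/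
def cross (G : SimpleGraph V) (n : Fin 4 → ℕ) (p : Fin 4 → ℕ → V) : Rl := fun i a j b =>
  i ≠ j ∧ a ∈ Icc 1 (n i) ∧ b ∈ Icc 1 (n j) ∧ G.Adj (p i a) (p j b)

/-- the same relation with positions read from the other end -/
def rev (n : Fin 4 → ℕ) (E : Rl) : Rl := fun i a j b => E i (n i + 1 - a) j (n j + 1 - b)

def Big (E : Rl) (i : Fin 4) (a : ℕ) : Prop :=
  ∃ j b k c, (j, b) ≠ (k, c) ∧ E i a j b ∧ E i a k c

def On (E : Rl) (i : Fin 4) (a : ℕ) (j : Fin 4) (q : ℕ) : Prop :=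
  E i a j q ∧ ∀ k c, E i a k c → k = j ∧ c ≤ q

def Out (E : Rl) (i : Fin 4) (a : ℕ) (j : Fin 4) (q : ℕ) : Rl := fun k c l d =>
  (k = i ∧ c ≤ a ∨ k = j ∧ c < q) ∧ l ≠ i ∧ l ≠ j ∧ E k c l d

def Al (E : Rl) (i : Fin 4) (a : ℕ) : Prop :=
  ∃ j q, On E i a j q ∧ ∀ k c l d, ¬ Out E i a j q k c l d

def En (E : Rl) (i : Fin 4) (a : ℕ) : Prop :=
  Al E i a ∨
  (∃ j k, j ≠ k ∧ (∀ l d, E i a l d ↔ (l = j ∨ l = k) ∧ d = 1) ∧
    ∀ c < a, ∀ l d, E i c l d → l = j ∨ l = k) ∨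
  ∃ j r q, r < q ∧ (∀ l d, E i a l d ↔ l = j ∧ (d = r ∨ d = q)) ∧
    (r + 1 = q ∧ (∀ k c l d, Out E i a j q k c l d → c = 1 ∧ d = 1) ∧
        (∀ k c l d k' c' l' d', Out E i a j q k c l d → Out E i a j q k' c' l' d' →
          k = k' ∨ l = l') ∨
      r = 1 ∧ ∀ k c l d, Out E i a j q k c l d → k = j ∧ c + 1 = q ∧ d = 1)

def Pat (n : Fin 4 → ℕ) (E : Rl) (k i : Fin 4) : Prop :=
  n k = 1 ∧ ∃ j q c l e f, On E i 1 j q ∧ c < q ∧ l ≠ i ∧ l ≠ j ∧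
    (e = 1 ∧ f = n l ∨ e = n l ∧ f = 1) ∧
    (∀ m d, E k 1 m d ↔ m = j ∧ d = c ∨ m = l ∧ d = e) ∧
    ∀ m b d, m = i ∨ m = j ∧ q ≤ b → E m b l d → b = n m ∧ d = f

def Rule (n : Fin 4 → ℕ) (E : Rl) (k : Fin 4) (b : ℕ) (i : Fin 4) (a : ℕ) : Prop :=
  a < n i ∧ (Al E i a ∨ En (rev n E) k (n k + 1 - b) ∨ a = 1 ∧ Pat n E k i)

def Cond (G : SimpleGraph V) (x y : V) (n : Fin 4 → ℕ) (p : Fin 4 → ℕ → V) : Prop :=
  (∀ E, E = cross G n p ∨ E = rev n (cross G n p) → ∀ i a, Big E i a → a < n i → En E i a) ∧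
  (∀ i a j b, cross G n p i (a + 1) j b → cross G n p i (a + 1) j (b + 2) →
    cross G n p i a j (b + 1) → cross G n p i (a + 2) j (b + 1) →
    cross G n p i (a + 1) j (b + 1)) ∧
  ∀ i a k b, ∀ w u : ({x, y}ᶜ : Set V), w = p i a → u = p k b → i ≠ k →
    Big (cross G n p) i a → Big (cross G n p) k b → ¬ G.Adj w u →
    SepLE (G.induce _) 1 w u ∨ (∃ n' p', IsBr (r := 2) (G.induce _) w u n' p') ∨
    Rule n (cross G n p) k b i a ∨ Rule n (cross G n p) i a k b ∨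
    Rule n (rev n (cross G n p)) k (n k + 1 - b) i (n i + 1 - a) ∨
    Rule n (rev n (cross G n p)) i (n i + 1 - a) k (n k + 1 - b)

end Pool.Agent.Lib.MP_ce5ee5_co
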