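import Pool.Agent.Lib.MP_ce5ee5_co.Braid
import Pool.Agent.Lib.MP_ce5ee5_co.K3Defs

namespace Pool.Agent.Lib.MP_ce5ee5_co

open Set

variable {V : Type} {G : SimpleGraph V}

def GoodK (G : SimpleGraph V) (k : ℕ) (u w : V) : Prop :=
  ∀ z, z ≠ u → z ≠ w → ∃ S : Finset V, S.card ≤ k + 1 ∧ z ∈ S ∧ u ∉ S ∧ w ∉ S ∧
    ∀ p : G.Walk u w, ∃ v ∈ p.support, v ∈ S

lemma inF_iff (k : ℕ) [Finite V] (F : SimpleGraph V) :
    InF k F ↔ (∃ x y, x ≠ y ∧ ¬ F.Adj x y ∧ ¬ SepLE F k x y) ∧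
      ∀ u w, u ≠ w → ¬ F.Adj u w → GoodK F k u w := by
  classical
  constructor
  · rintro ⟨h1, h2⟩
    refine ⟨?_, fun u w huw hn v hu hw => ?_⟩
    · simp only [InG, not_forall] at h1
      obtain ⟨x, y, hxy, hn, h⟩ := h1
      exact ⟨x, y, hxy, hn, h⟩
    obtain ⟨S, hS, hu', hw', hp⟩ := h2 {v}ᶜ (by simp) ⟨u, hu.symm⟩ ⟨w, hw.symm⟩
      (by simpa using huw) (by simpa using hn)
    refine ⟨insert v (S.map (Function.Embedding.subtype _)),
      (Finset.card_insert_le _ _).trans (by simpa using hS), by simp, ?_, ?_, fun p => ?_⟩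
    · simp [hu.symm, hu']
    · simp [hw.symm, hw']
    by_cases hv : v ∈ p.support
    · exact ⟨v, hv, by simp⟩
    obtain ⟨a, ha, haS⟩ := hp (p.induce {v}ᶜ fun a ha (h : a = v) => hv (h ▸ ha))
    refine ⟨a, ?_, Finset.mem_insert_of_mem (Finset.mem_map_of_mem _ haS)⟩
    rw [SimpleGraph.Walk.support_induce] at ha
    simpa using ha
  · rintro ⟨⟨x, y, hxy, hn, hb⟩, h2⟩
    refine ⟨fun h => hb (h x y hxy hn), fun A hA u w huw hn' => ?_⟩
    have huw' : (u : V) ≠ w := fun h => huw (Subtype.ext h)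
    obtain ⟨v, hv⟩ := (Set.ne_univ_iff_exists_notMem A).1 hA
    obtain ⟨S, hS, hvS, hu, hw, hp⟩ := h2 u w huw' hn' v (fun h => hv (h ▸ u.2))
      (fun h => hv (h ▸ w.2))
    have := Finset.card_lt_card (Finset.filter_ssubset.2 ⟨v, hvS, hv⟩ : S.filter (· ∈ A) ⊂ S)
    refine ⟨S.subtype (· ∈ A), by simp; omega, by simpa using hu, by simpa using hw, fun p => ?_⟩
    obtain ⟨v, hv, hvS⟩ := hp (p.map (SimpleGraph.Embedding.induce A).toHom)
    obtain ⟨a, ha, rfl⟩ := List.mem_map.1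
      ((SimpleGraph.Walk.support_map (SimpleGraph.Embedding.induce A).toHom p) ▸ hv)
    exact ⟨a, ha, by simpa using hvS⟩

/-- closed set description of separation -/
lemma meets_iff {S : Set V} {u w : V} (hu : u ∉ S) :
    (∀ p : G.Walk u w, ∃ v ∈ p.support, v ∈ S) ↔
      ∃ A : Set V, u ∈ A ∧ w ∉ A ∧ ∀ a ∈ A, ∀ b, G.Adj a b → b ∈ A ∨ b ∈ S := by
  constructor
  · intro h
    refine ⟨{v | ∃ p : G.Walk u v, ∀ z ∈ p.support, z ∉ S}, ⟨.nil, by simpa using hu⟩, ?_, ?_⟩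
    · rintro ⟨p, hp⟩
      obtain ⟨v, h1, h2⟩ := h p
      exact hp v h1 h2
    · rintro a ⟨p, hp⟩ b hab
      by_cases hb : b ∈ S
      · exact Or.inr hb
      refine Or.inl ⟨p.concat hab, fun z hz => ?_⟩
      rcases (by simpa using hz : z ∈ p.support ∨ z = b) with h4 | h4
      · exact hp z h4
      · rw [h4]; exact hb
  · rintro ⟨A, h1, h2, h3⟩ p
    exact walk_meets h3 p h1 h2

def Sp (G : SimpleGraph V) (u w s1 s2 s3 s4 : V) : Prop :=
  ∃ A : Set V, u ∈ A ∧ w ∉ A ∧ (s1 ≠ u ∧ s2 ≠ u ∧ s3 ≠ u ∧ s4 ≠ u) ∧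
    (s1 ≠ w ∧ s2 ≠ w ∧ s3 ≠ w ∧ s4 ≠ w) ∧
    ∀ a ∈ A, ∀ b, G.Adj a b → b ∈ A ∨ b = s1 ∨ b = s2 ∨ b = s3 ∨ b = s4

def Good (G : SimpleGraph V) (u w : V) : Prop :=
  ∀ z, z ≠ u → z ≠ w → ∃ s2 s3 s4, Sp G u w z s2 s3 s4

lemma Sp.symm {u w s1 s2 s3 s4 : V} (h : Sp G u w s1 s2 s3 s4) : Sp G w u s1 s2 s3 s4 := by
  obtain ⟨A, h1, h2, h3, h4, h5⟩ := h
  refine ⟨{v | v ∉ A ∧ v ≠ s1 ∧ v ≠ s2 ∧ v ≠ s3 ∧ v ≠ s4}, ?_, fun h => h.1 h1, h4, h3, ?_⟩
  · exact ⟨h2, h4.1.symm, h4.2.1.symm, h4.2.2.1.symm, h4.2.2.2.symm⟩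
  · intro a ha b hab
    have := fun hb => h5 b hb a hab.symm
    simp only [Set.mem_ofPred_eq] at ha ⊢
    tauto

lemma Good.symm {u w : V} (h : Good G u w) : Good G w u := fun z h1 h2 => by
  obtain ⟨a, b, c, h⟩ := h z h2 h1
  exact ⟨a, b, c, h.symm⟩

/-- a separator of four vertices containing `z` -/
lemma Sp.pick {u w s1 s2 s3 s4 z : V} (h : Sp G u w s1 s2 s3 s4)
    (hz : z = s1 ∨ z = s2 ∨ z = s3 ∨ z = s4) : ∃ a b c, Sp G u w z a b c := by
  obtain ⟨A, h1, h2, h3, h4, h5⟩ := h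
  rcases hz with rfl | rfl | rfl | rfl
  · exact ⟨s2, s3, s4, A, h1, h2, h3, h4, h5⟩
  · exact ⟨s1, s3, s4, A, h1, h2, by tauto, by tauto, fun a ha b hab => by
      have := h5 a ha b hab; tauto⟩
  · exact ⟨s1, s2, s4, A, h1, h2, by tauto, by tauto, fun a ha b hab => by
      have := h5 a ha b hab; tauto⟩
  · exact ⟨s1, s2, s3, A, h1, h2, by tauto, by tauto, fun a ha b hab => by
      have := h5 a ha b hab; tauto⟩

lemma Sp.good {u w s1 s2 s3 : V} (h : Sp G u w s1 s1 s2 s3) : Good G u w := fun z hu hw => by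
  obtain ⟨A, h1, h2, h3, h4, h5⟩ := h
  exact ⟨s1, s2, s3, A, h1, h2, by tauto, by tauto, fun a ha b hab => by
      have := h5 a ha b hab; tauto⟩

lemma good_iff {u w : V} : Good G u w ↔ GoodK G 3 u w := by
  classical
  constructor
  · intro h z hu hw
    obtain ⟨a, b, c, A, h1, h2, h3, h4, h5⟩ := h z hu hw
    refine ⟨{z, a, b, c}, Finset.card_le_four, by simp, ?_, ?_, ?_⟩
    · simp only [Finset.mem_insert, Finset.mem_singleton]; tauto
    · simp only [Finset.mem_insert, Finset.mem_singleton]; tauto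
    · intro p
      simpa using walk_meets (S := {z, a, b, c}) (by simpa using h5) p h1 h2
  · intro h z hu hw
    obtain ⟨S, hS, hz, hu', hw', hp⟩ := h z hu hw
    obtain ⟨A, h1, h2, h3⟩ := (meets_iff (S := (S : Set V)) hu').1 hp
    obtain ⟨a, b, c, ha, hb, hc, hm⟩ : ∃ a b c, a ∈ S ∧ b ∈ S ∧ c ∈ S ∧
        ∀ v ∈ S, v = z ∨ v = a ∨ v = b ∨ v = c := by
      have h3 : (S.erase z).toList.length ≤ 3 := by
        rw [Finset.length_toList, Finset.card_erase_of_mem hz]; omega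
      have hm : ∀ v, v ∈ (S.erase z).toList ↔ v ≠ z ∧ v ∈ S := by simp
      rcases hl : (S.erase z).toList with _ | ⟨a, _ | ⟨b, _ | ⟨c, _ | ⟨d, l⟩⟩⟩⟩ <;>
        rw [hl] at hm h3
      · exact ⟨z, z, z, hz, hz, hz, fun v hv => by have := hm v; simp at this; tauto⟩
      · exact ⟨a, z, z, ((hm a).1 (by simp)).2, hz, hz, fun v hv => by
          have := hm v; simp at this; tauto⟩
      · exact ⟨a, b, z, ((hm a).1 (by simp)).2, ((hm b).1 (by simp)).2, hz, fun v hv => by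
          have := hm v; simp at this; tauto⟩
      · exact ⟨a, b, c, ((hm a).1 (by simp)).2, ((hm b).1 (by simp)).2, ((hm c).1 (by simp)).2,
          fun v hv => by have := hm v; simp at this; tauto⟩
      · simp only [List.length_cons] at h3; omega
    refine ⟨a, b, c, A, h1, h2, ⟨hu, ?_, ?_, ?_⟩, ⟨hw, ?_, ?_, ?_⟩, fun a ha b hab => ?_⟩
    all_goals try (rintro rfl; contradiction)
    rcases h3 a ha b hab with h | h
    · exact Or.inl h
    · exact Or.inr (hm b h)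

lemma routes {u w : V} (hg : Good G u w) (L : V → ℕ) (z : V) (hu : z ≠ u) (hw : z ≠ w)
    (hz : L z = 0)
    (H : ∀ τ, 1 ≤ τ → τ ≤ 4 → ∀ A : Set V, u ∈ A →
      (∀ a ∈ A, ∀ b, G.Adj a b → L b = τ → b ∈ A) → ∃ a ∈ A, G.Adj a w) : False := by
  obtain ⟨s2, s3, s4, A, h1, h2, h3, h4, h5⟩ := hg z hu hw
  obtain ⟨τ, t1, t2, t3, t4, t5⟩ : ∃ τ, 1 ≤ τ ∧ τ ≤ 4 ∧ L s2 ≠ τ ∧ L s3 ≠ τ ∧ L s4 ≠ τ := by
    by_contra hc
    push Not at hc
    have a1 := hc 1; have a2 := hc 2; have a3 := hc 3; have a4 := hc 4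
    omega
  obtain ⟨a, ha, hab⟩ := H τ t1 t2 A h1 fun a ha b hab hb => by
    rcases h5 a ha b hab with h | rfl | rfl | rfl | rfl
    · exact h
    all_goals omega
  have := h5 a ha w hab
  tauto

/-- from the time model to positions -/
lemma IsBraid.isBr {r : ℕ} {x y : V} (h : IsBraid G r x y) (hxy : x ≠ y) (hn : ¬ G.Adj x y) :
    ∃ n p, IsBr (r := r) G x y n p := by
  classical
  obtain ⟨T, s, sa, sb, sc, sx, sy, se⟩ := h
  obtain ⟨pos, p0, ps⟩ : ∃ pos : Fin r → ℕ → ℕ, (∀ i, pos i 0 = 1) ∧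
      ∀ i t, pos i (t + 1) = if s t i = s (t + 1) i then pos i t else pos i t + 1 :=
    ⟨fun i t => Nat.rec (motive := fun _ => ℕ) 1
      (fun t k => if s t i = s (t + 1) i then k else k + 1) t, fun _ => rfl, fun _ _ => rfl⟩
  have pm : ∀ i, Monotone (pos i) := fun i => monotone_nat_of_le_succ fun t => by
    rw [ps]; split_ifs <;> omega
  have e1 : ∀ i t t', t ≤ t' → pos i t = pos i t' → s t i = s t' i := by
    intro i t t' htt
    induction t', htt using Nat.le_induction with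
    | base => intro _; rfl
    | succ t' h ih =>
      intro he
      have := pm i h
      rw [ps] at he
      split_ifs at he with h1
      · rw [ih he, h1]
      · omega
  have e2 : ∀ i t t', t ≤ t' → t' ≤ T → s t i = s t' i → pos i t = pos i t' := by
    intro i t t' htt hT he
    have := (sb t t' i i htt hT he).2
    clear he
    induction t', htt using Nat.le_induction with
    | base => rfl
    | succ t' h ih =>
      rw [ps, if_pos, ih (by omega) fun u h1 h2 => this u h1 (by omega)]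
      rw [this t' h (by omega), this (t' + 1) (by omega) le_rfl]
  have sj : ∀ i T' a, 1 ≤ a → a ≤ pos i T' → ∃ t ≤ T', pos i t = a := by
    intro i T' a h1
    induction T' with
    | zero => intro h; exact ⟨0, le_rfl, by rw [p0] at h ⊢; omega⟩
    | succ t ih =>
      intro h
      rcases Nat.lt_or_ge (pos i t) a with h2 | h2
      swap
      · obtain ⟨t', h3, h4⟩ := ih h2
        exact ⟨t', by omega, h4⟩
      · refine ⟨t + 1, le_rfl, ?_⟩
        rw [ps] at h ⊢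
        split_ifs at h ⊢ <;> omega
  have p1 : ∀ i t, 1 ≤ pos i t := fun i t => (p0 i) ▸ pm i (Nat.zero_le t)
  let p : Fin r → ℕ → V := fun i a =>
    if a = 0 then x else
      @dite _ (∃ t ≤ T, pos i t = a) (Classical.dec _) (fun h => s h.choose i) fun _ => y
  have pp : ∀ i t, t ≤ T → p i (pos i t) = s t i := by
    intro i t ht
    have h : ∃ t' ≤ T, pos i t' = pos i t := ⟨t, ht, rfl⟩
    have := p1 i t
    simp only [p, if_neg (show pos i t ≠ 0 by omega), dif_pos h]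
    rcases le_total t h.choose with h1 | h1
    · exact (e1 i _ _ h1 h.choose_spec.2.symm).symm
    · exact e1 i _ _ h1 h.choose_spec.2
  have py : ∀ i, p i (pos i T + 1) = y := by
    intro i
    simp only [p, if_neg (show pos i T + 1 ≠ 0 by omega)]
    rw [dif_neg]
    rintro ⟨t, ht, h⟩
    have := pm i ht
    omega
  have px : ∀ i, p i 0 = x := fun i => by simp [p]
  have inj : ∀ i j t t', t ≤ T → t' ≤ T → s t i = s t' j → i = j ∧ pos i t = pos j t' := by
    intro i j t t' h1 h2 he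
    rcases le_total t t' with h | h
    · obtain rfl := (sb t t' i j h h2 he).1
      exact ⟨rfl, e2 i t t' h h2 he⟩
    · obtain rfl := (sb t' t j i h h1 he.symm).1
      exact ⟨rfl, (e2 j t' t h h1 he.symm).symm⟩
  have ne : ∀ u ≤ T, ∀ j, s u j ≠ x ∧ s u j ≠ y := fun u hu j => (sa _).2 ⟨u, hu, j, rfl⟩
  refine ⟨fun i => pos i T, p, hxy, fun i => ⟨p1 i T, px i, py i, fun a ha => ?_⟩, fun v => ?_,
    ?_, ?_⟩
  · beta_reduce at ha
    rcases Nat.eq_zero_or_pos a with rfl | h0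
    · rw [px, zero_add, ← p0 i, pp i 0 (by omega)]
      exact (sx _).2 ⟨i, rfl⟩
    rcases ha.eq_or_lt with rfl | hlt
    · rw [py, pp i T le_rfl]
      exact ((sy _).2 ⟨i, rfl⟩).symm
    have hex : ∃ t, pos i t = a + 1 := (sj i T (a + 1) (by omega) hlt).imp fun _ h => h.2
    obtain ⟨t', ht', h'⟩ := sj i T (a + 1) (by omega) hlt
    have hf := Nat.find_spec hex
    have hle : Nat.find hex ≤ T := (Nat.find_min' hex h').trans ht'
    obtain ⟨t, ht⟩ : ∃ t, Nat.find hex = t + 1 := by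
      refine ⟨Nat.find hex - 1, ?_⟩
      have : Nat.find hex ≠ 0 := fun h => by rw [h, p0] at hf; omega
      omega
    have hm := Nat.find_min hex (show t < Nat.find hex by omega)
    rw [ht] at hf hle
    have hf' := hf
    rw [ps] at hf'
    split_ifs at hf' with h1
    · exact absurd hf' hm
    rw [← hf, pp i _ hle, show a = pos i t by omega, pp i t (by omega)]
    exact (sc t hle i).resolve_left h1
  · rw [sa]
    constructor
    · rintro ⟨t, ht, i, rfl⟩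
      exact ⟨i, pos i t, ⟨p1 i t, pm i ht⟩, pp i t ht⟩
    · rintro ⟨i, a, ⟨h1, h2⟩, rfl⟩
      obtain ⟨t, ht, rfl⟩ := sj i T a h1 h2
      exact ⟨t, ht, i, (pp i t ht).symm⟩
  · rintro i j a ⟨h1, h2⟩ b ⟨h3, h4⟩ he
    obtain ⟨t, ht, rfl⟩ := sj i T a h1 h2
    obtain ⟨t', ht', rfl⟩ := sj j T b h3 h4
    rw [pp i t ht, pp j t' ht'] at he
    exact inj i j t t' ht ht' he
  · rintro i a ⟨h1, h2⟩
    obtain ⟨t, ht, rfl⟩ := sj i T a h1 h2
    refine ⟨fun j => pos j t, rfl, fun j => ⟨p1 j t, pm j ht⟩, fun j k b d hb hd hd' hadj => ?_⟩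
    beta_reduce at hb hd hd'
    have := pm j ht
    have := p1 k t
    rcases Nat.eq_zero_or_pos b with rfl | h0
    · rw [px] at hadj
      rcases hd'.eq_or_lt with rfl | hlt
      · rw [py] at hadj; exact hn hadj
      obtain ⟨t', ht', rfl⟩ := sj k T d (by omega) (by omega)
      rw [pp k t' ht'] at hadj
      obtain ⟨m, hm⟩ := (sx _).1 hadj
      have := (inj m k 0 t' (by omega) ht' hm).2
      rw [p0] at this; omega
    obtain ⟨t1, ht1, rfl⟩ := sj j T b h0 (by omega)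
    rw [pp j t1 ht1] at hadj
    rcases hd'.eq_or_lt with rfl | hlt
    · rw [py] at hadj
      obtain ⟨m, hm⟩ := (sy _).1 hadj.symm
      obtain ⟨rfl, h⟩ := inj m j T t1 le_rfl ht1 hm
      omega
    obtain ⟨t', ht', rfl⟩ := sj k T d (by omega) (by omega)
    rw [pp k t' ht'] at hadj
    obtain ⟨u, hu, u', hu', m, m', h1, h2, -, h4⟩ :=
      se _ _ hadj (ne _ ht1 _).1 (ne _ ht1 _).2 (ne _ ht' _).1 (ne _ ht' _).2
    obtain ⟨rfl, h5⟩ := inj _ _ _ _ hu ht1 h1
    obtain ⟨rfl, h6⟩ := inj _ _ _ _ hu' ht' h2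
    have a1 : u < t := by
      by_contra hc
      have := pm m (not_lt.1 hc); omega
    have := pm m' (show u' ≤ t by omega)
    omega

end Pool.Agent.Lib.MP_ce5ee5_co
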