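import Pool.Agent.Lib.MP_ce5ee5_co.K3Base

namespace Pool.Agent.Lib.MP_ce5ee5_co

open Set

variable {V : Type} {G : SimpleGraph V} {x y : V}

section gen

variable {r : ℕ} {n : Fin r → ℕ} {p : Fin r → ℕ → V}

/-- equality of positions -/
def Eqc (n : Fin r → ℕ) (i : Fin r) (a : ℕ) (j : Fin r) (b : ℕ) : Prop :=
  (i = j ∧ a = b) ∨ (a = 0 ∧ b = 0) ∨ (a = n i + 1 ∧ b = n j + 1)

namespace IsBr

variable (h : IsBr G x y n p)
include h

lemma ne : x ≠ y := h.1
lemma one (i) : 1 ≤ n i := (h.2.1 i).1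
lemma px (i) : p i 0 = x := (h.2.1 i).2.1
lemma py (i) : p i (n i + 1) = y := (h.2.1 i).2.2.1
lemma step (i) {a} (ha : a ≤ n i) : G.Adj (p i a) (p i (a + 1)) := (h.2.1 i).2.2.2 a ha
lemma nexy {i a} (h1 : 1 ≤ a) (h2 : a ≤ n i) : p i a ≠ x ∧ p i a ≠ y :=
  (h.2.2.1 _).2 ⟨i, a, ⟨h1, h2⟩, rfl⟩
lemma cov {v} (h1 : v ≠ x) (h2 : v ≠ y) : ∃ i a, 1 ≤ a ∧ a ≤ n i ∧ p i a = v := by
  obtain ⟨i, a, ⟨h3, h4⟩, h5⟩ := (h.2.2.1 v).1 ⟨h1, h2⟩
  exact ⟨i, a, h3, h4, h5⟩

lemma eq_iff {i j a b} (ha : a ≤ n i + 1) (hb : b ≤ n j + 1) :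
    p i a = p j b ↔ Eqc n i a j b := by
  constructor
  · intro he
    unfold Eqc
    rcases Nat.eq_zero_or_pos a with rfl | a0
    · rcases Nat.eq_zero_or_pos b with rfl | b0
      · simp
      rw [h.px] at he
      rcases hb.eq_or_lt with rfl | b1
      · rw [h.py] at he; exact absurd he h.ne
      · exact absurd he.symm (h.nexy b0 (by omega)).1
    rcases ha.eq_or_lt with rfl | a1
    · rw [h.py] at he
      rcases Nat.eq_zero_or_pos b with rfl | b0
      · rw [h.px] at he; exact absurd he.symm h.ne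
      rcases hb.eq_or_lt with rfl | b1
      · simp
      · exact absurd he.symm (h.nexy b0 (by omega)).2
    rcases Nat.eq_zero_or_pos b with rfl | b0
    · rw [h.px] at he; exact absurd he (h.nexy a0 (by omega)).1
    rcases hb.eq_or_lt with rfl | b1
    · rw [h.py] at he; exact absurd he (h.nexy a0 (by omega)).2
    exact Or.inl (h.2.2.2.1 i j a ⟨a0, by omega⟩ b ⟨b0, by omega⟩ he)
  · rintro (⟨rfl, rfl⟩ | ⟨rfl, rfl⟩ | ⟨rfl, rfl⟩)
    · rfl
    · rw [h.px, h.px]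
    · rw [h.py, h.py]

lemma cut {i a} (h1 : 1 ≤ a) (h2 : a ≤ n i) : ∃ c : Fin r → ℕ, c i = a ∧
    (∀ j, 1 ≤ c j ∧ c j ≤ n j) ∧
    ∀ j k b d, b < c j → c k < d → d ≤ n k + 1 → ¬ G.Adj (p j b) (p k d) :=
  h.2.2.2.2 i a ⟨h1, h2⟩

/-- positions on one path are adjacent only when consecutive -/
lemma same {i a b} (hab : a + 2 ≤ b) (hb : b ≤ n i + 1) : ¬ G.Adj (p i a) (p i b) := by
  obtain ⟨c, c1, -, c3⟩ := h.cut (i := i) (a := a + 1) (by omega) (by omega)
  exact c3 i i a b (by omega) (by omega) hb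

lemma adj_x {v} (i : Fin r) (hv : G.Adj x v) : ∃ j, v = p j 1 := by
  have hy : v ≠ y := by
    rintro rfl
    have := h.one i
    exact h.same (i := i) (a := 0) (b := n i + 1) (by omega) le_rfl (by rwa [h.px, h.py])
  obtain ⟨j, b, b1, b2, rfl⟩ := h.cov hv.ne' hy
  by_cases hb : b = 1
  · exact ⟨j, by rw [hb]⟩
  · exact absurd (by rwa [h.px]) (h.same (i := j) (a := 0) (b := b) (by omega) (by omega))

lemma nadj (i : Fin r) : ¬ G.Adj x y := fun hv => by
  obtain ⟨j, hj⟩ := h.adj_x i hv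
  exact (h.nexy le_rfl (h.one j)).2 hj.symm

lemma rev : IsBr G y x n fun i a => p i (n i + 1 - a) := by
  refine ⟨h.ne.symm, fun i => ⟨h.one i, h.py i, by simp [h.px], fun a ha => ?_⟩, fun v => ?_,
    ?_, ?_⟩
  · have := h.step i (a := n i - a) (by omega)
    beta_reduce
    rw [show n i + 1 - (a + 1) = n i - a by omega, show n i + 1 - a = n i - a + 1 by omega]
    exact this.symm
  · rw [and_comm, h.2.2.1]
    constructor
    · rintro ⟨i, a, ⟨h1, h2⟩, rfl⟩
      exact ⟨i, n i + 1 - a, ⟨by omega, by omega⟩, by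
        beta_reduce
        rw [show n i + 1 - (n i + 1 - a) = a by omega]⟩
    · rintro ⟨i, a, ⟨h1, h2⟩, rfl⟩
      exact ⟨i, n i + 1 - a, ⟨by omega, by omega⟩, rfl⟩
  · rintro i j a ⟨h1, h2⟩ b ⟨h3, h4⟩ he
    obtain ⟨rfl, h5⟩ := h.2.2.2.1 i j _ ⟨by omega, by omega⟩ _ ⟨by omega, by omega⟩ he
    exact ⟨rfl, by omega⟩
  · rintro i a ⟨h1, h2⟩
    obtain ⟨c, c1, c2, c3⟩ := h.cut (i := i) (a := n i + 1 - a) (by omega) (by omega)
    refine ⟨fun j => n j + 1 - c j, by simp only [c1]; omega, fun j => ?_,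
      fun j k b d hb hd hd' hadj => ?_⟩
    · have := c2 j
      beta_reduce
      exact ⟨by omega, by omega⟩
    · have := c2 j
      have := c2 k
      beta_reduce at hb hd
      exact c3 k j _ _ (by omega) (by omega) (by omega) hadj.symm

lemma adj_y {v} (i : Fin r) (hv : G.Adj y v) : ∃ j, v = p j (n j) := by
  obtain ⟨j, hj⟩ := h.rev.adj_x i hv
  exact ⟨j, by simpa using hj⟩

lemma adj_cases {i a v} (h1 : 1 ≤ a) (h2 : a ≤ n i) (hv : G.Adj (p i a) v) :
    v = p i (a + 1) ∨ v = p i (a - 1) ∨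
      ∃ j b, i ≠ j ∧ 1 ≤ b ∧ b ≤ n j ∧ v = p j b := by
  by_cases hx : v = x
  · subst hx
    obtain ⟨j, hj⟩ := h.adj_x i hv.symm
    have := h.one j
    have := (h.eq_iff (by omega) (by omega)).1 hj
    unfold Eqc at this
    right; left
    rw [show a - 1 = 0 by omega, h.px]
  by_cases hy : v = y
  · subst hy
    obtain ⟨j, hj⟩ := h.adj_y i hv.symm
    have := h.one j
    rcases (h.eq_iff (by omega) (by omega)).1 hj with ⟨rfl, rfl⟩ | h3 | h3
    · left; rw [h.py]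
    all_goals omega
  obtain ⟨j, b, b1, b2, rfl⟩ := h.cov hx hy
  by_cases hij : i = j
  · subst hij
    have e1 : ¬ a + 2 ≤ b := fun h3 => h.same h3 (by omega) hv
    have e2 : ¬ b + 2 ≤ a := fun h3 => h.same h3 (by omega) hv.symm
    have e3 : a ≠ b := fun h3 => hv.ne (by rw [h3])
    rcases (by omega : b = a + 1 ∨ b = a - 1) with rfl | rfl
    · exact Or.inl rfl
    · exact Or.inr (Or.inl rfl)
  · exact Or.inr (Or.inr ⟨j, b, hij, b1, b2, rfl⟩)

end IsBr

lemma IsBr.goodK {k : ℕ} {n : Fin (k + 1) → ℕ} {p : Fin (k + 1) → ℕ → V}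
    (h : IsBr G x y n p) : GoodK G k x y := by
  classical
  intro z hx hy
  obtain ⟨i, a, a1, a2, rfl⟩ := h.cov hx hy
  obtain ⟨c, c1, c2, c3⟩ := h.cut a1 a2
  have hS : ∀ v ∈ Finset.univ.image (fun j => p j (c j)), v ≠ x ∧ v ≠ y := by
    intro v hv
    obtain ⟨j, -, rfl⟩ := Finset.mem_image.1 hv
    exact h.nexy (c2 j).1 (c2 j).2
  refine ⟨Finset.univ.image fun j => p j (c j), Finset.card_image_le.trans (by simp),
    Finset.mem_image.2 ⟨i, by simp, by rw [c1]⟩, fun hh => (hS _ hh).1 rfl,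
    fun hh => (hS _ hh).2 rfl, fun q => ?_⟩
  refine walk_meets (A := {v | ∃ j b, b < c j ∧ p j b = v})
    (S := ((Finset.univ.image fun j => p j (c j) : Finset V) : Set V)) ?_ q
    ⟨i, 0, (c2 i).1, h.px i⟩ ?_
  · rintro _ ⟨j, b, hb, rfl⟩ v hv
    by_cases hx : v = x
    · exact Or.inl ⟨i, 0, (c2 i).1, by rw [h.px, hx]⟩
    by_cases hy : v = y
    · exact absurd (by rwa [h.py, ← hy]) (c3 j i b (n i + 1) hb (by have := c2 i; omega) le_rfl)
    obtain ⟨m, d, d1, d2, rfl⟩ := h.cov hx hy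
    rcases lt_trichotomy d (c m) with h3 | rfl | h3
    · exact Or.inl ⟨m, d, h3, rfl⟩
    · exact Or.inr (by simp)
    · exact absurd hv (c3 j m b d hb h3 (by omega))
  · rintro ⟨j, b, hb, he⟩
    have := c2 j
    rw [← h.py j] at he
    have := (h.eq_iff (by omega) le_rfl).1 he
    unfold Eqc at this
    omega

lemma IsBr.not_sepLE {k : ℕ} {n : Fin (k + 1) → ℕ} {p : Fin (k + 1) → ℕ → V}
    (h : IsBr G x y n p) : ¬ SepLE G k x y := by
  rintro ⟨S, hS, hx, hy, hp⟩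
  obtain ⟨A, h1, h2, h3⟩ := (meets_iff (S := (S : Set V)) hx).1 hp
  have : ∀ i, ∃ a, 1 ≤ a ∧ a ≤ n i ∧ p i a ∈ S := by
    intro i
    by_contra hc
    push Not at hc
    have : ∀ a ≤ n i + 1, p i a ∈ A := by
      intro a
      induction a with
      | zero => intro _; rwa [h.px]
      | succ a ih =>
        intro ha
        rcases h3 _ (ih (by omega)) _ (h.step i (by omega)) with h4 | h4
        · exact h4
        · rcases (by omega : a + 1 ≤ n i ∨ a = n i) with h5 | rfl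
          · exact absurd h4 (hc _ (by omega) h5)
          · rw [h.py] at h4; exact absurd h4 hy
    exact h2 (h.py i ▸ this _ le_rfl)
  choose f f1 f2 f3 using this
  have := Finset.card_le_card_of_injOn (s := Finset.univ) (t := S) (fun i => p i (f i))
    (fun i _ => f3 i) fun i _ j _ he => (h.2.2.2.1 i j _ ⟨f1 i, f2 i⟩ _ ⟨f1 j, f2 j⟩ he).1
  simp at this
  omega

end gen

end Pool.Agent.Lib.MP_ce5ee5_co
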