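import Pool.Agent.Lib.MP_ce5ee5_co.K3Left

namespace Pool.Agent.Lib.MP_ce5ee5_co

open Set

variable {V : Type} {G : SimpleGraph V} {x y : V} {n : Fin 4 → ℕ} {p : Fin 4 → ℕ → V}

/-- the mirror image of `PX` -/
def PY (G : SimpleGraph V) (n : Fin 4 → ℕ) (p : Fin 4 → ℕ → V) (k : Fin 4) (b : ℕ)
    (T : Fin 4 → ℕ) : Prop :=
  T k + 1 = b ∧ (∀ m, m ≠ k → 1 ≤ T m ∧ T m ≤ n m ∧ (T m = n m ∨ cross G n p k b m (T m))) ∧
  Clo (cross G n p) T ∧
  (∀ m e, e ≤ T m → ¬ G.Adj (p k b) (p m e) → ¬ cross G n p k (n k) m e →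
    ∀ m' e', T m' < e' → e' ≤ n m' + 1 → p m' e' ≠ p k b →
      ∃ s2 s3 s4, Sp G (p k b) (p m e) (p m' e') s2 s3 s4) ∧
  ∃ D : Fin 4 → Set V, (∀ m, ∀ v ∈ D m, ∃ j c, T j < c ∧ c ≤ n j + 1 ∧ p j c = v) ∧
    (∀ m m', m ≠ m' → ∀ v, ¬ (v ∈ D m ∧ v ∈ D m')) ∧ ∀ m, Reach G (D m) (p m (T m)) (p k b)

lemma IsBr.pY (h : IsBr G x y n p) (c1 : C1 n (cross G n p)) {k b} (b1 : 1 ≤ b) (b2 : b ≤ n k)
    (he : En (MP_ce5ee5_co.rev n (cross G n p)) k (n k + 1 - b))
    (ha : ¬ Al (MP_ce5ee5_co.rev n (cross G n p)) k (n k + 1 - b)) : ∃ T, PY G n p k b T := by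
  have H := h.ax
  obtain ⟨T, t1, t2, t3, t4, D, d1, d2, d3⟩ := h.rev.pX (i := k) (a := n k + 1 - b)
    (by rwa [cross_rev, H.rev_rev]) (by rwa [cross_rev]) (by rwa [cross_rev])
  rw [cross_rev] at t2 t3 t4
  beta_reduce at t4 d1 d3
  have eb : n k + 1 - (n k + 1 - b) = b := by omega
  rw [eb] at t4 d3
  have tr : ∀ m, 1 ≤ T m ∧ T m ≤ n m + 1 := fun m => by
    by_cases hm : m = k
    · subst hm; omega
    · have := t2 m hm; omega
  refine ⟨fun m => n m + 1 - T m, by beta_reduce; omega, fun m hm => ?_, ?_, ?_, D, ?_, d2, d3⟩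
  · obtain ⟨u1, u2, u3⟩ := t2 m hm
    beta_reduce
    refine ⟨by omega, by omega, u3.imp (by omega) fun u => (H.rv' b2 u).1⟩
  · intro j c l d he hlt
    have := t3 _ _ _ _ (H.rv.2 (H.symm he))
    have := H.rng he
    have := tr j
    have := tr l
    beta_reduce at hlt ⊢
    omega
  · intro m e e1 na ne m' e' e2 e3 ne'
    beta_reduce at e1 e2
    have := tr m
    have := tr m'
    have := t4 m (n m + 1 - e) (by omega) (by omega)
      (by rwa [show n m + 1 - (n m + 1 - e) = e by omega])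
      (fun hh => ne (H.rv.1 (by rwa [show n k + 1 - n k = 1 by omega])))
      m' (n m' + 1 - e') (by omega) (by rwa [show n m' + 1 - (n m' + 1 - e') = e' by omega])
    rwa [show n m + 1 - (n m + 1 - e) = e by omega,
      show n m' + 1 - (n m' + 1 - e') = e' by omega] at this
  · intro m v hv
    obtain ⟨j, c, u1, rfl⟩ := d1 m v hv
    have := tr j
    exact ⟨j, n j + 1 - c, by beta_reduce; omega, by omega, rfl⟩

/-- `(i, a)` comes before `(k, b)` -/
def Ord (E : Rl) (i : Fin 4) (a : ℕ) (k : Fin 4) (b : ℕ) : Prop :=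
  (i = k → a + 2 ≤ b) ∧ (∀ d, E k b i d → a < d) ∧ (∀ d, E i a k d → d < b) ∧
    ∀ m d d', E i a m d → E k b m d' → d ≤ d'

namespace IsBr

variable (h : IsBr G x y n p)
include h

lemma coords (v : V) : ∃ m e, e ≤ n m + 1 ∧ p m e = v := by
  by_cases hx : v = x
  · exact ⟨0, 0, by omega, by rw [h.px, hx]⟩
  by_cases hy : v = y
  · exact ⟨0, _, le_rfl, by rw [h.py, hy]⟩
  obtain ⟨m, e, -, h2, h3⟩ := h.cov hx hy
  exact ⟨m, e, by omega, h3⟩

lemma pair_core {i a k b T T'} (hT : PX G n p i a T) (hT' : PY G n p k b T')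
    (a1 : 1 ≤ a) (a2 : a < n i) (b2 : b ≤ n k) (ho : Ord (cross G n p) i a k b)
    (na : ¬ G.Adj (p i a) (p k b)) : Good G (p i a) (p k b) := by
  have H := h.ax
  obtain ⟨t1, t2, t3, t4, -⟩ := hT
  obtain ⟨s1, s2, s3, s4, -⟩ := hT'
  obtain ⟨o1, o2, o3, o4⟩ := ho
  have le : ∀ m, T m ≤ T' m ∨ (m = k ∧ b = 1 ∧ T m = 1) := fun m => by
    have := t2 m
    have := s2 m
    have := o2 (T' i)
    have := o3 (T k)
    have := o4 m (T m) (T' m)
    grind
  have tn : ∀ m, T' m ≤ n m := fun m => by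
    have := s2 m
    grind
  have t0 : ∀ m, 1 ≤ T m := fun m => by
    have := t2 m
    grind
  intro z hu hw
  obtain ⟨m, e, e1, rfl⟩ := h.coords z
  by_cases h1 : e < T m
  · refine t4 k b (by have := le k; grind) (by omega) na (fun hh => ?_) m e h1 hu
    have := o2 _ (H.symm hh)
    omega
  by_cases h2 : T' m < e
  · obtain ⟨u, v, w, hs⟩ := s4 i a (by have := le i; grind) (fun hh => na hh.symm) (fun hh => by
      have := o3 _ (H.symm hh)
      omega) m e h2 e1 hw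
    exact ⟨u, v, w, hs.symm⟩
  have := tn m
  have := t0 m
  obtain ⟨c, c1, c2, c3⟩ := H.cut m e (by omega) (by omega)
  have := h.cut_sp (s3.inf (t3.sup c3)) (fun j => by have := tn j; omega) (i := i) (a := a)
    (k := k) (b := b) a1 (by have := le i; grind) (by grind) (by omega) m
  rwa [show min (T' m) (max (T m) (c m)) = e by omega] at this

lemma al_sp {i a j q} (hb : Big (cross G n p) i a) (ho : On (cross G n p) i a j q)
    (hn : ∀ k c l d, ¬ Out (cross G n p) i a j q k c l d) {m e} (e1 : 1 ≤ e) (e2 : e ≤ n m + 1)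
    (e3 : m = i → a < e) (e4 : m = j → q ≤ e) (na : ¬ G.Adj (p i a) (p m e)) :
    Good G (p i a) (p m e) := by
  have H := h.ax
  obtain ⟨o1, o2⟩ := ho
  have rq := H.rng o1
  obtain ⟨r, r1, r2⟩ : ∃ r, r < q ∧ cross G n p i a j r := by
    obtain ⟨j1, b1, j2, b2, u1, u2, u3⟩ := hb
    obtain ⟨rfl, v1⟩ := o2 _ _ u2
    obtain ⟨rfl, v2⟩ := o2 _ _ u3
    by_cases hq : b1 = q
    · exact ⟨b2, by grind, u3⟩
    · exact ⟨b1, by omega, u2⟩
  have t1 : ¬ Eqc n m e i (a + 1) := fun hh =>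
    na ((h.eq_iff e2 (by omega)).2 hh ▸ h.step i rq.2.2.1)
  have t2 : ¬ Eqc n m e j q := fun hh => na ((h.eq_iff e2 (by omega)).2 hh ▸ cross_adj o1)
  refine Sp.good (h.sp (fun u c => 1 ≤ c ∧ (u = i ∧ c ≤ a ∨ u = j ∧ c < q))
    i 0 i 0 i (a + 1) j q ?_ ?_ ?_ ?_ ?_ ?_ ?_ ?_)
  · grind
  · grind
  · grind
  · grind
  · grind
  · grind [Eqc]
  · grind [Eqc]
  · intro u c v d hu he
    have := hn u c v d
    have := H.rng he
    have := o2 v d
    have : u = i → v = j → c < a → d ≤ r + 1 := by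
      rintro rfl rfl hc; exact H.mono he r2 hc
    have : u = j → v = i → c < q → d ≤ a + 1 := by
      rintro rfl rfl hc; exact H.mono he (H.symm o1) hc
    grind (splits := 30) [Out]

lemma goodY (c1 : C1 n (MP_ce5ee5_co.rev n (cross G n p))) {i a} (hb : Big (cross G n p) i a)
    (a2 : a < n i) (he : En (cross G n p) i a) : Good G (p i a) y := by
  have H := h.ax
  have a1 := (H.big_rng hb).1
  have na : ¬ G.Adj (p i a) (p i (n i + 1)) := h.same (by omega) le_rfl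
  rw [← h.py i]
  by_cases ha : Al (cross G n p) i a
  · obtain ⟨j, q, o1, o2⟩ := ha
    refine h.al_sp hb o1 o2 (by omega) le_rfl (by omega) (fun hh => ?_) na
    exact absurd hh (H.rng o1.1).1
  obtain ⟨T, t1, t2, t3, t4, -⟩ := h.pX c1 he ha
  have tr : ∀ m, 1 ≤ T m ∧ T m ≤ n m := fun m => by
    have := t2 m
    grind
  intro z hu hw
  obtain ⟨m, e, e1, rfl⟩ := h.coords z
  by_cases h1 : e < T m
  · refine t4 i _ (by omega) le_rfl na (fun hh => (H.rng hh).1 rfl) m e h1 hu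
  have : e ≠ n m + 1 := by
    rintro rfl
    exact hw (by rw [h.py, h.py])
  have := tr m
  obtain ⟨c, c1, c2, c3⟩ := H.cut m e (by omega) (by omega)
  have := h.cut_sp (t3.sup c3) (fun j => by have := tr j; have := c2 j; omega) (i := i) (a := a)
    (k := i) (b := n i + 1) a1 (by omega) (by have := c2 i; omega) le_rfl m
  rwa [show max (T m) (c m) = e by omega] at this

lemma al_good (c2 : C2 (cross G n p)) {i a k b} (hb : Big (cross G n p) i a)
    (ha : Al (cross G n p) i a) (hb' : Big (cross G n p) k b) (ne : ¬ (i = k ∧ a = b))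
    (na : ¬ G.Adj (p i a) (p k b)) : Good G (p i a) (p k b) := by
  have H := h.ax
  obtain ⟨j, q, ⟨o1, o2⟩, o3⟩ := ha
  have rq := H.rng o1
  have rb := H.big_rng hb'
  by_cases hin : (k = i → a < b) ∧ (k = j → q ≤ b)
  · exact h.al_sp hb ⟨o1, o2⟩ o3 rb.1 (by omega) hin.1 hin.2 na
  obtain ⟨r, r1, r2⟩ : ∃ r, r < q ∧ cross G n p i a j r := by
    obtain ⟨j1, b1, j2, b2, u1, u2, u3⟩ := hb
    obtain ⟨rfl, v1⟩ := o2 _ _ u2
    obtain ⟨rfl, v2⟩ := o2 _ _ u3
    by_cases hq : b1 = q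
    · exact ⟨b2, by grind, u3⟩
    · exact ⟨b1, by omega, u2⟩
  have mx : ∀ m, (∀ l d, cross G n p k b l d → l = m) → ∃ e, On (cross G n p) k b m e := by
    intro m hm
    classical
    have hex : ∃ d, cross G n p k b m d := by
      obtain ⟨j1, b1, -, -, -, u2, -⟩ := hb'
      exact ⟨b1, hm _ _ u2 ▸ u2⟩
    obtain ⟨d, hd⟩ := hex
    refine ⟨Nat.findGreatest (cross G n p k b m) (n m),
      Nat.findGreatest_spec (H.rng hd).2.2.2.2 hd, fun l c hl => ?_⟩
    obtain rfl := hm _ _ hl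
    exact ⟨rfl, Nat.le_findGreatest (H.rng hl).2.2.2.2 hl⟩
  have na' : ¬ G.Adj (p k b) (p i a) := fun hh => na hh.symm
  by_cases hk : k = i
  · subst hk
    have hlt : b < a := by grind
    obtain ⟨e, e1⟩ := mx j fun l d hl => by
      have := o3 k b l d
      have := H.rng hl
      grind [Out]
    have := H.mono e1.1 r2 hlt
    refine (h.al_sp hb' e1 (fun u c v d ho => o3 u c v d ?_) rq.2.1 (by omega) (by omega)
      (fun hh => absurd hh rq.1) na').symm
    grind [Out]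
  obtain rfl : k = j := by grind
  have hlt : b < q := by grind
  have only : ∀ l d, cross G n p k b l d → l = i := fun l d hl => by
    have := o3 k b l d
    have := H.rng hl
    grind [Out]
  obtain ⟨e, e1⟩ := mx i only
  have ne1 : ∀ d, cross G n p k b i d → d ≠ a := by
    rintro d hd rfl
    exact na' (cross_adj hd)
  have := ne1 _ e1.1
  by_cases hea : e < a
  · refine (h.al_sp hb' e1 (fun u c v d ho => o3 u c v d ?_) rq.2.1 (by omega)
      (fun hh => absurd hh rq.1) (by omega) na').symm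
    grind [Out]
  exfalso
  obtain ⟨e', u1, u2⟩ : ∃ e', e' < e ∧ cross G n p k b i e' := by
    obtain ⟨j1, b1, j2, b2, u1, u2, u3⟩ := hb'
    obtain ⟨rfl, v1⟩ := e1.2 _ _ u2
    obtain ⟨rfl, v2⟩ := e1.2 _ _ u3
    by_cases hq : b1 = e
    · exact ⟨b2, by grind, u3⟩
    · exact ⟨b1, by omega, u2⟩
  have := ne1 _ u2
  have m1 := H.mono e1.1 (H.symm o1) hlt
  obtain rfl : e = a + 1 := by omega
  have m2 := H.mono (H.symm u2) r2 (by omega)
  have m3 := H.mono o1 (H.symm e1.1) (by omega)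
  have : r ≠ b := by
    rintro rfl
    exact na (cross_adj r2)
  have m4 := H.mono (H.symm r2) u2 (by omega)
  obtain rfl : a = e' + 1 := by omega
  obtain rfl : b = r + 1 := by omega
  obtain rfl : q = r + 2 := by omega
  exact na (cross_adj (c2 _ _ _ _ r2 o1 (H.symm u2) (H.symm e1.1)))

end IsBr

end Pool.Agent.Lib.MP_ce5ee5_co
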