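import Pool.Agent.Lib.MP_ce5ee5_co.K3Core

namespace Pool.Agent.Lib.MP_ce5ee5_co

open Set

variable {V : Type} {G : SimpleGraph V} {x y : V} {n : Fin 4 → ℕ} {p : Fin 4 → ℕ → V}

/-- the target `t` is reached from the ends of four initial segments along disjoint sets -/
structure Tail (G : SimpleGraph V) (n : Fin 4 → ℕ) (p : Fin 4 → ℕ → V) (N : Fin 4 → ℕ) (t : V)
    (D : Fin 4 → Set V) : Prop where
  rng : ∀ m, 1 ≤ N m ∧ N m ≤ n m
  clo : Clo (cross G n p) N
  late : ∀ m, ∀ v ∈ D m, ∃ j c, N j < c ∧ c ≤ n j + 1 ∧ p j c = v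
  disj : ∀ m m', m ≠ m' → ∀ v, ¬ (v ∈ D m ∧ v ∈ D m')
  reach : ∀ m, Reach G (D m) (p m (N m)) t
  ne : ∀ m e, e ≤ N m → p m e ≠ t

/-- a route from `u` to the end of segment `s` inside `Φ` -/
def Rt (G : SimpleGraph V) (n : Fin 4 → ℕ) (p : Fin 4 → ℕ → V) (N : Fin 4 → ℕ) (u : V)
    (Φ : Fin 4 → ℕ → Prop) (s : Fin 4) : Prop :=
  ∀ A : Set V, u ∈ A → (∀ a ∈ A, ∀ b ∈ img n p Φ, G.Adj a b → b ∈ A) → p s (N s) ∈ A

namespace IsBr

variable (h : IsBr G x y n p)
include h

lemma four {N t D} (T : Tail G n p N t D) {i a} (a1 : 1 ≤ a) (a2 : a ≤ N i)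
    (hg : Good G (p i a) t) (P1 P2 P3 P4 : Fin 4 → ℕ → Prop) {i1 i2 i3 i4 : Fin 4}
    (hi : i1 ≠ i2 ∧ i1 ≠ i3 ∧ i1 ≠ i4 ∧ i2 ≠ i3 ∧ i2 ≠ i4 ∧ i3 ≠ i4)
    (hP : ∀ s c, (P1 s c ∨ P2 s c ∨ P3 s c → 1 ≤ c) ∧ (P1 s c ∨ P2 s c ∨ P3 s c ∨ P4 s c → c ≤ N s))
    (hd : ∀ s c, ¬ (P1 s c ∧ P2 s c) ∧ ¬ (P1 s c ∧ P3 s c) ∧ ¬ (P1 s c ∧ P4 s c) ∧
      ¬ (P2 s c ∧ P3 s c) ∧ ¬ (P2 s c ∧ P4 s c) ∧ ¬ (P3 s c ∧ P4 s c))
    (r1 : Rt G n p N (p i a) P1 i1) (r2 : Rt G n p N (p i a) P2 i2)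
    (r3 : Rt G n p N (p i a) P3 i3) (r4 : Rt G n p N (p i a) P4 i4) :
    (∃ s, P4 s 0) ∧ ∀ m e, 1 ≤ e → e ≤ N m →
      (m = i ∧ e = a) ∨ P1 m e ∨ P2 m e ∨ P3 m e ∨ P4 m e := by
  have rng := T.rng
  have re : ∀ P s, Rt G n p N (p i a) P s → Reach G (img n p P ∪ D s) (p i a) t :=
    fun P s r A hA hc => T.reach s A (r A hA fun a ha b hb => hc a ha b (Or.inl hb))
      fun a ha b hb => hc a ha b (Or.inr hb)
  have k1 : ∀ m e, e ≤ N m → ∀ s, p m e ∉ D s := by
    intro m e he s hs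
    obtain ⟨j, c, u1, u2, u3⟩ := T.late s _ hs
    have := rng m
    have := rng j
    rcases (h.eq_iff u2 (by omega)).1 u3 with ⟨rfl, h3⟩ | h3 | h3 <;> omega
  have k2 : ∀ (P Q : Fin 4 → ℕ → Prop) s s', s ≠ s' → (∀ s c, P s c → 1 ≤ c ∧ c ≤ N s) →
      (∀ s c, Q s c → c ≤ N s) → (∀ s c, ¬ (P s c ∧ Q s c)) →
      ∀ v, ¬ (v ∈ img n p P ∪ D s ∧ v ∈ img n p Q ∪ D s') := by
    rintro P Q s s' hs hP hQ hPQ v ⟨h1 | h1, h2 | h2⟩
    · refine h.img_disj (fun j b k c u1 u2 u3 => ?_) v ⟨h1, h2⟩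
      have := hP _ _ u1
      have := rng j
      rcases u3 with ⟨rfl, rfl⟩ | h3 | h3
      · exact hPQ _ _ ⟨u1, u2⟩
      all_goals omega
    · obtain ⟨j, b, -, u1, rfl⟩ := h1
      exact k1 _ _ (hP _ _ u1).2 _ h2
    · obtain ⟨j, b, -, u1, rfl⟩ := h2
      exact k1 _ _ (hQ _ _ u1) _ h1
    · exact T.disj _ _ hs v ⟨h1, h2⟩
  have cov := hg.cover (re _ _ r1) (re _ _ r2) (re _ _ r3) (re _ _ r4) fun v =>
    ⟨k2 _ _ _ _ hi.1 (by grind) (by grind) (by grind) v,
      k2 _ _ _ _ hi.2.1 (by grind) (by grind) (by grind) v,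
      k2 _ _ _ _ hi.2.2.1 (by grind) (by grind) (by grind) v,
      k2 _ _ _ _ hi.2.2.2.1 (by grind) (by grind) (by grind) v,
      k2 _ _ _ _ hi.2.2.2.2.1 (by grind) (by grind) (by grind) v,
      k2 _ _ _ _ hi.2.2.2.2.2 (by grind) (by grind) (by grind) v⟩
  have k3 : ∀ m e, e ≤ N m → ∀ (P : Fin 4 → ℕ → Prop) s, p m e ∈ img n p P ∪ D s →
      P m e ∨ (e = 0 ∧ ∃ s, P s 0) := by
    rintro m e he P s (⟨j, c, u1, u2, u3⟩ | hs)
    · have := rng m
      rcases (h.eq_iff u1 (by omega)).1 u3 with ⟨rfl, rfl⟩ | ⟨rfl, h3⟩ | h3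
      · exact Or.inl u2
      · exact Or.inr ⟨h3, j, u2⟩
      · omega
    · exact absurd hs (k1 _ _ he _)
  have := rng i
  constructor
  · have := cov (p i 0) (fun hh => by
      have := (h.eq_iff (by omega) (by omega)).1 hh
      unfold Eqc at this
      omega) (T.ne _ _ (by omega))
    rcases this with u | u | u | u <;> have := k3 _ _ (by omega) _ _ u <;> grind
  · intro m e e1 e2
    by_cases he : m = i ∧ e = a
    · exact Or.inl he
    have := rng m
    have := cov (p m e) (fun hh => by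
      have := (h.eq_iff (by omega) (by omega)).1 hh
      unfold Eqc at this
      omega) (T.ne _ _ e2)
    rcases this with u | u | u | u <;> have := k3 _ _ e2 _ _ u <;> grind

lemma en_of_good {N t D} (T : Tail G n p N t D) {i a} (hb : Big (cross G n p) i a)
    (a2 : a ≤ N i) (hN : ∀ j q, cross G n p i a j q → q ≤ N j) (hg : Good G (p i a) t) :
    En (cross G n p) i a := by
  have H := h.ax
  have a1 := (H.big_rng hb).1
  have rng := T.rng
  have ri := rng i
  have F := h.four T a1 a2 hg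
  have up : Rt G n p N (p i a) (fun s c => s = i ∧ a < c ∧ c ≤ N s) i := fun A hA hc =>
    h.mvi hc _ hA (by omega) (by omega) (by grind)
  have side : ∀ j q, cross G n p i a j q →
      Rt G n p N (p i a) (fun s c => s = j ∧ q ≤ c ∧ c ≤ N s) j := by
    intro j q he A hA hc
    have := hN _ _ he
    have := rng j
    exact h.mvi hc _ (cri hc hA he (by grind)) (by omega) (by omega) (by grind)
  have viax : ∀ l, Rt G n p N (p i a) (fun s c => s = i ∧ c < a ∨ s = l ∧ 1 ≤ c ∧ c ≤ N s) l := by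
    intro l A hA hc
    have := rng l
    exact h.mvi hc _ (h.jx l (h.mvi hc 0 hA (by omega) (by omega) (by grind))) (by omega)
      (by omega) (by grind)
  have viai : ∀ c l d, c < a → cross G n p i c l d →
      Rt G n p N (p i a) (fun s e => s = i ∧ c ≤ e ∧ e < a ∨ s = l ∧ d ≤ e ∧ e ≤ N s) l := by
    intro c l d hc' he A hA hc
    have := rng l
    have := T.clo _ _ _ _ he (by omega)
    exact h.mvi hc _ (cri hc (h.mvi hc c hA (by omega) (by omega) (by grind)) he (by grind))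
      (by omega) (by omega) (by grind)
  have viaj : ∀ j r c l d, cross G n p i a j r → c < N j → cross G n p j c l d →
      Rt G n p N (p i a) (fun s e => s = j ∧ (r ≤ e ∧ e ≤ c ∨ c ≤ e ∧ e ≤ r) ∨
        s = l ∧ d ≤ e ∧ e ≤ N s) l := by
    intro j r c l d hr hc' he A hA hc
    have := rng l
    have := rng j
    have := H.rng hr
    have := T.clo _ _ _ _ he hc'
    exact h.mvi hc _ (cri hc (h.mvi hc c (cri hc hA hr (by grind)) (by omega) (by omega)
      (by grind)) he (by grind)) (by omega) (by omega) (by grind)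
  have viajx : ∀ j r k, cross G n p i a j r →
      Rt G n p N (p i a) (fun s e => s = j ∧ e ≤ r ∨ s = k ∧ 1 ≤ e ∧ e ≤ N s) k := by
    intro j r k hr A hA hc
    have := rng k
    have := H.rng hr
    exact h.mvi hc _ (h.jx k (h.mvi hc 0 (cri hc hA hr (by grind)) (by omega) (by omega)
      (by grind))) (by omega) (by omega) (by grind)
  by_cases two : ∃ j q k r, j ≠ k ∧ cross G n p i a j q ∧ cross G n p i a k r
  · have B : ∀ j q k r, j ≠ k → cross G n p i a j q → cross G n p i a k r → q = 1 := by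
      intro j q k r hjk e1 e2
      have r1 := H.rng e1
      have r2 := H.rng e2
      obtain ⟨l, l1, l2, l3, -⟩ := fourth r1.1 r2.1 hjk
      have := (F _ _ _ _ (by grind) (by grind) (by grind) up (side _ _ e1) (side _ _ e2)
        (viax l)).2 j 1 le_rfl (rng j).1
      grind
    obtain ⟨j, q, k, r, hjk, e1, e2⟩ := two
    obtain rfl := B _ _ _ _ hjk e1 e2
    obtain rfl := B _ _ _ _ hjk.symm e2 e1
    have r1 := H.rng e1
    have r2 := H.rng e2
    refine Or.inr (Or.inl ⟨j, k, hjk, fun l d => ⟨fun e3 => ?_, ?_⟩, fun c hc l d e3 => ?_⟩)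
    · have r3 := H.rng e3
      by_cases h1 : l = j
      · exact ⟨Or.inl h1, B _ _ _ _ (h1 ▸ hjk) e3 e2⟩
      refine ⟨Or.inr ?_, B _ _ _ _ h1 e3 e1⟩
      by_contra h2
      have := (F _ _ _ _ (by grind) (by grind) (by grind) up (side _ _ e1) (side _ _ e2)
        (side _ _ e3)).1
      grind
    · rintro ⟨rfl | rfl, rfl⟩
      · exact e1
      · exact e2
    · have r3 := H.rng e3
      by_contra h2
      have := (F _ _ _ _ (by grind) (by grind) (by grind) up (side _ _ e1) (side _ _ e2)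
        (viai _ _ _ hc e3)).1
      grind
  push Not at two
  obtain ⟨j, q, r, hr, o1, o2, er⟩ : ∃ j q r, r < q ∧ cross G n p i a j q ∧
      (∀ k c, cross G n p i a k c → k = j ∧ c ≤ q) ∧ cross G n p i a j r := by
    classical
    obtain ⟨j, b, k, c, u1, u2, u3⟩ := hb
    have same : ∀ l d, cross G n p i a l d → l = j := fun l d hl => by
      by_contra hh
      exact two _ _ _ _ hh hl u2
    obtain rfl := same _ _ u3
    have w1 := Nat.le_findGreatest (P := cross G n p i a k) (H.rng u2).2.2.2.2 u2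
    have w2 := Nat.le_findGreatest (P := cross G n p i a k) (H.rng u3).2.2.2.2 u3
    have w3 := Nat.findGreatest_spec (P := cross G n p i a k) (H.rng u2).2.2.2.2 u2
    have w4 : ∀ l d, cross G n p i a l d →
        l = k ∧ d ≤ Nat.findGreatest (cross G n p i a k) (n k) := fun l d hl => by
      obtain rfl := same _ _ hl
      exact ⟨rfl, Nat.le_findGreatest (H.rng hl).2.2.2.2 hl⟩
    have : b ≠ c := fun hh => u1 (by rw [hh])
    rcases lt_or_gt_of_ne this with hh | hh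
    · exact ⟨k, _, b, by omega, w3, w4, u2⟩
    · exact ⟨k, _, c, by omega, w3, w4, u3⟩
  clear two
  by_cases ho : ∀ k c l d, ¬ Out (cross G n p) i a j q k c l d
  · exact Or.inl ⟨j, q, ⟨o1, o2⟩, ho⟩
  have rq := H.rng o1
  have qN := hN _ _ o1
  have rj := rng j
  have Ci : ∀ r c l d, r < q → cross G n p i a j r → c ≤ a → l ≠ j → cross G n p i c l d →
      c < a ∧ c = 1 ∧ d = 1 ∧ r + 1 = q := by
    intro r c l d hr er hc hl he
    have hc' : c < a := by
      rcases hc.eq_or_lt with rfl | hc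
      · exact absurd (o2 _ _ he).1 hl
      · exact hc
    have r1 := H.rng er
    have r3 := H.rng he
    have := T.clo _ _ _ _ he (by omega)
    obtain ⟨k, l1, l2, l3, -⟩ := fourth rq.1 r3.1 hl.symm
    have := (F _ _ _ _ (by grind) (by grind) (by grind) up (side _ _ o1) (viai _ _ _ hc' he)
      (viajx _ _ k er)).2
    have u1 := this i 1 le_rfl (rng i).1
    have u2 := this l 1 le_rfl (rng l).1
    have u3 := this j (r + 1) (by omega) (by omega)
    clear this
    refine ⟨hc', by grind, by grind, by grind⟩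
  have Cj : ∀ r c l d, r < q → cross G n p i a j r → c < q → l ≠ i → cross G n p j c l d →
      d = 1 ∧ (r = 1 ∨ c = 1) ∧ (r + 1 = q ∨ c + 1 = q) := by
    intro r c l d hr er hc hl he
    have r1 := H.rng er
    have r3 := H.rng he
    have := T.clo _ _ _ _ he (by omega)
    obtain ⟨k, l1, l2, l3, -⟩ := fourth rq.1 hl.symm r3.1
    have := (F _ _ _ _ (by grind) (by grind) (by grind) up (side _ _ o1)
      (viaj _ _ _ _ _ er (by omega) he) (viax k)).2
    have u1 := this j 1 le_rfl (rng j).1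
    have u2 := this l 1 le_rfl (rng l).1
    have u3 := this j (q - 1) (by omega) (by omega)
    clear this
    refine ⟨by grind, by grind, by grind⟩
  have St : ∀ c l d c' l' d', c ≤ a → l ≠ j → cross G n p i c l d → c' < q → l' ≠ i →
      cross G n p j c' l' d' → l = l' := by
    intro c l d c' l' d' hc hl he hc' hl' he'
    by_contra hh
    have r1 := H.rng er
    have r3 := H.rng he
    have r4 := H.rng he'
    have := (F _ _ _ _ (by grind) (by grind) (by grind) up (side _ _ o1)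
      (viai _ _ _ (Ci _ _ _ _ hr er hc hl he).1 he) (viaj _ _ _ _ _ er (by omega) he')).1
    grind
  clear F up side viax viai viaj viajx
  push Not at ho
  obtain ⟨k0, c0, l0, d0, w1, w2, w3, w4⟩ := ho
  have uniq : ∀ r', r' < q → cross G n p i a j r' → r' = r := by
    intro r' hr' er'
    rcases w1 with ⟨rfl, w1⟩ | ⟨rfl, w1⟩
    · have := Ci _ _ _ _ hr er w1 w3 w4
      have := Ci _ _ _ _ hr' er' w1 w3 w4
      omega
    · have := Cj _ _ _ _ hr er w1 w2 w4
      have := Cj _ _ _ _ hr' er' w1 w2 w4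
      have := H.rng er
      have := H.rng er'
      have := H.rng w4
      omega
  refine Or.inr (Or.inr ⟨j, r, q, hr, fun l d => ⟨fun he => ?_, ?_⟩, ?_⟩)
  · obtain ⟨rfl, u⟩ := o2 _ _ he
    have := uniq d
    exact ⟨rfl, by grind⟩
  · rintro ⟨rfl, rfl | rfl⟩
    · exact er
    · exact o1
  have rr := H.rng er
  by_cases hq : r + 1 = q
  · refine Or.inl ⟨hq, ?_, ?_⟩
    · rintro k c l d ⟨⟨rfl, u1⟩ | ⟨rfl, u1⟩, u2, u3, u4⟩
      · have := Ci _ _ _ _ hr er u1 u3 u4
        omega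
      · have := Cj _ _ _ _ hr er u1 u2 u4
        have := H.rng u4
        omega
    · rintro k c l d k' c' l' d' ⟨⟨rfl, u1⟩ | ⟨rfl, u1⟩, u2, u3, u4⟩
        ⟨⟨rfl, v1⟩ | ⟨rfl, v1⟩, v2, v3, v4⟩
      · exact Or.inl rfl
      · exact Or.inr (St _ _ _ _ _ _ u1 u3 u4 v1 v2 v4)
      · exact Or.inr (St _ _ _ _ _ _ v1 v3 v4 u1 u2 u4).symm
      · exact Or.inl rfl
  · have all : ∀ k c l d, Out (cross G n p) i a j q k c l d →
        r = 1 ∧ k = j ∧ c + 1 = q ∧ d = 1 := by
      rintro k c l d ⟨⟨rfl, u1⟩ | ⟨rfl, u1⟩, u2, u3, u4⟩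
      · have := Ci _ _ _ _ hr er u1 u3 u4
        omega
      · have := Cj _ _ _ _ hr er u1 u2 u4
        exact ⟨by omega, rfl, by omega, by omega⟩
    exact Or.inr ⟨(all _ _ _ _ ⟨w1, w2, w3, w4⟩).1, fun k c l d ho => (all _ _ _ _ ho).2⟩

lemma c1_of_good (hg : ∀ i a, 1 ≤ a → a < n i → Good G (p i a) y) : C1 n (cross G n p) := by
  have H := h.ax
  intro i a hb a2
  refine h.en_of_good (N := n) (t := y) (D := fun _ => ∅) ⟨fun m => ⟨h.one m, le_rfl⟩,
    fun j b k d he _ => (H.rng he).2.2.2.2, by simp, by simp, fun m A hA _ => ?_,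
    fun m e he => ?_⟩ hb a2.le (fun j q he => (H.rng he).2.2.2.2) (hg i a (H.big_rng hb).1 a2)
  · exact ⟨_, hA, h.py m ▸ h.step m le_rfl⟩
  · rw [← h.py m]
    intro hh
    have := (h.eq_iff (by omega) le_rfl).1 hh
    unfold Eqc at this
    omega

/-- a vertex that comes before a vertex of end type at `y` has end type at `x` -/
lemma en_of_ord (c1 : C1 n (cross G n p)) {i a k b} (hu : Big (cross G n p) k b)
    (a1 : 1 < a) (a2 : a ≤ n i) (ew : En (MP_ce5ee5_co.rev n (cross G n p)) i (n i + 1 - a))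
    (nw : ¬ Al (MP_ce5ee5_co.rev n (cross G n p)) i (n i + 1 - a)) (hik : i ≠ k)
    (ho : Ord (cross G n p) k b i a) (hg : Good G (p k b) (p i a)) : En (cross G n p) k b := by
  have H := h.ax
  obtain ⟨T, t1, t2, t3, -, D, d1, d2, d3⟩ := h.pY c1 a1.le a2 ew nw
  obtain ⟨-, o2, o3, o4⟩ := ho
  have rb := H.big_rng hu
  have tr : ∀ m, 1 ≤ T m ∧ T m ≤ n m := fun m => by
    have := t2 m
    grind
  refine h.en_of_good ⟨tr, t3, d1, d2, d3, fun m e he hh => ?_⟩ hu ?_ (fun j q he => ?_) hg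
  · have := tr m
    rcases (h.eq_iff (by omega) (by omega)).1 hh with ⟨rfl, h3⟩ | h3 | h3 <;> omega
  · rcases (t2 k hik.symm).2.2 with u | u
    · omega
    · exact (o2 _ u).le
  · have := H.rng he
    by_cases hj : j = i
    · subst hj
      have := o3 _ he
      omega
    rcases (t2 j hj).2.2 with u | u
    · omega
    · exact o4 _ _ _ he u

end IsBr

end Pool.Agent.Lib.MP_ce5ee5_co
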