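import Pool.Agent.Lib.MP_ce5ee5_co.K3Br

namespace Pool.Agent.Lib.MP_ce5ee5_co

open Set

variable {V : Type} {G : SimpleGraph V} {x y : V} {n : Fin 4 → ℕ} {p : Fin 4 → ℕ → V}

/-- no edge jumps over `c` -/
def Clo (E : Rl) (c : Fin 4 → ℕ) : Prop := ∀ j b k d, E j b k d → b < c j → d ≤ c k

/-- the combinatorial properties of the cross relation -/
structure Ax (n : Fin 4 → ℕ) (E : Rl) : Prop where
  one : ∀ i, 1 ≤ n i
  rng : ∀ {i a j b}, E i a j b → i ≠ j ∧ 1 ≤ a ∧ a ≤ n i ∧ 1 ≤ b ∧ b ≤ n j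
  symm : ∀ {i a j b}, E i a j b → E j b i a
  cut : ∀ i a, 1 ≤ a → a ≤ n i → ∃ c : Fin 4 → ℕ, c i = a ∧ (∀ j, 1 ≤ c j ∧ c j ≤ n j) ∧ Clo E c

lemma cross_adj {i a j b} (h : cross G n p i a j b) : G.Adj (p i a) (p j b) := h.2.2.2

lemma IsBr.ax (h : IsBr G x y n p) : Ax n (cross G n p) where
  one := h.one
  rng := fun h => ⟨h.1, h.2.1.1, h.2.1.2, h.2.2.1.1, h.2.2.1.2⟩
  symm := fun h => ⟨h.1.symm, h.2.2.1, h.2.1, h.2.2.2.symm⟩
  cut := fun i a h1 h2 => by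
    obtain ⟨c, c1, c2, c3⟩ := h.cut h1 h2
    refine ⟨c, c1, c2, fun j b k d he hb => ?_⟩
    by_contra hc
    exact c3 j k b d hb (by omega) (by have := he.2.2.1.2; omega) he.2.2.2

lemma cross_rev : cross G n (fun i a => p i (n i + 1 - a)) = rev n (cross G n p) := by
  funext i a j b
  simp only [cross, rev, mem_Icc, eq_iff_iff]
  constructor
  · rintro ⟨h1, h2, h3, h4⟩
    exact ⟨h1, by omega, by omega, h4⟩
  · rintro ⟨h1, h2, h3, h4⟩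
    exact ⟨h1, by omega, by omega, h4⟩

namespace Ax

variable {E : Rl} (H : Ax n E)
include H

lemma rv {i a j b} : rev n E i (n i + 1 - a) j (n j + 1 - b) ↔ E i a j b := by
  unfold rev
  constructor
  · intro h
    have := H.rng h
    rwa [show n i + 1 - (n i + 1 - a) = a by omega, show n j + 1 - (n j + 1 - b) = b by omega] at h
  · intro h
    have := H.rng h
    rwa [show n i + 1 - (n i + 1 - a) = a by omega, show n j + 1 - (n j + 1 - b) = b by omega]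

lemma rev_rev : rev n (rev n E) = E := by
  funext i a j b
  exact propext H.rv

/-- crossing edges between two paths are close -/
lemma mono {i a j b a' b'} (h1 : E i a j b) (h2 : E i a' j b') (h : a < a') : b ≤ b' + 1 := by
  by_contra hc
  have r1 := H.rng h1
  have r2 := H.rng h2
  obtain ⟨c, c1, -, c3⟩ := H.cut j (b' + 1) (by omega) (by omega)
  have e1 := c3 _ _ _ _ h1
  have e2 := c3 _ _ _ _ (H.symm h2)
  omega

end Ax

lemma Clo.sup {E : Rl} {c c' : Fin 4 → ℕ} (h : Clo E c) (h' : Clo E c') :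
    Clo E fun j => max (c j) (c' j) := fun j b k d he hb => by
  have := h j b k d he
  have := h' j b k d he
  beta_reduce at hb ⊢
  omega

lemma Clo.inf {E : Rl} {c c' : Fin 4 → ℕ} (h : Clo E c) (h' : Clo E c') :
    Clo E fun j => min (c j) (c' j) := fun j b k d he hb => by
  have := h j b k d he
  have := h' j b k d he
  beta_reduce at hb ⊢
  omega

namespace IsBr

variable (h : IsBr G x y n p)
include h

lemma adj4 {i a v} (h1 : 1 ≤ a) (h2 : a ≤ n i) (hv : G.Adj (p i a) v) :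
    v = p i (a + 1) ∨ v = p i (a - 1) ∨ ∃ j b, cross G n p i a j b ∧ v = p j b := by
  rcases h.adj_cases h1 h2 hv with h3 | h3 | ⟨j, b, h3, h4, h5, rfl⟩
  · exact Or.inl h3
  · exact Or.inr (Or.inl h3)
  · exact Or.inr (Or.inr ⟨j, b, ⟨h3, ⟨h1, h2⟩, ⟨h4, h5⟩, hv⟩, rfl⟩)

/-- separators given by positions -/
lemma sp (Φ : Fin 4 → ℕ → Prop) {i0 a0 j0 b0} (i1 a1 i2 a2 i3 a3 i4 a4)
    (hΦ : ∀ i a, Φ i a → 1 ≤ a ∧ a ≤ n i) (hu : Φ i0 a0) (hw : ¬ Φ j0 b0)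
    (hr : b0 ≤ n j0 + 1 ∧ a1 ≤ n i1 + 1 ∧ a2 ≤ n i2 + 1 ∧ a3 ≤ n i3 + 1 ∧ a4 ≤ n i4 + 1)
    (hsu : ¬ ((i0 = i1 ∧ a0 = a1) ∨ (i0 = i2 ∧ a0 = a2) ∨ (i0 = i3 ∧ a0 = a3) ∨
      (i0 = i4 ∧ a0 = a4)))
    (hsw : ¬ (Eqc n j0 b0 i1 a1 ∨ Eqc n j0 b0 i2 a2 ∨ Eqc n j0 b0 i3 a3 ∨ Eqc n j0 b0 i4 a4))
    (hp : ∀ i a b, Φ i a → b = a + 1 ∨ b + 1 = a → Φ i b ∨
      Eqc n i b i1 a1 ∨ Eqc n i b i2 a2 ∨ Eqc n i b i3 a3 ∨ Eqc n i b i4 a4)
    (hc : ∀ i a j b, Φ i a → cross G n p i a j b → Φ j b ∨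
      (j = i1 ∧ b = a1) ∨ (j = i2 ∧ b = a2) ∨ (j = i3 ∧ b = a3) ∨ (j = i4 ∧ b = a4)) :
    Sp G (p i0 a0) (p j0 b0) (p i1 a1) (p i2 a2) (p i3 a3) (p i4 a4) := by
  obtain ⟨r0, r1, r2, r3, r4⟩ := hr
  have hu' := hΦ _ _ hu
  have key : ∀ i b, b ≤ n i + 1 → Φ i b ∨
      Eqc n i b i1 a1 ∨ Eqc n i b i2 a2 ∨ Eqc n i b i3 a3 ∨ Eqc n i b i4 a4 →
      p i b ∈ {v | ∃ i a, Φ i a ∧ p i a = v} ∨ p i b = p i1 a1 ∨ p i b = p i2 a2 ∨
        p i b = p i3 a3 ∨ p i b = p i4 a4 := by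
    intro i b hb hh
    rw [h.eq_iff hb r1, h.eq_iff hb r2, h.eq_iff hb r3, h.eq_iff hb r4]
    exact hh.imp_left fun h1 => ⟨i, b, h1, rfl⟩
  refine ⟨{v | ∃ i a, Φ i a ∧ p i a = v}, ⟨i0, a0, hu, rfl⟩, ?_, ?_, ?_, ?_⟩
  · rintro ⟨i, a, h1, h2⟩
    have := hΦ _ _ h1
    rcases (h.eq_iff (by omega) r0).1 h2 with ⟨rfl, rfl⟩ | h3 | h3
    · exact hw h1
    all_goals omega
  · simp only [ne_eq, eq_comm (b := p i0 a0)]
    rw [h.eq_iff (by omega) r1, h.eq_iff (by omega) r2, h.eq_iff (by omega) r3,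
      h.eq_iff (by omega) r4]
    unfold Eqc
    omega
  · simp only [ne_eq, eq_comm (b := p j0 b0)]
    rw [h.eq_iff r0 r1, h.eq_iff r0 r2, h.eq_iff r0 r3, h.eq_iff r0 r4]
    simpa only [not_or] using hsw
  · rintro _ ⟨i, a, h1, rfl⟩ v hv
    have := hΦ _ _ h1
    rcases h.adj4 this.1 this.2 hv with rfl | rfl | ⟨j, b, h2, rfl⟩
    · exact key _ _ (by omega) (hp i a _ h1 (Or.inl rfl))
    · exact key _ _ (by omega) (hp i a _ h1 (Or.inr (by omega)))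
    · refine key _ _ (by have := h2.2.2.1.2; omega) ?_
      exact (hc i a j b h1 h2).imp_right (Or.imp Or.inl (Or.imp Or.inl (Or.imp Or.inl Or.inl)))

/-- a transversal without jumping edges separates what is before from what is after -/
lemma cut_sp {c : Fin 4 → ℕ} (hc : Clo (cross G n p) c) (hr : ∀ j, c j ≤ n j) {i a k b}
    (a1 : 1 ≤ a) (a2 : a < c i) (b1 : c k < b) (b2 : b ≤ n k + 1) (m : Fin 4) :
    ∃ s2 s3 s4, Sp G (p i a) (p k b) (p m (c m)) s2 s3 s4 := by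
  have ne1 : ∀ j, p j (c j) ≠ p i a := fun j he => by
    have := hr j
    have := hr i
    rcases (h.eq_iff (by omega) (by omega)).1 he with ⟨rfl, h3⟩ | h3 | h3 <;> omega
  have ne2 : ∀ j, p j (c j) ≠ p k b := fun j he => by
    have := hr j
    rcases (h.eq_iff (by omega) (by omega)).1 he with ⟨rfl, h3⟩ | h3 | h3 <;> omega
  have hS : ∀ j, p j (c j) = p 0 (c 0) ∨ p j (c j) = p 1 (c 1) ∨ p j (c j) = p 2 (c 2) ∨
      p j (c j) = p 3 (c 3) := fun j => by fin_cases j <;> simp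
  refine Sp.pick (s1 := p 0 (c 0)) (s2 := p 1 (c 1)) (s3 := p 2 (c 2)) (s4 := p 3 (c 3))
    ⟨{v | ∃ j d, d < c j ∧ (d = 0 → ∀ l, 1 ≤ c l) ∧ p j d = v}, ⟨i, a, a2, by omega, rfl⟩, ?_,
      ⟨ne1 _, ne1 _, ne1 _, ne1 _⟩, ⟨ne2 _, ne2 _, ne2 _, ne2 _⟩, ?_⟩ (hS m)
  · rintro ⟨j, d, h1, h2, he⟩
    have := hr j
    rcases (h.eq_iff (by omega) (by omega)).1 he with ⟨rfl, h3⟩ | h3 | h3 <;> omega
  have key : ∀ j d, d ≤ c j → p j d ∈ {v | ∃ j d, d < c j ∧ (d = 0 → ∀ l, 1 ≤ c l) ∧ p j d = v} ∨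
      p j d = p 0 (c 0) ∨ p j d = p 1 (c 1) ∨ p j d = p 2 (c 2) ∨ p j d = p 3 (c 3) := by
    intro j d hd
    rcases hd.eq_or_lt with rfl | hd
    · exact Or.inr (hS j)
    by_cases h0 : d = 0 → ∀ l, 1 ≤ c l
    · exact Or.inl ⟨j, d, hd, h0, rfl⟩
    push Not at h0
    obtain ⟨rfl, l, hl⟩ := h0
    right
    rw [h.px, ← h.px l, show 0 = c l by omega]
    exact hS l
  rintro _ ⟨j, d, h1, h2, rfl⟩ v hv
  have := hr j
  rcases Nat.eq_zero_or_pos d with rfl | d0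
  · rw [h.px] at hv
    obtain ⟨l, rfl⟩ := h.adj_x j hv
    exact key _ _ (h2 rfl l)
  rcases h.adj4 d0 (by omega) hv with rfl | rfl | ⟨l, e, h2, rfl⟩
  · exact key _ _ (by omega)
  · exact key _ _ (by omega)
  · exact key _ _ (hc _ _ _ _ h2 h1)

/-- vertices of degree at most three -/
lemma small {i a w} (a1 : 1 ≤ a) (a2 : a ≤ n i) (hb : ¬ Big (cross G n p) i a)
    (hne : p i a ≠ w) (hn : ¬ G.Adj (p i a) w) : Good G (p i a) w := by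
  have s1 := h.step i a2
  have s2 : G.Adj (p i a) (p i (a - 1)) := by
    have := h.step i (a := a - 1) (by omega)
    rw [show a - 1 + 1 = a by omega] at this
    exact this.symm
  obtain ⟨s, hs, hs'⟩ : ∃ s, G.Adj (p i a) s ∧ ∀ j b, cross G n p i a j b → p j b = s := by
    by_cases he : ∃ j b, cross G n p i a j b
    · obtain ⟨j, b, he⟩ := he
      refine ⟨p j b, cross_adj he, fun k c hk => ?_⟩
      by_contra hc
      exact hb ⟨j, b, k, c, fun h3 => hc (by cases h3; rfl), he, hk⟩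
    · exact ⟨_, s1, fun j b hj => absurd ⟨j, b, hj⟩ he⟩
  have nw : ∀ v, G.Adj (p i a) v → v ≠ w := fun v hv he => hn (he ▸ hv)
  refine Sp.good (s1 := s) (s2 := p i (a + 1)) (s3 := p i (a - 1))
    ⟨{p i a}, rfl, fun he => hne he.symm, ⟨hs.ne', hs.ne', s1.ne', s2.ne'⟩,
      ⟨nw _ hs, nw _ hs, nw _ s1, nw _ s2⟩, ?_⟩
  rintro _ rfl v hv
  rcases h.adj4 a1 a2 hv with rfl | rfl | ⟨l, e, h2, rfl⟩
  · simp
  · simp
  · simp [hs' _ _ h2]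

end IsBr

/-- `u` reaches a neighbour of `w` inside `D` -/
def Reach (G : SimpleGraph V) (D : Set V) (u w : V) : Prop :=
  ∀ A : Set V, u ∈ A → (∀ a ∈ A, ∀ b ∈ D, G.Adj a b → b ∈ A) → ∃ a ∈ A, G.Adj a w

lemma Good.cover {u w : V} (hg : Good G u w) {D1 D2 D3 D4 : Set V} (r1 : Reach G D1 u w)
    (r2 : Reach G D2 u w) (r3 : Reach G D3 u w) (r4 : Reach G D4 u w)
    (hd : ∀ v, ¬ (v ∈ D1 ∧ v ∈ D2) ∧ ¬ (v ∈ D1 ∧ v ∈ D3) ∧ ¬ (v ∈ D1 ∧ v ∈ D4) ∧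
      ¬ (v ∈ D2 ∧ v ∈ D3) ∧ ¬ (v ∈ D2 ∧ v ∈ D4) ∧ ¬ (v ∈ D3 ∧ v ∈ D4))
    (z : V) (hu : z ≠ u) (hw : z ≠ w) : z ∈ D1 ∨ z ∈ D2 ∨ z ∈ D3 ∨ z ∈ D4 := by
  by_contra hz
  obtain ⟨s2, s3, s4, A, h1, h2, h3, h4, h5⟩ := hg z hu hw
  have key : ∀ D, Reach G D u w → z ∉ D → s2 ∈ D ∨ s3 ∈ D ∨ s4 ∈ D := by
    intro D hD hzD
    by_contra hc
    obtain ⟨a, ha, hab⟩ := hD A h1 fun a ha b hb hab => by
      rcases h5 a ha b hab with h | rfl | rfl | rfl | rfl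
      · exact h
      all_goals tauto
    have := h5 a ha w hab
    tauto
  have k1 := key _ r1 (by tauto)
  have k2 := key _ r2 (by tauto)
  have k3 := key _ r3 (by tauto)
  have k4 := key _ r4 (by tauto)
  have d2 := hd s2
  have d3 := hd s3
  have d4 := hd s4
  clear key h5 h3 h4 hz hd
  grind

end Pool.Agent.Lib.MP_ce5ee5_co
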