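import Pool.Agent.Lib.MP_ce5ee5_co.K3Pair

namespace Pool.Agent.Lib.MP_ce5ee5_co

open Set

variable {V : Type} {G : SimpleGraph V} {x y : V} {n : Fin 4 → ℕ} {p : Fin 4 → ℕ → V}

namespace IsBr

variable (h : IsBr G x y n p)
include h

lemma hub_first (c1 : C1 n (cross G n p)) (c1' : C1 n (MP_ce5ee5_co.rev n (cross G n p))) {i k}
    (hw : Big (cross G n p) i 1) (hu : Big (cross G n p) k 1) (a1 : 1 < n i) (hk : n k = 1)
    (hik : i ≠ k) (na : ¬ cross G n p i 1 k 1) (hg : Good G (p i 1) (p k 1)) :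
    SepC n (cross G n p) i k ∨ Rule n (cross G n p) k 1 i 1 := by
  have H := h.ax
  by_cases w1 : Al (cross G n p) i 1
  · exact Or.inr ⟨a1, Or.inl w1⟩
  have ew := c1 i 1 hw a1
  by_cases o : Ord (cross G n p) i 1 k 1
  · exact Or.inr ⟨a1, Or.inr (Or.inl (h.enY_of_ord c1' hu le_rfl a1 ew w1 hik o hg.symm))⟩
  simp only [Ord, not_and_or, not_forall] at o
  rcases o with ⟨hh, -⟩ | ⟨d, hd, o⟩ | ⟨d, hd, o⟩ | ⟨j, d, c, e1, ec, hd⟩
  · exact absurd hh hik
  · have := H.rng hd
    obtain rfl : d = 1 := by omega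
    exact absurd (H.symm hd) na
  · have := H.rng hd
    obtain rfl : d = 1 := by omega
    exact absurd hd na
  have r1 := H.rng e1
  have rc := H.rng ec
  rcases typX ew w1 with ⟨j1, j2, -, t, -⟩ | ⟨j', r, q, t1, t2, t3, -⟩
  · have := ((t _ _).1 e1).2
    omega
  obtain ⟨rfl, v1⟩ := (t2 _ _).1 e1
  have er := (t2 j r).2 ⟨rfl, Or.inl rfl⟩
  have eq := (t2 j q).2 ⟨rfl, Or.inr rfl⟩
  have rq := H.rng eq
  have hc : c < q := by omega
  have lo : ∃ s d, (s = i ∧ d < 1 ∨ s = j ∧ d < q) ∧ cross G n p k 1 s d :=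
    ⟨j, c, Or.inr ⟨rfl, hc⟩, ec⟩
  have bad := fun s d => h.hub_bad hk er eq t1 hik rc.1.symm lo hg (s := s) (d := d)
  have oc : ∀ u b v d, Out (cross G n p) i 1 j q u b v d → u = j ∧ b = c := by
    intro u b v d ho
    have hc : Out (cross G n p) i 1 j q j c k 1 := ⟨Or.inr ⟨rfl, hc⟩, hik.symm, rc.1, H.symm ec⟩
    have hu : u = j := by
      obtain ⟨v1, v2, v3, v4⟩ := ho
      have := H.rng v4
      rcases v1 with ⟨rfl, v1⟩ | v1
      · obtain rfl : b = 1 := by omega
        exact absurd ((t2 _ _).1 v4).1 v3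
      · exact v1.1
    rcases t3 with ⟨-, t, -⟩ | ⟨-, -, t⟩
    · have := t _ _ _ _ ho
      have := t _ _ _ _ hc
      exact ⟨hu, by omega⟩
    · have := t _ _ _ _ ho
      have := t _ _ _ _ hc
      exact ⟨hu, by omega⟩
  obtain ⟨l, l1, l2, l3, l4⟩ := fourth r1.1 hik rc.1.symm
  have nb : ∀ m d, cross G n p k 1 m d → m = j ∧ d = c ∨ m = l := by
    intro m d he
    have := H.rng he
    have := bad m d
    have := oc m d k 1
    have := H.symm he
    have := l4 m
    grind [Out]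
  by_cases hs : ∀ m b d, m = i ∨ m = j ∧ q ≤ b → ¬ cross G n p m b l d
  · refine Or.inl ⟨j, c, r1.1.symm, rc.1.symm, by omega, by omega, fun m b v d u1 u2 u3 u4 => ?_⟩
    have := H.rng u4
    have := oc m b v d
    have := hs m b d
    have := nb m b
    have := H.symm u4
    have := l4 v
    grind [Out]
  obtain ⟨e, ee⟩ : ∃ e, cross G n p k 1 l e := by
    obtain ⟨j1, b1, j2, b2, u1, u2, u3⟩ := hu
    rcases nb _ _ u2 with ⟨rfl, rfl⟩ | rfl
    · rcases nb _ _ u3 with ⟨rfl, rfl⟩ | rfl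
      · exact absurd rfl u1
      · exact ⟨_, u3⟩
    · exact ⟨_, u2⟩
  have C := h.hub_cov hk er eq t1 hik rc.1.symm l1 l2 l3 lo hg
  have key : ∀ e m b f, cross G n p k 1 l e → m = i ∨ m = j ∧ q ≤ b → cross G n p m b l f →
      b = n m ∧ (e = 1 ∨ f = 1) ∧ (e = n l ∨ f = n l) := by
    intro e m b f ee hm he
    have re := H.rng ee
    have rf := H.rng he
    rcases hm with rfl | ⟨rfl, hm⟩
    · have : b ≠ 1 := by
        rintro rfl
        exact l2 ((t2 _ _).1 he).1
      have := C (fun u d => u = m ∧ 1 < d ∧ d ≤ b ∨ u = l ∧ (e ≤ d ∧ d ≤ f ∨ f ≤ d ∧ d ≤ e))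
        (fun u d => u = j ∧ q ≤ d) (by grind) (by grind [Eqc])
        (fun A hA hc => ⟨_, h.mvi hc e (cri hc (h.mvi hc b hA (by omega) (by omega) (by grind))
          he (by grind)) (by omega) (by omega) (by grind), (cross_adj ee).symm⟩)
        (fun A hA hc => ⟨_, h.mvi hc (n j + 1) (cri hc hA eq (by grind)) (by omega) (by omega)
          (by grind), h.last _ _ hk⟩)
      have u1 := this m (n m) (by simp; omega) le_rfl
      have u2 := this l 1 (by simp) (by omega)
      have u3 := this l (n l) (by simp; omega) le_rfl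
      clear this C
      grind
    · have := C (fun u d => u = m ∧ q ≤ d ∧ d ≤ b ∨ u = l ∧ (e ≤ d ∧ d ≤ f ∨ f ≤ d ∧ d ≤ e))
        (fun u d => u = i ∧ 1 < d) (by grind) (by grind [Eqc])
        (fun A hA hc => ⟨_, h.mvi hc e (cri hc (h.mvi hc b (cri hc hA eq (by grind)) (by omega)
          (by omega) (by grind)) he (by grind)) (by omega) (by omega) (by grind),
          (cross_adj ee).symm⟩)
        (fun A hA hc => ⟨_, h.mvi hc (n i + 1) hA (by omega) (by omega)
          (by grind), h.last _ _ hk⟩)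
      have u1 := this m (n m) (by simp; omega) le_rfl
      have u2 := this l 1 (by simp) (by omega)
      have u3 := this l (n l) (by simp; omega) le_rfl
      clear this C
      grind
  push Not at hs
  obtain ⟨m0, b0, f, hm0, ef⟩ := hs
  have k0 := key _ _ _ _ ee hm0 ef
  have re := H.rng ee
  have rf := H.rng ef
  refine Or.inr ⟨a1, Or.inr (Or.inr ⟨rfl, hk, j, q, c, l, e, f, ⟨eq, fun m d he => ?_⟩, hc, l1,
    l2, by omega, fun m d => ⟨fun he => ?_, ?_⟩, fun m b d hm he => ?_⟩)⟩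
  · have := (t2 _ _).1 he
    exact ⟨this.1, by omega⟩
  · rcases nb _ _ he with u | rfl
    · exact Or.inl u
    · have := key _ _ _ _ he hm0 ef
      have := H.rng he
      exact Or.inr ⟨rfl, by omega⟩
  · rintro (⟨rfl, rfl⟩ | ⟨rfl, rfl⟩)
    · exact ec
    · exact ee
  · have := key _ _ _ _ ee hm he
    have := H.rng he
    omega

lemma hub_last (c1 : C1 n (cross G n p)) (c1' : C1 n (MP_ce5ee5_co.rev n (cross G n p))) {i k}
    (hw : Big (cross G n p) i (n i)) (hu : Big (cross G n p) k 1) (a1 : 1 < n i) (hk : n k = 1)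
    (hik : i ≠ k) (na : ¬ cross G n p i (n i) k 1) (hg : Good G (p i (n i)) (p k 1)) :
    SepC n (cross G n p) i k ∨
      Rule n (MP_ce5ee5_co.rev n (cross G n p)) k (n k + 1 - 1) i (n i + 1 - n i) := by
  have H := h.ax
  have e1 : n i + 1 - n i = 1 := by omega
  have e2 : n k + 1 - 1 = 1 := by omega
  have e3 : n i + 1 - 1 = n i := by omega
  have := h.rev.hub_first (i := i) (k := k) (by rwa [cross_rev]) (by rwa [cross_rev, H.rev_rev])
    (by rw [cross_rev, ← e1]; exact H.big_rev hw) (by rw [cross_rev, ← e2]; exact H.big_rev hu)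
    a1 hk hik (by rw [cross_rev]; exact fun hh => na (H.rv.1 (by rwa [e1, e2])))
    (by rwa [e2, e3])
  rw [cross_rev] at this
  rw [e1, e2]
  exact this.imp_left fun hh => hh.rev H

lemma hub_mid (c1 : C1 n (cross G n p)) (c1' : C1 n (MP_ce5ee5_co.rev n (cross G n p))) {i a k}
    (hw : Big (cross G n p) i a) (hu : Big (cross G n p) k 1) (a1 : 1 < a) (a2 : a < n i)
    (hk : n k = 1) (hik : i ≠ k) (na : ¬ cross G n p i a k 1) (hg : Good G (p i a) (p k 1)) :
    SepC n (cross G n p) i k ∨ Rule n (cross G n p) k 1 i a ∨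
      Rule n (MP_ce5ee5_co.rev n (cross G n p)) k (n k + 1 - 1) i (n i + 1 - a) := by
  have H := h.ax
  by_cases w1 : Al (cross G n p) i a
  · exact Or.inr (Or.inl ⟨a2, Or.inl w1⟩)
  by_cases w2 : Al (MP_ce5ee5_co.rev n (cross G n p)) i (n i + 1 - a)
  · exact Or.inr (Or.inr ⟨by omega, Or.inl w2⟩)
  have ew := c1 i a hw a2
  have ew' := c1'.y H hw a1
  by_cases o1 : Ord (cross G n p) i a k 1
  · exact Or.inr (Or.inl ⟨a2, Or.inr (Or.inl
      (h.enY_of_ord c1' hu a1.le a2 ew w1 hik o1 hg.symm))⟩)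
  by_cases o2 : Ord (cross G n p) k 1 i a
  · refine Or.inr (Or.inr ⟨by omega, Or.inr (Or.inl ?_)⟩)
    rw [H.rev_rev, show n k + 1 - (n k + 1 - 1) = 1 by omega]
    exact h.en_of_ord c1 hu a1 a2.le ew' w2 hik o2 hg.symm
  left
  have nk : ∀ d, ¬ cross G n p i a k d := fun d hd => by
    have := H.rng hd
    obtain rfl : d = 1 := by omega
    exact na hd
  have nk' : ∀ d, cross G n p k 1 i d → d ≠ a := by
    rintro d hd rfl
    exact na (H.symm hd)
  rcases typX ew w1 with ⟨j1, j2, t1, t2, t3⟩ | ⟨j, r, q, t1, t2, t3, k0, c0, l0, d0, t4⟩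
  · exfalso
    refine o1 ⟨fun hh => absurd hh hik, fun d hd => ?_, fun d hd => absurd hd (nk d),
      fun m d d' u1 u2 => ?_⟩
    · by_contra hc
      have := nk' d hd
      rcases t3 d (by omega) _ _ (H.symm hd) with rfl | rfl
      · exact nk 1 ((t2 _ _).2 ⟨Or.inl rfl, rfl⟩)
      · exact nk 1 ((t2 _ _).2 ⟨Or.inr rfl, rfl⟩)
    · have := ((t2 _ _).1 u1).2
      have := H.rng u2
      omega
  have er := (t2 j r).2 ⟨rfl, Or.inl rfl⟩
  have eq := (t2 j q).2 ⟨rfl, Or.inr rfl⟩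
  have rr := H.rng er
  have rq := H.rng eq
  have hjk : j ≠ k := by
    rintro rfl
    exact nk _ er
  have lo : ∃ s d, (s = i ∧ d < a ∨ s = j ∧ d < q) ∧ cross G n p k 1 s d := by
    by_contra hc
    push Not at hc
    refine o1 ⟨fun hh => absurd hh hik, fun d hd => ?_, fun d hd => absurd hd (nk d),
      fun m d d' u1 u2 => ?_⟩
    · have := nk' d hd
      have := hc i d
      grind
    · have := (t2 _ _).1 u1
      have := hc m d'
      grind
  have bad := fun s d => h.hub_bad hk er eq t1 hik hjk lo hg (s := s) (d := d)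
  have hq : r + 1 < q := by
    by_contra hc
    refine o2 ⟨fun hh => absurd hh.symm hik, fun d hd => absurd hd (nk d), fun d hd => ?_,
      fun m d d' u1 u2 => ?_⟩
    · have := nk' d hd
      have := bad i d
      grind
    · have := (t2 _ _).1 u2
      have := bad m d
      grind
  rcases t3 with ⟨t3, -⟩ | ⟨-, rfl, t3⟩
  · omega
  rcases H.typY a2.le ew' w2 with ⟨j1, j2, -, s, -⟩ | ⟨j', q', r', s1, s2, s3, -⟩
  · have := ((s _ _).1 er).2
    omega
  obtain ⟨rfl, v1⟩ := (s2 _ _).1 er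
  obtain ⟨-, v2⟩ := (s2 _ _).1 eq
  rcases s3 with ⟨s3, -⟩ | ⟨-, s4, s3⟩
  · omega
  obtain rfl : q' = 1 := by omega
  have u1 := t3 _ _ _ _ t4
  have u2 := s3 k0 c0 l0 d0 ⟨Or.inr ⟨u1.1, by omega⟩, t4.2⟩
  refine ⟨j, 2, rr.1.symm, hjk, by omega, by omega, fun m b v d u1 u2 u3 u4 => ?_⟩
  have := t3 m b v d
  have := s3 m b v d
  grind [Out, OutY]

end IsBr

lemma SepLE.symm {k : ℕ} {u w : V} (h : SepLE G k u w) : SepLE G k w u := by
  obtain ⟨S, h1, h2, h3, h4⟩ := h
  refine ⟨S, h1, h3, h2, fun q => ?_⟩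
  simpa using h4 q.reverse

lemma IsBr.sep_of (h : IsBr G x y n p) {i a k b} (hs : SepC n (cross G n p) i k) (hik : i ≠ k)
    (a1 : 1 ≤ a) (a2 : a ≤ n i) (b2 : b ≤ n k) (w u : ({x, y}ᶜ : Set V)) (hw : w = p i a)
    (hu : u = p k b) : SepLE (G.induce _) 1 w u := by
  obtain ⟨j, c, h1, h2, h3, h4, h5⟩ := hs
  have H := h.ax
  have := h.nexy h3 h4
  refine ⟨{⟨p j c, by simp [this]⟩}, by simp, ?_, ?_, fun q => ?_⟩
  · simp only [Finset.mem_singleton, Subtype.ext_iff, hw]
    exact h.ne_of (by omega) h3 h4 (by omega)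
  · simp only [Finset.mem_singleton, Subtype.ext_iff, hu]
    exact h.ne_of (by omega) h3 h4 (by omega)
  have := walk_meets (G := G.induce ({x, y}ᶜ : Set V))
    (A := {v | ∃ m d, 1 ≤ d ∧ d ≤ n m ∧ (m = i ∨ m = j ∧ d ≠ c) ∧ p m d = v})
    (S := {v | v.1 = p j c}) ?_ q ⟨i, a, a1, a2, Or.inl rfl, hw.symm⟩ ?_
  · simpa [Subtype.ext_iff] using this
  · rintro ⟨_, hv0⟩ ⟨m, d, d1, d2, d3, rfl⟩ ⟨v, hv⟩ hadj
    simp only [mem_compl_iff, mem_insert_iff, mem_singleton_iff, not_or] at hv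
    have key : ∀ s e, (s = i ∨ s = j) → e ≤ n s + 1 → v = p s e →
        (∃ m d, 1 ≤ d ∧ d ≤ n m ∧ (m = i ∨ m = j ∧ d ≠ c) ∧ p m d = v) ∨ v = p j c := by
      rintro s e hs he rfl
      have e0 : e ≠ 0 := by rintro rfl; exact hv.1 (h.px s)
      have e1 : e ≠ n s + 1 := by rintro rfl; exact hv.2 (h.py s)
      by_cases hc : s = j ∧ e = c
      · exact Or.inr (by rw [hc.1, hc.2])
      · exact Or.inl ⟨s, e, by omega, by omega, by grind, rfl⟩
    rcases h.adj4 d1 d2 (v := v) hadj with h6 | h6 | ⟨s, e, h6, h7⟩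
    · exact key _ _ (by grind) (by omega) h6
    · exact key _ _ (by grind) (by omega) h6
    · have := h5 m d s e
      exact key _ _ (by grind) (by have := H.rng h6; omega) h7
  · rintro ⟨m, d, d1, d2, d3, he⟩
    rw [hu] at he
    exact h.ne_of (by omega) d1 d2 (by grind) he.symm

/-- separators of the graph without `x, y` -/
lemma lift_sep {w u : ({x, y}ᶜ : Set V)} [DecidableEq V] {S : Finset ({x, y}ᶜ : Set V)}
    (h3 : ∀ q : (G.induce _).Walk w u, ∃ v ∈ q.support, v ∈ S) (q : G.Walk w u) :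
    ∃ v ∈ q.support, v ∈ insert x (insert y (S.map (Function.Embedding.subtype _))) := by
  by_cases hx : x ∈ q.support
  · exact ⟨x, hx, by simp⟩
  by_cases hy : y ∈ q.support
  · exact ⟨y, hy, by simp⟩
  obtain ⟨a, ha, haS⟩ := h3 (q.induce {x, y}ᶜ fun a ha => by
    rintro (rfl | rfl)
    · exact hx ha
    · exact hy ha)
  refine ⟨a, ?_, Finset.mem_insert_of_mem (Finset.mem_insert_of_mem
    (Finset.mem_map_of_mem _ haS))⟩
  rw [SimpleGraph.Walk.support_induce] at ha
  simpa using ha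

lemma good_of_lift {w u : ({x, y}ᶜ : Set V)}
    (h : SepLE (G.induce _) 1 w u ∨ ∃ n' p', IsBr (r := 2) (G.induce _) w u n' p') :
    Good G w u := by
  classical
  have nm : ∀ (S : Finset ({x, y}ᶜ : Set V)) (v : ({x, y}ᶜ : Set V)), v ∉ S →
      v.1 ∉ insert x (insert y (S.map (Function.Embedding.subtype _))) := by
    rintro S ⟨v, hv⟩ h
    simp only [mem_compl_iff, mem_insert_iff, mem_singleton_iff, not_or] at hv
    simp [hv, h]
  have cd : ∀ S : Finset ({x, y}ᶜ : Set V),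
      (insert x (insert y (S.map (Function.Embedding.subtype _)))).card ≤ S.card + 2 :=
    fun S => (Finset.card_insert_le _ _).trans (by
      have := Finset.card_insert_le y (S.map (Function.Embedding.subtype _))
      simp only [Finset.card_map] at this
      omega)
  refine good_iff.2 fun z hw hu => ?_
  rcases h with ⟨S, h1, h2, h3, h4⟩ | ⟨n', p', h⟩
  · refine ⟨insert z (insert x (insert y (S.map (Function.Embedding.subtype _)))),
      (Finset.card_insert_le _ _).trans (by have := cd S; omega), by simp, ?_, ?_, fun q => ?_⟩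
    · rw [Finset.mem_insert, not_or]; exact ⟨hw.symm, nm S w h2⟩
    · rw [Finset.mem_insert, not_or]; exact ⟨hu.symm, nm S u h3⟩
    · obtain ⟨v, h5, h6⟩ := lift_sep h4 q
      exact ⟨v, h5, Finset.mem_insert_of_mem h6⟩
  by_cases hz : z ∈ ({x, y}ᶜ : Set V)
  · obtain ⟨S, h1, h2, h3, h4, h5⟩ := h.goodK ⟨z, hz⟩ (fun hh => hw (congrArg Subtype.val hh))
      (fun hh => hu (congrArg Subtype.val hh))
    exact ⟨_, by have := cd S; omega, Finset.mem_insert_of_mem (Finset.mem_insert_of_mem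
      (Finset.mem_map_of_mem _ h2)), nm S w h3, nm S u h4, lift_sep h5⟩
  · have := h.nexy (i := 0) le_rfl (h.one 0)
    obtain ⟨S, h1, -, h3, h4, h5⟩ := h.goodK _ this.1 this.2
    refine ⟨_, by have := cd S; omega, ?_, nm S w h3, nm S u h4, lift_sep h5⟩
    simp only [mem_compl_iff, mem_insert_iff, mem_singleton_iff, not_not] at hz
    rcases hz with rfl | rfl <;> simp

lemma hub_hub [Finite V] (hxy : x ≠ y) {w u : ({x, y}ᶜ : Set V)} (hne : w ≠ u)
    (na : ¬ G.Adj w u) (h1 : G.Adj w x) (h2 : G.Adj x u) (h3 : G.Adj w y) (h4 : G.Adj y u)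
    (hg : Good G w u) :
    SepLE (G.induce _) 1 w u ∨ ∃ n' p', IsBr (r := 2) (G.induce _) w u n' p' := by
  classical
  have := Fintype.ofFinite V
  by_cases hs : SepLE (G.induce _) 1 w u
  · exact Or.inl hs
  refine Or.inr ((braid_of_critical hne na hs fun z hw hu => ?_).isBr hne na)
  obtain ⟨S, s1, s2, s3, s4, s5⟩ := good_iff.1 hg z (fun hh => hw (Subtype.ext hh))
    (fun hh => hu (Subtype.ext hh))
  have hx : x ∈ S := by
    obtain ⟨v, v1, v2⟩ := s5 (.cons h1 (.cons h2 .nil))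
    simp only [SimpleGraph.Walk.support_cons, SimpleGraph.Walk.support_nil, List.mem_cons,
      List.not_mem_nil, or_false] at v1
    rcases v1 with rfl | rfl | rfl <;> first | exact v2 | contradiction
  have hy : y ∈ S := by
    obtain ⟨v, v1, v2⟩ := s5 (.cons h3 (.cons h4 .nil))
    simp only [SimpleGraph.Walk.support_cons, SimpleGraph.Walk.support_nil, List.mem_cons,
      List.not_mem_nil, or_false] at v1
    rcases v1 with rfl | rfl | rfl <;> first | exact v2 | contradiction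
  refine ⟨S.subtype (· ∈ ({x, y}ᶜ : Set V)), ?_, by simpa using s2, by simpa using s3,
    by simpa using s4, fun q => ?_⟩
  · rw [Finset.card_subtype]
    have : S.filter (· ∈ ({x, y}ᶜ : Set V)) = (S.erase x).erase y := by
      ext v; simp; tauto
    rw [this, Finset.card_erase_of_mem (by simp [hy, hxy.symm]), Finset.card_erase_of_mem hx]
    omega
  obtain ⟨v, hv, hvS⟩ := s5 (q.map (SimpleGraph.Embedding.induce _).toHom)
  obtain ⟨a, ha, rfl⟩ := List.mem_map.1
    ((SimpleGraph.Walk.support_map (SimpleGraph.Embedding.induce _).toHom q) ▸ hv)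
  exact ⟨a, ha, by simpa using hvS⟩

end Pool.Agent.Lib.MP_ce5ee5_co
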