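import Pool.Agent.Lib.MP_ce5ee5_co.K3Core

namespace Pool.Agent.Lib.MP_ce5ee5_co

open Set

variable {V : Type} {G : SimpleGraph V} {x y : V} {n : Fin 4 → ℕ} {p : Fin 4 → ℕ → V}

lemma Ax.two {E : Rl} {i a j b k c} (he : En E i a) (h1 : E i a j b) (h2 : E i a k c)
    (hjk : j ≠ k) : b = 1 := by
  rcases he with ⟨j', q, ⟨-, t⟩, -⟩ | ⟨j', k', -, t, -⟩ | ⟨j', q, r, -, t, -⟩
  · exact absurd ((t _ _ h1).1.trans (t _ _ h2).1.symm) hjk
  · exact ((t _ _).1 h1).2
  · exact absurd (((t _ _).1 h1).1.trans ((t _ _).1 h2).1.symm) hjk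

lemma Ax.twoY {E : Rl} (H : Ax n E) {i a j b k c} (he : En (rev n E) i (n i + 1 - a))
    (h1 : E i a j b) (h2 : E i a k c) (hjk : j ≠ k) : b = n j := by
  have := Ax.two he (H.rv.2 h1) (H.rv.2 h2) hjk
  have := H.rng h1
  omega

lemma Ax.order {E : Rl} (H : Ax n E) (c1 : C1 n E) (c1' : C1 n (rev n E)) (c2 : C2 E)
    {i a k b} (hw : Big E i a) (a2 : a < n i) (nw : ¬ Al E i a) (hu : Big E k b)
    (eu : En (rev n E) k (n k + 1 - b)) (nu : ¬ Al (rev n E) k (n k + 1 - b)) (hik : i ≠ k)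
    (na : ¬ E i a k b) : Ord E i a k b ∨ (b < n k ∧ 1 < a ∧ Ord E k b i a) := by
  have tw := typX (c1 i a hw a2) nw
  have rb := H.big_rng hu
  have tu := H.typY rb.2 eu nu
  have na' : ∀ d, E k b i d → d ≠ a := by
    rintro d hd rfl; exact na (H.symm hd)
  have na'' : ∀ d, E i a k d → d ≠ b := by
    rintro d hd rfl; exact na hd
  have f5 : ∀ m d d', E i a m d → E k b m d' → d ≤ d' := by
    intro m d d' h1 h2
    by_contra hc
    have r1 := H.rng h1
    rcases tu with ⟨j1, j2, -, t, -⟩ | ⟨j, q, r, t1, t2, t3, -⟩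
    · have := ((t _ _).1 h2).2
      omega
    · obtain ⟨rfl, t4⟩ := (t2 _ _).1 h2
      have ho : OutY E k b m q m d i a := ⟨Or.inr ⟨rfl, by omega⟩, hik, r1.1, H.symm h1⟩
      rcases t3 with ⟨-, t, -⟩ | ⟨-, -, t⟩
      · have := t _ _ _ _ ho
        omega
      · have := t _ _ _ _ ho
        omega
  by_cases f3 : ∀ d, E k b i d → a < d
  · refine Or.inl ⟨fun h => absurd h hik, f3, fun d hd => ?_, f5⟩
    by_contra hc
    have := na'' d hd
    have rd := H.rng hd
    rcases tw with ⟨j1, j2, -, t, -⟩ | ⟨j, r, q, t1, t2, t3, -⟩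
    · have := ((t _ _).1 hd).2
      omega
    obtain ⟨rfl, t4⟩ := (t2 _ _).1 hd
    have eq := (t2 k q).2 ⟨rfl, Or.inr rfl⟩
    have rq := H.rng eq
    have nb : ∀ m e, E k b m e → (m = i ∧ e = a + 1) ∨ (m ≠ i ∧ e = 1) := by
      intro m e he
      by_cases hm : m = i
      · subst hm
        have := f3 _ he
        have := H.mono he (H.symm eq) (by omega)
        exact Or.inl ⟨rfl, by omega⟩
      · have ho : Out E i a k q k b m e := ⟨Or.inr ⟨rfl, by omega⟩, hm, (H.rng he).1.symm, he⟩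
        rcases t3 with ⟨-, t, -⟩ | ⟨-, -, t⟩
        · exact Or.inr ⟨hm, (t _ _ _ _ ho).2⟩
        · exact Or.inr ⟨hm, (t _ _ _ _ ho).2.2⟩
    rcases tu with ⟨j1, j2, u1, u2, u3⟩ | ⟨j, q', r', u1, u2, -⟩
    · have ex := c1 k b hu (by omega)
      have e1 := (u2 j1 _).2 ⟨Or.inl rfl, rfl⟩
      have e2 := (u2 j2 _).2 ⟨Or.inr rfl, rfl⟩
      have := Ax.two ex e1 e2 u1
      have := Ax.two ex e2 e1 u1.symm
      rcases u3 q (by omega) _ _ (H.symm eq) with rfl | rfl <;> omega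
    · have := nb _ _ ((u2 j q').2 ⟨rfl, Or.inl rfl⟩)
      have := nb _ _ ((u2 j r').2 ⟨rfl, Or.inr rfl⟩)
      omega
  push Not at f3
  obtain ⟨d, hd, hda⟩ := f3
  have := na' d hd
  have rd := H.rng hd
  rcases tu with ⟨j1, j2, -, t, -⟩ | ⟨j, q', r', u1, u2, u3, -⟩
  · have := ((t _ _).1 hd).2
    omega
  obtain ⟨rfl, u4⟩ := (u2 _ _).1 hd
  have eq' := (u2 i q').2 ⟨rfl, Or.inl rfl⟩
  have er' := (u2 i r').2 ⟨rfl, Or.inr rfl⟩
  have rq' := H.rng eq'
  have rr' := H.rng er'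
  have hq : q' < a := by omega
  have := na' _ er'
  rcases tw with ⟨j1, j2, t1, t2, t3⟩ | ⟨j, r, q, t1, t2, -⟩
  · exfalso
    have ey := c1'.y H hw (by omega)
    have e1 := (t2 j1 _).2 ⟨Or.inl rfl, rfl⟩
    have e2 := (t2 j2 _).2 ⟨Or.inr rfl, rfl⟩
    have := H.twoY ey e1 e2 t1
    have := H.twoY ey e2 e1 t1.symm
    rcases t3 q' hq _ _ (H.symm eq') with rfl | rfl
    · have := na'' _ e1
      omega
    · have := na'' _ e2
      omega
  have er := (t2 j r).2 ⟨rfl, Or.inl rfl⟩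
  have eq := (t2 j q).2 ⟨rfl, Or.inr rfl⟩
  have rr := H.rng er
  have rq := H.rng eq
  obtain rfl : j = k := by
    by_contra hj
    have ho : OutY E k b i q' i a j r := ⟨Or.inr ⟨rfl, hq⟩, hj, rr.1.symm, er⟩
    rcases u3 with ⟨-, t, -⟩ | ⟨-, -, t⟩
    · have := t _ _ _ _ ho
      omega
    · have := t _ _ _ _ ho
      omega
  have := na'' _ er
  have := na'' _ eq
  have m1 := H.mono (H.symm eq') er hq
  by_cases hb : b < r
  · refine Or.inr ⟨by omega, by omega, fun h => absurd h.symm hik, fun e he => ?_,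
      fun e he => ?_, fun m e e' h1 h2 => ?_⟩
    · have := ((t2 _ _).1 he).2
      omega
    · obtain ⟨c, v1, -, v3⟩ := H.cut j r (by omega) (by omega)
      have := v3 _ _ _ _ er'
      have := v3 _ _ _ _ eq
      have := ((u2 _ _).1 he).2
      omega
    · exact absurd (((u2 _ _).1 h1).1.symm.trans ((t2 _ _).1 h2).1) hik
  exfalso
  obtain rfl : b = r + 1 := by omega
  have m2 := H.mono (H.symm er) eq' (by omega)
  obtain rfl : a = q' + 1 := by omega
  have m3 := H.mono er' (H.symm eq) (by omega)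
  obtain rfl : r' = q' + 2 := by omega
  have m4 := H.mono eq (H.symm er') (by omega)
  obtain rfl : q = r + 2 := by omega
  exact na (c2 _ _ _ _ er eq (H.symm eq') (H.symm er'))

namespace IsBr

variable (h : IsBr G x y n p)
include h

lemma al_goodY (c2 : C2 (cross G n p)) {i a k b} (hb : Big (cross G n p) i a)
    (ha : Al (MP_ce5ee5_co.rev n (cross G n p)) i (n i + 1 - a)) (hb' : Big (cross G n p) k b)
    (ne : ¬ (i = k ∧ a = b)) (na : ¬ G.Adj (p i a) (p k b)) : Good G (p i a) (p k b) := by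
  have H := h.ax
  have r1 := H.big_rng hb
  have r2 := H.big_rng hb'
  have := h.rev.al_good (i := i) (a := n i + 1 - a) (k := k) (b := n k + 1 - b)
    (by rw [cross_rev]; exact c2.rev H) (by rw [cross_rev]; exact H.big_rev hb)
    (by rwa [cross_rev]) (by rw [cross_rev]; exact H.big_rev hb')
    (by rintro ⟨rfl, h1⟩; exact ne ⟨rfl, by omega⟩)
  beta_reduce at this
  rw [show n i + 1 - (n i + 1 - a) = a by omega, show n k + 1 - (n k + 1 - b) = b by omega]
    at this
  exact this na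

lemma en_good (c1 : C1 n (cross G n p)) (c1' : C1 n (MP_ce5ee5_co.rev n (cross G n p)))
    (c2 : C2 (cross G n p)) {i a k b} (hw : Big (cross G n p) i a) (a2 : a < n i)
    (hu : Big (cross G n p) k b) (eu : En (MP_ce5ee5_co.rev n (cross G n p)) k (n k + 1 - b))
    (hik : i = k → a + 2 ≤ b) (na : ¬ G.Adj (p i a) (p k b)) : Good G (p i a) (p k b) := by
  have H := h.ax
  have ra := H.big_rng hw
  have rb := H.big_rng hu
  have ne : ¬ (i = k ∧ a = b) := by omega
  have ne' : ¬ (k = i ∧ b = a) := by omega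
  have na' : ¬ G.Adj (p k b) (p i a) := fun hh => na hh.symm
  by_cases w1 : Al (cross G n p) i a
  · exact h.al_good c2 hw w1 hu ne na
  by_cases u1 : Al (cross G n p) k b
  · exact (h.al_good c2 hu u1 hw ne' na').symm
  by_cases w2 : Al (MP_ce5ee5_co.rev n (cross G n p)) i (n i + 1 - a)
  · exact h.al_goodY c2 hw w2 hu ne na
  by_cases u2 : Al (MP_ce5ee5_co.rev n (cross G n p)) k (n k + 1 - b)
  · exact (h.al_goodY c2 hu u2 hw ne' na').symm
  obtain ⟨T, hT⟩ := h.pX c1' (c1 i a hw a2) w1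
  obtain ⟨T', hT'⟩ := h.pY c1 rb.1 rb.2 eu u2
  by_cases he : i = k
  · subst he
    have := hik rfl
    refine h.pair_core hT hT' ra.1 a2 rb.2 ⟨hik, fun d hd => absurd rfl (H.rng hd).1,
      fun d hd => absurd rfl (H.rng hd).1, fun m d d' h1 h2 => ?_⟩ na
    obtain ⟨c, v1, -, v3⟩ := H.cut i (a + 1) (by omega) (by omega)
    have := v3 _ _ _ _ h1
    have := v3 _ _ _ _ (H.symm h2)
    omega
  rcases H.order c1 c1' c2 hw a2 w1 hu eu u2 he (fun hh => na (cross_adj hh)) with ho |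
    ⟨b2, a1, ho⟩
  · exact h.pair_core hT hT' ra.1 a2 rb.2 ho na
  · obtain ⟨S, hS⟩ := h.pX c1' (c1 k b hu b2) u1
    obtain ⟨S', hS'⟩ := h.pY c1 ra.1 ra.2 (c1'.y H hw a1) w2
    exact (h.pair_core hS hS' rb.1 b2 ra.2 ho na').symm

lemma pat_good (c1 : C1 n (cross G n p)) (c1' : C1 n (MP_ce5ee5_co.rev n (cross G n p)))
    {i k} (hw : Big (cross G n p) i 1) (a2 : 1 < n i) (nw : ¬ Al (cross G n p) i 1)
    (hik : i ≠ k) (hp : Pat n (cross G n p) k i) (na : ¬ G.Adj (p i 1) (p k 1)) :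
    Good G (p i 1) (p k 1) := by
  have H := h.ax
  obtain ⟨p1, j, q, c, l, e, f, ⟨o1, o2⟩, p2, p3, p4, p5, p6, p7⟩ := hp
  have ec := (p6 j c).2 (Or.inl ⟨rfl, rfl⟩)
  have ee := (p6 l e).2 (Or.inr ⟨rfl, rfl⟩)
  have rc := H.rng ec
  have re := H.rng ee
  have rq := H.rng o1
  have oc : ∀ u b v d, Out (cross G n p) i 1 j q u b v d → u = j ∧ b = c := by
    intro u b v d ho
    have hc : Out (cross G n p) i 1 j q j c k 1 := ⟨Or.inr ⟨rfl, p2⟩, hik.symm, rc.1, H.symm ec⟩
    have hu : u = j := by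
      obtain ⟨v1, v2, v3, v4⟩ := ho
      have := H.rng v4
      rcases v1 with ⟨rfl, v1⟩ | v1
      · obtain rfl : b = 1 := by omega
        exact absurd (o2 _ _ v4).1 v3
      · exact v1.1
    rcases typX (c1 i 1 hw a2) nw with ⟨j1, j2, t1, t2, -⟩ | ⟨j', r, q', t1, t2, t3, -⟩
    · exact absurd ((o2 _ _ ((t2 j1 1).2 ⟨Or.inl rfl, rfl⟩)).1.trans
        (o2 _ _ ((t2 j2 1).2 ⟨Or.inr rfl, rfl⟩)).1.symm) t1
    obtain ⟨rfl, v1⟩ := (t2 _ _).1 o1
    have := (o2 _ _ ((t2 j q').2 ⟨rfl, Or.inr rfl⟩)).2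
    obtain rfl : q = q' := by omega
    rcases t3 with ⟨-, t, -⟩ | ⟨-, -, t⟩
    · have := t _ _ _ _ ho
      have := t _ _ _ _ hc
      exact ⟨hu, by omega⟩
    · have := t _ _ _ _ ho
      have := t _ _ _ _ hc
      exact ⟨hu, by omega⟩
  obtain ⟨T, t1, t2, t3, t4, -⟩ := h.pX c1' (c1 i 1 hw a2) nw
  have tj : T j = q := by
    have := t3 _ _ _ _ o1 (by omega)
    rcases (t2 j rq.1.symm).2.2 with hh | hh
    · omega
    · have := (o2 j (T j) hh).2
      omega
  have tk : T k = 1 := by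
    have := t2 k hik.symm
    omega
  have all : ∀ m, m = i ∨ m = j ∨ m = k ∨ m = l := by
    obtain ⟨l', u1, u2, u3, u4⟩ := fourth rq.1 hik rc.1.symm
    have := u4 l
    grind
  intro z hu hw'
  obtain ⟨m, t, e1, rfl⟩ := h.coords z
  by_cases h1 : t < T m
  · exact t4 k 1 (by omega) (by omega) na (fun hh => na (cross_adj hh)) m t h1 hu
  have K : ∀ s, 1 ≤ s → s ≤ n l →
      Sp G (p k 1) (p i 1) (p l s) (p j c) (p k 0) (p k (n k + 1)) := by
    intro s s1 s2
    refine h.sp (fun u d => u = k ∧ d = 1 ∨ u = l ∧ (e ≤ d ∧ d < s ∨ s < d ∧ d ≤ e))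
      l s j c k 0 k (n k + 1) ?_ ?_ ?_ ?_ ?_ ?_ ?_ ?_
    · grind
    · grind
    · grind
    · grind
    · grind
    · grind [Eqc]
    · grind (splits := 30) [Eqc]
    · intro u b v d hu he
      have := p6 v d
      have := p7 v d b
      have := oc v d u b
      have := H.symm he
      have := H.rng he
      have := all v
      clear p6 p7 oc all
      grind (splits := 30) [Out]
  by_cases hy : t = n m + 1
  · subst hy
    exact (K e re.2.2.2.1 re.2.2.2.2).symm.pick (by rw [h.py, h.py]; simp)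
  have tm : 1 ≤ T m := by
    have := t2 m
    grind
  have L : ∀ c' : Fin 4 → ℕ, Clo (cross G n p) c' → (∀ u, T u ≤ c' u) → c' i ≤ n i →
      c' j ≤ n j → Sp G (p i 1) (p k 1) (p i (c' i)) (p j (c' j)) (p j c) (p i 0) := by
    intro c' v1 v2 v3 v4
    have := v2 i
    have := v2 j
    refine h.sp (fun u d => 1 ≤ d ∧ d < c' u ∧ (u = i ∨ u = j ∧ d ≠ c))
      i (c' i) j (c' j) j c i 0 ?_ ?_ ?_ ?_ ?_ ?_ ?_ ?_
    · grind
    · grind
    · grind
    · grind
    · grind
    · grind [Eqc]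
    · grind (splits := 30) [Eqc]
    · intro u b v d hu he
      have := p6 u b
      have := p7 u b d
      have := oc u b v d
      have := H.symm he
      have := H.rng he
      have := all v
      have := v1 _ _ _ _ he
      clear p6 p7 oc all
      grind (splits := 30) [Out]
  obtain ⟨c', v1, v2, v3⟩ := H.cut m t (by omega) (by omega)
  have L' := L _ (t3.sup v3) (fun u => le_max_left _ _) (by have := v2 i; omega)
    (by have := v2 j; omega)
  beta_reduce at L'
  rcases all m with rfl | rfl | rfl | rfl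
  · exact L'.pick (Or.inl (by rw [show max (T m) (c' m) = t by omega]))
  · exact L'.pick (Or.inr (Or.inl (by rw [show max (T m) (c' m) = t by omega])))
  · exact absurd (by rw [show t = 1 by omega]) hw'
  · exact (K t (by omega) (by omega)).symm.pick (Or.inl rfl)

lemma rule_good (c1 : C1 n (cross G n p)) (c1' : C1 n (MP_ce5ee5_co.rev n (cross G n p)))
    (c2 : C2 (cross G n p)) {i a k b} (hw : Big (cross G n p) i a)
    (hu : Big (cross G n p) k b) (hik : i ≠ k) (hr : Rule n (cross G n p) k b i a)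
    (na : ¬ G.Adj (p i a) (p k b)) : Good G (p i a) (p k b) := by
  by_cases w1 : Al (cross G n p) i a
  · exact h.al_good c2 hw w1 hu (fun hh => hik hh.1) na
  obtain ⟨a2, r | r | ⟨rfl, r⟩⟩ := hr
  · exact absurd r w1
  · exact h.en_good c1 c1' c2 hw a2 hu r (fun hh => absurd hh hik) na
  · have := h.ax.big_rng hu
    obtain rfl : b = 1 := by have := r.1; omega
    exact h.pat_good c1 c1' hw a2 w1 hik r na

lemma rule_goodY (c1 : C1 n (cross G n p)) (c1' : C1 n (MP_ce5ee5_co.rev n (cross G n p)))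
    (c2 : C2 (cross G n p)) {i a k b} (hw : Big (cross G n p) i a)
    (hu : Big (cross G n p) k b) (hik : i ≠ k)
    (hr : Rule n (MP_ce5ee5_co.rev n (cross G n p)) k (n k + 1 - b) i (n i + 1 - a))
    (na : ¬ G.Adj (p i a) (p k b)) : Good G (p i a) (p k b) := by
  have H := h.ax
  have r1 := H.big_rng hw
  have r2 := H.big_rng hu
  have := h.rev.rule_good (i := i) (a := n i + 1 - a) (k := k) (b := n k + 1 - b)
    (by rwa [cross_rev]) (by rwa [cross_rev, H.rev_rev])
    (by rw [cross_rev]; exact c2.rev H) (by rw [cross_rev]; exact H.big_rev hw)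
    (by rw [cross_rev]; exact H.big_rev hu) hik (by rwa [cross_rev])
  beta_reduce at this
  rw [show n i + 1 - (n i + 1 - a) = a by omega, show n k + 1 - (n k + 1 - b) = b by omega]
    at this
  exact this na

end IsBr

end Pool.Agent.Lib.MP_ce5ee5_co
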