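import Pool.Agent.Lib.MP_ce5ee5_co.K3Type

namespace Pool.Agent.Lib.MP_ce5ee5_co

open Set

variable {V : Type} {G : SimpleGraph V} {x y : V} {n : Fin 4 → ℕ} {p : Fin 4 → ℕ → V}

def img (n : Fin 4 → ℕ) (p : Fin 4 → ℕ → V) (Φ : Fin 4 → ℕ → Prop) : Set V :=
  {v | ∃ j b, b ≤ n j + 1 ∧ Φ j b ∧ p j b = v}

lemma mem_img {Φ : Fin 4 → ℕ → Prop} {j b} (h1 : b ≤ n j + 1) (h2 : Φ j b) :
    p j b ∈ img n p Φ := ⟨j, b, h1, h2, rfl⟩

namespace IsBr

variable (h : IsBr G x y n p)
include h

lemma mv {A D : Set V} (hc : ∀ a ∈ A, ∀ b ∈ D, G.Adj a b → b ∈ A) {i a} (b : ℕ)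
    (ha : p i a ∈ A) (a2 : a ≤ n i + 1) (b2 : b ≤ n i + 1)
    (hD : ∀ c, (a < c ∧ c ≤ b) ∨ (b ≤ c ∧ c < a) → p i c ∈ D) : p i b ∈ A := by
  rcases le_total a b with hab | hab
  · induction b, hab using Nat.le_induction with
    | base => exact ha
    | succ b hb ih =>
      exact hc _ (ih (by omega) fun c hc' => hD c (by omega)) _ (hD _ (by omega))
        (h.step i (by omega))
  · induction hab using Nat.decreasingInduction with
    | self => exact ha
    | of_succ b hb ih =>
      exact hc _ (ih (by omega) fun c hc' => hD c (by omega)) _ (hD _ (by omega))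
        (h.step i (by omega)).symm

lemma mvi {A : Set V} {Φ : Fin 4 → ℕ → Prop}
    (hc : ∀ a ∈ A, ∀ b ∈ img n p Φ, G.Adj a b → b ∈ A) {i a} (b : ℕ)
    (ha : p i a ∈ A) (a2 : a ≤ n i + 1) (b2 : b ≤ n i + 1)
    (hD : ∀ c, (a < c ∧ c ≤ b) ∨ (b ≤ c ∧ c < a) → Φ i c) : p i b ∈ A :=
  h.mv hc b ha a2 b2 fun c hc' => mem_img (by omega) (hD c hc')

lemma jx {A : Set V} {i} (j) (ha : p i 0 ∈ A) : p j 0 ∈ A := by
  rwa [h.px, ← h.px j] at ha

lemma jy {A : Set V} {i} (j) (ha : p i (n i + 1) ∈ A) : p j (n j + 1) ∈ A := by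
  rwa [h.py, ← h.py j] at ha

lemma img_disj {Φ Ψ : Fin 4 → ℕ → Prop}
    (hd : ∀ j b k c, Φ j b → Ψ k c → ¬ Eqc n j b k c) (v : V) :
    ¬ (v ∈ img n p Φ ∧ v ∈ img n p Ψ) := by
  rintro ⟨⟨j, b, h1, h2, rfl⟩, k, c, h3, h4, h5⟩
  exact hd j b k c h2 h4 ((h.eq_iff h1 h3).1 h5.symm)

end IsBr

lemma cri {A : Set V} {Φ : Fin 4 → ℕ → Prop}
    (hc : ∀ a ∈ A, ∀ b ∈ img n p Φ, G.Adj a b → b ∈ A) {i a j b}
    (ha : p i a ∈ A) (he : cross G n p i a j b) (hb : Φ j b) : p j b ∈ A :=
  hc _ ha _ (mem_img (by have := he.2.2.1.2; omega) hb) (cross_adj he)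

/-- what a vertex of end type other than the first provides -/
def PX (G : SimpleGraph V) (n : Fin 4 → ℕ) (p : Fin 4 → ℕ → V) (i : Fin 4) (a : ℕ)
    (T : Fin 4 → ℕ) : Prop :=
  T i = a + 1 ∧ (∀ m, m ≠ i → 1 ≤ T m ∧ T m ≤ n m ∧ (T m = 1 ∨ cross G n p i a m (T m))) ∧
  Clo (cross G n p) T ∧
  (∀ m e, T m ≤ e → e ≤ n m + 1 → ¬ G.Adj (p i a) (p m e) → ¬ cross G n p i 1 m e →
    ∀ m' e', e' < T m' → p m' e' ≠ p i a → ∃ s2 s3 s4, Sp G (p i a) (p m e) (p m' e') s2 s3 s4) ∧
  ∃ D : Fin 4 → Set V, (∀ m, ∀ v ∈ D m, ∃ j b, b < T j ∧ p j b = v) ∧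
    (∀ m m', m ≠ m' → ∀ v, ¬ (v ∈ D m ∧ v ∈ D m')) ∧ ∀ m, Reach G (D m) (p m (T m)) (p i a)

lemma IsBr.px_beta (h : IsBr G x y n p) (c1 : C1 n (MP_ce5ee5_co.rev n (cross G n p))) {i a j k}
    (hb : Beta (cross G n p) i a j k) : ∃ T, PX G n p i a T := by
  have H := h.ax
  obtain ⟨b1, b2, b3⟩ := hb
  have ej := (b2 j 1).2 ⟨Or.inl rfl, rfl⟩
  have ek := (b2 k 1).2 ⟨Or.inr rfl, rfl⟩
  have rj := H.rng ej
  have rk := H.rng ek
  obtain ⟨l, l1, l2, l3, l4⟩ := fourth rj.1 rk.1 b1
  have hub : 1 < a → n j = 1 ∧ n k = 1 := by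
    intro ha
    have big : Big (cross G n p) i a := ⟨j, 1, k, 1, by simp [b1], ej, ek⟩
    rcases H.typY' rj.2.2.1 (c1.y H big ha) with ⟨j', q, -, t, -⟩ | ⟨j', k', -, t, -⟩ |
      ⟨j', q, r, -, t, -⟩
    · exact absurd ((t _ _ ej).1.trans (t _ _ ek).1.symm) b1
    · exact ⟨((t _ _).1 ej).2.symm, ((t _ _).1 ek).2.symm⟩
    · exact absurd (((t _ _).1 ej).1.trans ((t _ _).1 ek).1.symm) b1
  have hd : ∀ c ≤ a, ∀ m d, cross G n p i c m d → (m = j ∨ m = k) ∧ d = 1 := by
    intro c hc m d he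
    rcases hc.eq_or_lt with rfl | hc
    · exact (b2 _ _).1 he
    have r := H.rng he
    have := hub (by omega)
    have t := b3 c hc _ _ he
    refine ⟨t, ?_⟩
    rcases t with rfl | rfl <;> omega
  refine ⟨fun m => if m = i then a + 1 else 1, by simp, fun m hm => ?_, ?_, ?_, ?_⟩
  · simp [hm, h.one]
  · intro m b m' d he hlt
    have r := H.rng he
    have := hd b
    grind
  · intro m e e1 e2 na _ m' e' e3 ne
    have s1 := h.step i rj.2.2.1
    have t1 : ¬ Eqc n m e i (a + 1) := fun hh =>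
      na ((h.eq_iff e2 (by omega)).2 hh ▸ s1)
    have t2 : ¬ Eqc n m e j 1 := fun hh => na ((h.eq_iff e2 (by omega)).2 hh ▸ cross_adj ej)
    have t3 : ¬ Eqc n m e k 1 := fun hh => na ((h.eq_iff e2 (by omega)).2 hh ▸ cross_adj ek)
    obtain ⟨e0, e4, e5⟩ : ∃ e0, e0 < a ∧ p m' e' = p i e0 := by
      by_cases hm : m' = i
      · subst hm
        have : e' ≠ a := fun hh => ne (by rw [hh])
        exact ⟨e', by grind, rfl⟩
      · exact ⟨0, by omega, by rw [show e' = 0 by grind, h.px, h.px]⟩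
    rw [e5]
    refine ⟨_, _, _, h.sp (fun s c => s = i ∧ e0 < c ∧ c ≤ a) i e0 i (a + 1) j 1 k 1
      ?_ ?_ ?_ ?_ ?_ ?_ ?_ ?_⟩
    · grind
    · grind
    · grind
    · grind
    · grind
    · grind [Eqc]
    · grind [Eqc]
    · grind
  · refine ⟨fun m => img n p fun s c => m = l ∧ s = i ∧ c < a, ?_, ?_, ?_⟩
    · rintro m _ ⟨s, c, -, hs, rfl⟩
      exact ⟨s, c, by grind, rfl⟩
    · intro m m' hm
      exact h.img_disj (by grind)
    · intro m A hA hc
      rcases l4 m with rfl | rfl | rfl | rfl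
      · exact ⟨_, hA, by simpa using (h.step m rj.2.2.1).symm⟩
      · exact ⟨_, hA, by simpa [rj.1.symm] using (cross_adj ej).symm⟩
      · exact ⟨_, hA, by simpa [rk.1.symm] using (cross_adj ek).symm⟩
      · simp only [l1, if_false] at hA
        have a0 : p i 0 ∈ A := hc _ hA _ (mem_img (by omega) (by grind)) (by
          rw [h.px, ← h.px m]; exact (h.step m (a := 0) (by omega)).symm)
        refine ⟨_, h.mvi hc (a - 1) a0 (by omega) (by omega) (by grind), ?_⟩
        have := h.step i (a := a - 1) (by omega)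
        rwa [show a - 1 + 1 = a by omega] at this

lemma IsBr.prev (h : IsBr G x y n p) {i a} (a1 : 1 ≤ a) (a2 : a ≤ n i + 1) :
    G.Adj (p i (a - 1)) (p i a) := by
  have := h.step i (a := a - 1) (by omega)
  rwa [show a - 1 + 1 = a by omega] at this

lemma IsBr.first (h : IsBr G x y n p) (i m) : G.Adj (p m 1) (p i 0) := by
  rw [h.px, ← h.px m]; exact (h.step m (a := 0) (by omega)).symm

lemma IsBr.px_gd (h : IsBr G x y n p) (c1 : C1 n (MP_ce5ee5_co.rev n (cross G n p))) {i a j r q}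
    (hb : GD (cross G n p) i a j r q) : ∃ T, PX G n p i a T := by
  have H := h.ax
  obtain ⟨b1, b2, b3, k0, c0, l0, d0, b4⟩ := hb
  have er := (b2 j r).2 ⟨rfl, Or.inl rfl⟩
  have eq := (b2 j q).2 ⟨rfl, Or.inr rfl⟩
  have rr := H.rng er
  have rq := H.rng eq
  have od : ∀ k c l d, Out (cross G n p) i a j q k c l d → d = 1 := by
    intro k c l d ho
    rcases b3 with ⟨-, t, -⟩ | ⟨-, -, t⟩
    · exact (t _ _ _ _ ho).2
    · exact (t _ _ _ _ ho).2.2
  have m1 : ∀ c ≤ a, ∀ d, cross G n p i c j d → d ≤ q ∧ (c < a → d ≤ r + 1) := by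
    intro c hc d he
    rcases hc.eq_or_lt with rfl | hc
    · have := (b2 _ _).1 he
      omega
    · have := H.mono he er hc
      omega
  have m2 : ∀ c < q, ∀ d, cross G n p j c i d → d ≤ a + 1 := fun c hc d he =>
    H.mono he (H.symm eq) hc
  have rng := @H.rng
  obtain rfl := od _ _ _ _ b4
  obtain ⟨o1, o2, o3, o4⟩ := id b4
  have ro := H.rng o4
  have o5 : ¬ (k0 = i ∧ c0 = a) := by
    rintro ⟨rfl, rfl⟩
    exact o3 ((b2 _ _).1 o4).1
  refine ⟨fun m => if m = i then a + 1 else if m = j then q else 1, by simp, fun m hm => ?_,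
    ?_, ?_, ?_⟩
  · have := h.one m
    grind
  · intro m b m' d he hlt
    have := od m b m' d
    grind [Out]
  · intro m e e1 e2 na ne1 m' e' e3 ne
    have s1 := h.step i rq.2.2.1
    have t1 : ¬ Eqc n m e i (a + 1) := fun hh =>
      na ((h.eq_iff e2 (by omega)).2 hh ▸ s1)
    have t2 : ¬ Eqc n m e j q := fun hh => na ((h.eq_iff e2 (by omega)).2 hh ▸ cross_adj eq)
    have t4 : (m = i → a + 1 ≤ e) ∧ (m = j → q ≤ e) ∧ 1 ≤ e := by grind
    have zc : p m' e' = p i 0 ∨ (m' = i ∧ 1 ≤ e' ∧ e' < a) ∨ (m' = j ∧ 1 ≤ e' ∧ e' < q) := by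
      by_cases h0 : e' = 0
      · left; rw [h0, h.px, h.px]
      have : ¬ (m' = i ∧ e' = a) := by
        rintro ⟨rfl, rfl⟩; exact ne rfl
      grind
    clear e1 e3 ne na s1
    rcases b3 with ⟨g1, g2, g3⟩ | ⟨g1, g2, g3⟩
    · rcases zc with hz | ⟨rfl, z1, z2⟩ | ⟨rfl, z1, z2⟩
      · rw [hz]
        obtain ⟨s, t, s1, s2, s3, s4⟩ : ∃ s t, t ≤ n s ∧ ¬ (i = s ∧ a = t) ∧ ¬ Eqc n m e s t ∧
            ∀ k c l d, Out (cross G n p) i a j q k c l d → (k = s ∧ c = t) ∨ (l = s ∧ d = t) := by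
          by_cases ho : ∀ k c l d, Out (cross G n p) i a j q k c l d → k = k0
          · refine ⟨k0, c0, by omega, by grind, by grind [Eqc], fun k c l d hk => ?_⟩
            have := ho _ _ _ _ hk
            have := g2 _ _ _ _ hk
            have := g2 _ _ _ _ b4
            grind
          · push Not at ho
            obtain ⟨k1, c1, l1, d1, u1, u2⟩ := ho
            have f1 := g2 _ _ _ _ u1
            have f2 := g2 _ _ _ _ b4
            have f3 := g3 _ _ _ _ _ _ _ _ u1 b4
            refine ⟨l0, 1, by omega, by grind, by grind [Eqc, Out], fun k c l d hk => ?_⟩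
            have := g2 _ _ _ _ hk
            have := g3 _ _ _ _ _ _ _ _ hk u1
            have := g3 _ _ _ _ _ _ _ _ hk b4
            grind
        refine ⟨_, _, _, h.sp (fun u c => 1 ≤ c ∧ (u = i ∧ c ≤ a ∨ u = j ∧ c < q) ∧
          ¬ (u = s ∧ c = t)) i 0 i (a + 1) j q s t ?_ ?_ ?_ ?_ ?_ ?_ ?_ ?_⟩
        · grind
        · grind
        · grind
        · grind
        · grind
        · grind [Eqc]
        · grind [Eqc]
        · intro u c v d hu he
          have := s4 u c v d
          grind [Out]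
      · obtain ⟨c, u1, u2, u3⟩ := H.cut m' e' z1 (by omega)
        obtain ⟨t, v1, v2, v3, v4⟩ : ∃ t, 1 ≤ t ∧ t < q ∧ t ≤ c j ∧ (t = c j ∨ t + 1 = q) :=
          ⟨min (c j) (q - 1), by have := u2 j; omega⟩
        clear o1 o5 b4 g3 od u2
        refine ⟨_, _, _, h.sp (fun u d => u = m' ∧ e' < d ∧ d ≤ a ∨ u = j ∧ t < d ∧ d < q)
          m' e' m' (a + 1) j q j t ?_ ?_ ?_ ?_ ?_ ?_ ?_ ?_⟩
        · grind
        · grind
        · grind
        · grind
        · grind
        · grind [Eqc]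
        · grind [Eqc]
        · intro u b v d hu he
          have := g2 u b v d
          have := u3 v d u b (H.symm he)
          have := fun hh => m1 b hh d
          have := fun hh => m2 b hh d
          have := H.rng he
          clear t1 t2 t4 m1 m2 rng
          grind (splits := 30) [Out]
      · obtain ⟨c, u1, u2, u3⟩ := H.cut m' e' z1 (by omega)
        obtain ⟨t, v2, v3, v4⟩ : ∃ t, t < a ∧ t ≤ c i ∧ (t = c i ∨ t + 1 = a) :=
          ⟨min (c i) (a - 1), by omega⟩
        have u4 := u2 i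
        clear o1 o5 b4 g3 od u2
        refine ⟨_, _, _, h.sp (fun u d => u = m' ∧ e' < d ∧ d < q ∨ u = i ∧ t < d ∧ d ≤ a)
          m' e' i (a + 1) m' q i t ?_ ?_ ?_ ?_ ?_ ?_ ?_ ?_⟩
        · grind
        · grind
        · grind
        · grind
        · grind
        · grind [Eqc]
        · grind [Eqc]
        · intro u b v d hu he
          have := g2 u b v d
          have := u3 v d u b (H.symm he)
          have := b2 v d
          have := fun hh => m1 b hh d
          have := fun hh => m2 b hh d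
          have := H.rng he
          clear t1 t2 t4 m1 m2 rng
          grind (splits := 30) [Out]
    · subst g2
      have K : ∀ t, 2 ≤ t → t < q →
          Sp G (p i a) (p m e) (p i 0) (p j t) (p i (a + 1)) (p j q) := by
        intro t t1 t2
        refine h.sp (fun u d => 1 ≤ d ∧ (u = i ∧ d ≤ a ∨ u = j ∧ d < t)) i 0 j t i (a + 1) j q
          ?_ ?_ ?_ ?_ ?_ ?_ ?_ ?_
        · grind
        · grind
        · grind
        · grind
        · grind
        · grind [Eqc]
        · grind [Eqc]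
        · intro u b v d hu he
          have := g3 u b v d
          have := b2 v d
          grind [Out]
      rcases zc with hz | ⟨rfl, z1, z2⟩ | ⟨rfl, z1, z2⟩
      · rw [hz]
        exact ⟨_, _, _, K (q - 1) (by omega) (by omega)⟩
      · have no : ∀ c < a, ¬ cross G n p m' c j 2 := by
          intro c hc he
          obtain ⟨rfl, f1, -⟩ := g3 _ _ _ _ b4
          have big : Big (cross G n p) m' a := ⟨k0, 1, k0, q, by simp; omega, er, eq⟩
          have q3 : q = 3 := by
            rcases H.typY' rq.2.2.1 (c1.y H big (by omega)) with ⟨j', q', t1, t2, t3⟩ |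
              ⟨j', k', t1, t2, -⟩ | ⟨j', q', r', t1, t2, t3, -⟩
            · have := t2 _ _ er
              have := t3 k0 c0 l0 1
              grind [OutY]
            · grind
            · have := (t2 _ _).1 er
              have := (t2 _ _).1 eq
              rcases t3 with ⟨t3, -⟩ | ⟨-, -, t3⟩
              · omega
              · have := t3 k0 c0 l0 1
                grind [OutY]
          obtain rfl : c0 = 2 := by omega
          have he' := H.symm he
          have big2 : Big (cross G n p) k0 2 := ⟨m', c, l0, 1, by simp [o2.symm], he', o4⟩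
          rcases H.typY' ro.2.2.1 (c1.y H big2 (by omega)) with ⟨j', q', -, t, -⟩ |
            ⟨j', k', -, t, -⟩ | ⟨j', q', r', -, t, -⟩
          · exact o2 ((t _ _ o4).1.trans (t _ _ he').1.symm)
          · have := ((t _ _).1 he').2
            omega
          · exact o2 (((t _ _).1 o4).1.trans ((t _ _).1 he').1.symm)
        refine ⟨_, _, _, h.sp (fun u d => u = m' ∧ e' < d ∧ d ≤ a) m' e' m' (a + 1) j q j 1
          ?_ ?_ ?_ ?_ ?_ ?_ ?_ ?_⟩
        · grind
        · grind
        · grind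
        · grind
        · grind
        · grind [Eqc]
        · grind [Eqc]
        · intro u b v d hu he
          have := g3 u b v d
          have := b2 v d
          have := no b
          grind [Out]
      · by_cases h1 : e' = 1
        · subst h1
          refine ⟨_, _, _, h.sp (fun u d => u = i ∧ d = a) m' 1 i (a + 1) m' q i (a - 1)
            ?_ ?_ ?_ ?_ ?_ ?_ ?_ ?_⟩
          · grind
          · grind
          · grind
          · grind
          · grind
          · grind [Eqc]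
          · grind [Eqc]
          · grind
        · exact (K e' (by omega) z2).pick (by simp)
  · obtain ⟨k1, l1, l2, l3, l4⟩ := fourth rq.1 o2.symm o3.symm
    have T0 : (fun m => if m = i then a + 1 else if m = j then q else 1) l0 = 1 := by
      simp [o2, o3]
    have T1 : (fun m => if m = i then a + 1 else if m = j then q else 1) k1 = 1 := by
      simp [l1, l2]
    rcases o1 with ⟨rfl, o1⟩ | ⟨rfl, o1⟩
    · refine ⟨fun m => img n p fun s c => m = l0 ∧ s = k0 ∧ 1 ≤ c ∧ c < a ∨
        m = k1 ∧ s = j ∧ c < q, ?_, ?_, ?_⟩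
      · rintro m _ ⟨s, c, -, hs, rfl⟩
        exact ⟨s, c, by grind, rfl⟩
      · intro m m' hm
        exact h.img_disj (by grind [Eqc])
      · intro m A hA hc
        rcases l4 m with rfl | rfl | rfl | rfl
        · exact ⟨_, hA, by simpa using (h.step m rq.2.2.1).symm⟩
        · exact ⟨_, hA, by simpa [rq.1.symm] using (cross_adj eq).symm⟩
        · rw [T0] at hA
          have a0 := cri hc hA (H.symm o4) (by grind)
          exact ⟨_, h.mvi hc (a - 1) a0 (by omega) (by omega) (by grind),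
            h.prev (by omega) (by omega)⟩
        · rw [T1] at hA
          have a0 : p j 0 ∈ A := hc _ hA _ (mem_img (by omega) (by grind)) (h.first _ _)
          exact ⟨_, h.mvi hc r a0 (by omega) (by omega) (by grind), (cross_adj er).symm⟩
    · refine ⟨fun m => img n p fun s c => m = l0 ∧ s = k0 ∧ 1 ≤ c ∧ c < q ∨
        m = k1 ∧ s = i ∧ c < a, ?_, ?_, ?_⟩
      · rintro m _ ⟨s, c, -, hs, rfl⟩
        exact ⟨s, c, by grind, rfl⟩
      · intro m m' hm
        exact h.img_disj (by grind [Eqc])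
      · intro m A hA hc
        rcases l4 m with rfl | rfl | rfl | rfl
        · exact ⟨_, hA, by simpa using (h.step m rq.2.2.1).symm⟩
        · exact ⟨_, hA, by simpa [rq.1.symm] using (cross_adj eq).symm⟩
        · rw [T0] at hA
          have a0 := cri hc hA (H.symm o4) (by grind)
          exact ⟨_, h.mvi hc r a0 (by omega) (by omega) (by grind), (cross_adj er).symm⟩
        · rw [T1] at hA
          have a0 : p i 0 ∈ A := hc _ hA _ (mem_img (by omega) (by grind)) (h.first _ _)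
          exact ⟨_, h.mvi hc (a - 1) a0 (by omega) (by omega) (by grind),
            h.prev (by omega) (by omega)⟩

lemma IsBr.pX (h : IsBr G x y n p) (c1 : C1 n (MP_ce5ee5_co.rev n (cross G n p))) {i a}
    (he : En (cross G n p) i a) (ha : ¬ Al (cross G n p) i a) : ∃ T, PX G n p i a T := by
  rcases typX he ha with ⟨j, k, hb⟩ | ⟨j, r, q, hb⟩
  · exact h.px_beta c1 hb
  · exact h.px_gd c1 hb

end Pool.Agent.Lib.MP_ce5ee5_co
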