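import Pool.Agent.Lib.MP_ce5ee5_co.K3Hub
import Pool.Agent.Lib.MP_ce5ee5_co.K3If

namespace Pool.Agent.Lib.MP_ce5ee5_co

open Set

variable {V : Type} {G : SimpleGraph V} {x y : V} {n : Fin 4 → ℕ} {p : Fin 4 → ℕ → V}

namespace IsBr

variable (h : IsBr G x y n p)
include h

lemma good_int_y (c1 : C1 n (cross G n p)) (c1' : C1 n (MP_ce5ee5_co.rev n (cross G n p))) {u}
    (hx : u ≠ x) (hy : u ≠ y) (na : ¬ G.Adj u y) : Good G u y := by
  obtain ⟨i, a, a1, a2, rfl⟩ := h.cov hx hy
  by_cases hb : Big (cross G n p) i a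
  · have : a ≠ n i := by
      rintro rfl
      exact na (h.py i ▸ h.step i le_rfl)
    exact h.goodY c1' hb (by omega) (c1 i a hb (by omega))
  · exact h.small a1 a2 hb hy na

lemma good_of_cond (hc : Cond G x y n p) (u w : V) (hne : u ≠ w) (na : ¬ G.Adj u w) :
    Good G u w := by
  have H := h.ax
  obtain ⟨k1, c2, c3⟩ := hc
  have c1 : C1 n (cross G n p) := k1 _ (Or.inl rfl)
  have c1' : C1 n (MP_ce5ee5_co.rev n (cross G n p)) := k1 _ (Or.inr rfl)
  have gxy : Good G x y := good_iff.2 h.goodK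
  have gy := @h.good_int_y _ _ _ _ _ _ c1 c1'
  have gx := @h.rev.good_int_y _ _ _ _ _ _ (by rwa [cross_rev]) (by rwa [cross_rev, H.rev_rev])
  have na' : ¬ G.Adj w u := fun hh => na hh.symm
  by_cases ux : u = x
  · subst ux
    by_cases wy : w = y
    · rw [wy]; exact gxy
    · exact (gx wy hne.symm na').symm
  by_cases uy : u = y
  · subst uy
    by_cases wx : w = x
    · rw [wx]; exact gxy.symm
    · exact (gy wx hne.symm na').symm
  by_cases wx : w = x
  · subst wx; exact gx uy ux na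
  by_cases wy : w = y
  · subst wy; exact gy ux uy na
  obtain ⟨i, a, a1, a2, rfl⟩ := h.cov ux uy
  obtain ⟨k, b, b1, b2, rfl⟩ := h.cov wx wy
  by_cases hu : Big (cross G n p) i a
  swap
  · exact h.small a1 a2 hu hne na
  by_cases hw : Big (cross G n p) k b
  swap
  · exact (h.small b1 b2 hw hne.symm na').symm
  by_cases hik : i = k
  · subst hik
    have e1 : a ≠ b := fun hh => hne (by rw [hh])
    have e2 : a + 1 ≠ b := by rintro rfl; exact na (h.step i a2)
    have e3 : b + 1 ≠ a := by rintro rfl; exact na' (h.step i b2)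
    rcases lt_or_gt_of_ne e1 with hh | hh
    · exact h.en_good c1 c1' c2 hu (by omega) hw (c1'.y H hw (by omega)) (by omega) na
    · exact (h.en_good c1 c1' c2 hw (by omega) hu (c1'.y H hu (by omega)) (by omega) na').symm
  rcases c3 i a k b ⟨p i a, by simp [ux, uy]⟩ ⟨p k b, by simp [wx, wy]⟩ rfl rfl hik hu hw na with
    r | r | r | r | r | r
  · exact good_of_lift (Or.inl r)
  · exact good_of_lift (Or.inr r)
  · exact h.rule_good c1 c1' c2 hu hw hik r na
  · exact (h.rule_good c1 c1' c2 hw hu (Ne.symm hik) r na').symm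
  · exact h.rule_goodY c1 c1' c2 hu hw hik r na
  · exact (h.rule_goodY c1 c1' c2 hw hu (Ne.symm hik) r na').symm

lemma cond_of_good [Finite V] (hg : ∀ u w, u ≠ w → ¬ G.Adj u w → Good G u w) :
    Cond G x y n p := by
  have H := h.ax
  have K : ∀ {x y : V} {p : Fin 4 → ℕ → V}, IsBr G x y n p → C1 n (cross G n p) := by
    intro x y p h
    refine h.c1_of_good fun i a a1 a2 => hg _ _ (h.nexy a1 a2.le).2 ?_
    rw [← h.py i]
    exact h.same (by omega) le_rfl
  have c1 := K h
  have c1' := K h.rev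
  rw [cross_rev] at c1'
  refine ⟨?_, h.c2_of_good hg, fun i a k b w u hw hu hik bw bu na => ?_⟩
  · rintro E (rfl | rfl)
    · exact c1
    · exact c1'
  have ra := H.big_rng bw
  have rb := H.big_rng bu
  have hne : p i a ≠ p k b := h.ne_of (by omega) rb.1 rb.2 (fun hh => hik hh.1)
  have g := hg _ _ hne (by rwa [← hw, ← hu])
  have nc : ¬ cross G n p i a k b := fun hh => na (by rw [hw, hu]; exact cross_adj hh)
  have nc' : ¬ cross G n p k b i a := fun hh => nc (H.symm hh)
  have s1 := fun hs => h.sep_of hs hik ra.1 ra.2 rb.2 w u hw hu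
  have s2 := fun hs => (h.sep_of hs (Ne.symm hik) rb.1 rb.2 ra.2 u w hu hw).symm
  by_cases h1 : a < n i ∧ 1 < b
  · exact Or.inr (Or.inr (Or.inl ⟨h1.1, Or.inr (Or.inl (c1'.y H bu h1.2))⟩))
  by_cases h2 : b < n k ∧ 1 < a
  · exact Or.inr (Or.inr (Or.inr (Or.inl ⟨h2.1, Or.inr (Or.inl (c1'.y H bw h2.2))⟩)))
  by_cases hk : n k = 1
  · obtain rfl : b = 1 := by omega
    by_cases hi : n i = 1
    · obtain rfl : a = 1 := by omega
      have := hub_hub h.ne (w := w) (u := u) (fun hh => hne (by rw [← hw, ← hu, hh])) na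
        (by rw [hw, ← h.px i]; exact h.first _ _) (by rw [hu, ← h.px i]; exact (h.first _ _).symm)
        (by rw [hw, ← h.py i]; exact (h.last _ _ hi).symm)
        (by rw [hu, ← h.py i]; exact h.last _ _ hk) (by rwa [hw, hu])
      exact this.imp_right Or.inl
    by_cases a1 : a = 1
    · subst a1
      rcases h.hub_first c1 c1' bw bu (by omega) hk hik nc g with r | r
      · exact Or.inl (s1 r)
      · exact Or.inr (Or.inr (Or.inl r))
    by_cases a2 : a = n i
    · subst a2
      rcases h.hub_last c1 c1' bw bu (by omega) hk hik nc g with r | r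
      · exact Or.inl (s1 r)
      · exact Or.inr (Or.inr (Or.inr (Or.inr (Or.inl r))))
    rcases h.hub_mid c1 c1' bw bu (by omega) (by omega) hk hik nc g with r | r | r
    · exact Or.inl (s1 r)
    · exact Or.inr (Or.inr (Or.inl r))
    · exact Or.inr (Or.inr (Or.inr (Or.inr (Or.inl r))))
  by_cases hi : n i = 1
  · obtain rfl : a = 1 := by omega
    by_cases b1 : b = 1
    · subst b1
      rcases h.hub_first c1 c1' bu bw (by omega) hi (Ne.symm hik) nc' g.symm with r | r
      · exact Or.inl (s2 r)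
      · exact Or.inr (Or.inr (Or.inr (Or.inl r)))
    by_cases b2 : b = n k
    · subst b2
      rcases h.hub_last c1 c1' bu bw (by omega) hi (Ne.symm hik) nc' g.symm with r | r
      · exact Or.inl (s2 r)
      · exact Or.inr (Or.inr (Or.inr (Or.inr (Or.inr r))))
    rcases h.hub_mid c1 c1' bu bw (by omega) (by omega) hi (Ne.symm hik) nc' g.symm with r | r | r
    · exact Or.inl (s2 r)
    · exact Or.inr (Or.inr (Or.inr (Or.inl r)))
    · exact Or.inr (Or.inr (Or.inr (Or.inr (Or.inr r))))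
  have := h.one i
  have := h.one k
  rcases (by omega : a = n i ∧ b = n k ∨ a = 1 ∧ b = 1) with ⟨rfl, rfl⟩ | ⟨rfl, rfl⟩
  · exact Or.inr (Or.inr (Or.inr (Or.inr
      (h.both_last c1 c1' bw bu (by omega) (by omega) hik nc g))))
  · rcases h.both_first c1 c1' bw bu (by omega) (by omega) hik nc g with r | r
    · exact Or.inr (Or.inr (Or.inl r))
    · exact Or.inr (Or.inr (Or.inr (Or.inl r)))

end IsBr

theorem inF_three [Finite V] (F : SimpleGraph V) :
    InF 3 F ↔ ∃ x y n p, IsBr (r := 4) F x y n p ∧ Cond F x y n p := by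
  classical
  have := Fintype.ofFinite V
  rw [inF_iff]
  constructor
  · rintro ⟨⟨x, y, hxy, hn, hs⟩, hg⟩
    obtain ⟨n, p, h⟩ := (braid_of_critical hxy hn hs (hg x y hxy hn)).isBr hxy hn
    exact ⟨x, y, n, p, h, h.cond_of_good fun u w h1 h2 => good_iff.2 (hg u w h1 h2)⟩
  · rintro ⟨x, y, n, p, h, hc⟩
    exact ⟨⟨x, y, h.ne, h.nadj 0, h.not_sepLE⟩,
      fun u w h1 h2 => good_iff.1 (h.good_of_cond hc u w h1 h2)⟩

end Pool.Agent.Lib.MP_ce5ee5_co
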