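import Pool.Agent.Lib.MP_ce5ee5_co.K3End

namespace Pool.Agent.Lib.MP_ce5ee5_co

open Set

variable {V : Type} {G : SimpleGraph V} {x y : V} {n : Fin 4 → ℕ} {p : Fin 4 → ℕ → V}

lemma Ord.rev {E : Rl} (H : Ax n E) {i a k b} (a2 : a ≤ n i) (b2 : b ≤ n k) (hik : i ≠ k)
    (ho : Ord E i a k b) : Ord (rev n E) k (n k + 1 - b) i (n i + 1 - a) := by
  obtain ⟨-, o2, o3, o4⟩ := ho
  refine ⟨fun hh => absurd hh.symm hik, fun d hd => ?_, fun d hd => ?_, fun m d d' h1 h2 => ?_⟩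
  · obtain ⟨u1, u2, u3⟩ := H.rv' a2 hd
    have := o3 _ u1
    omega
  · obtain ⟨u1, u2, u3⟩ := H.rv' b2 hd
    have := o2 _ u1
    omega
  · obtain ⟨u1, u2, u3⟩ := H.rv' b2 h1
    obtain ⟨v1, v2, v3⟩ := H.rv' a2 h2
    have := o4 _ _ _ v1 u1
    omega

/-- all edges from paths `i, j` to the other two start at one vertex of path `j` -/
def SepC (n : Fin 4 → ℕ) (E : Rl) (i k : Fin 4) : Prop :=
  ∃ j c, j ≠ i ∧ j ≠ k ∧ 1 ≤ c ∧ c ≤ n j ∧
    ∀ m b v d, m = i ∨ m = j → v ≠ i → v ≠ j → E m b v d → m = j ∧ b = c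

lemma SepC.rev {E : Rl} (H : Ax n E) {i k} (h : SepC n (rev n E) i k) : SepC n E i k := by
  obtain ⟨j, c, h1, h2, h3, h4, h5⟩ := h
  refine ⟨j, n j + 1 - c, h1, h2, by omega, by omega, fun m b v d u1 u2 u3 u4 => ?_⟩
  obtain ⟨rfl, u5⟩ := h5 _ _ _ _ u1 u2 u3 (H.rv.2 u4)
  have := H.rng u4
  exact ⟨rfl, by omega⟩

namespace IsBr

variable (h : IsBr G x y n p)
include h

lemma enY_of_ord (c1 : C1 n (MP_ce5ee5_co.rev n (cross G n p))) {i a k b}
    (hu : Big (cross G n p) k b) (a1 : 1 ≤ a) (a2 : a < n i) (ew : En (cross G n p) i a)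
    (nw : ¬ Al (cross G n p) i a) (hik : i ≠ k) (ho : Ord (cross G n p) i a k b)
    (hg : Good G (p k b) (p i a)) : En (MP_ce5ee5_co.rev n (cross G n p)) k (n k + 1 - b) := by
  have H := h.ax
  have rb := H.big_rng hu
  have e1 : n i + 1 - (n i + 1 - a) = a := by omega
  have e2 : n k + 1 - (n k + 1 - b) = b := by omega
  have := h.rev.en_of_ord (i := i) (a := n i + 1 - a) (k := k) (b := n k + 1 - b)
    (by rwa [cross_rev]) (by rw [cross_rev]; exact H.big_rev hu) (by omega) (by omega)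
    (by rwa [cross_rev, H.rev_rev, e1]) (by rwa [cross_rev, H.rev_rev, e1]) hik
    (by rw [cross_rev]; exact ho.rev H a2.le rb.2 hik) (by rwa [e1, e2])
  rwa [cross_rev] at this

lemma cov4 {u w : V} (hg : Good G u w) (D1 D2 D3 D4 : Fin 4 → ℕ → Prop)
    (hd : ∀ j b k c, Eqc n j b k c → ¬ (D1 j b ∧ D2 k c) ∧ ¬ (D1 j b ∧ D3 k c) ∧
      ¬ (D1 j b ∧ D4 k c) ∧ ¬ (D2 j b ∧ D3 k c) ∧ ¬ (D2 j b ∧ D4 k c) ∧ ¬ (D3 j b ∧ D4 k c))
    (r1 : Reach G (img n p D1) u w) (r2 : Reach G (img n p D2) u w)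
    (r3 : Reach G (img n p D3) u w) (r4 : Reach G (img n p D4) u w) (m e) (e2 : e ≤ n m + 1)
    (hu : p m e ≠ u) (hw : p m e ≠ w) :
    ∃ j b, Eqc n j b m e ∧ (D1 j b ∨ D2 j b ∨ D3 j b ∨ D4 j b) := by
  have := hg.cover r1 r2 r3 r4 (fun v =>
    ⟨h.img_disj (fun j b k c u1 u2 u3 => (hd _ _ _ _ u3).1 ⟨u1, u2⟩) v,
    h.img_disj (fun j b k c u1 u2 u3 => (hd _ _ _ _ u3).2.1 ⟨u1, u2⟩) v,
    h.img_disj (fun j b k c u1 u2 u3 => (hd _ _ _ _ u3).2.2.1 ⟨u1, u2⟩) v,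
    h.img_disj (fun j b k c u1 u2 u3 => (hd _ _ _ _ u3).2.2.2.1 ⟨u1, u2⟩) v,
    h.img_disj (fun j b k c u1 u2 u3 => (hd _ _ _ _ u3).2.2.2.2.1 ⟨u1, u2⟩) v,
    h.img_disj (fun j b k c u1 u2 u3 => (hd _ _ _ _ u3).2.2.2.2.2 ⟨u1, u2⟩) v⟩) _ hu hw
  rcases this with ⟨j, b, u1, u2, u3⟩ | ⟨j, b, u1, u2, u3⟩ | ⟨j, b, u1, u2, u3⟩ |
    ⟨j, b, u1, u2, u3⟩ <;> exact ⟨j, b, (h.eq_iff u1 e2).1 u3, by simp [u2]⟩

lemma ne_of {i a j b} (a2 : a ≤ n i + 1) (b1 : 1 ≤ b) (b2 : b ≤ n j) (hh : ¬ (i = j ∧ a = b)) :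
    p i a ≠ p j b := fun he => by
  have := (h.eq_iff a2 (by omega)).1 he
  unfold Eqc at this
  omega

lemma c2_of_good (hg : ∀ u w, u ≠ w → ¬ G.Adj u w → Good G u w) : C2 (cross G n p) := by
  have H := h.ax
  intro i a j b e1 e2 e3 e4
  have r1 := H.rng e1
  have r2 := H.rng e2
  have r3 := H.rng e3
  have r4 := H.rng e4
  by_contra hc
  have na : ¬ G.Adj (p i (a + 1)) (p j (b + 1)) := fun hh =>
    hc ⟨r1.1, ⟨by omega, by omega⟩, ⟨by omega, by omega⟩, hh⟩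
  have := h.cov4 (hg _ _ (h.ne_of (by omega) (by omega) (by omega) (by omega)) na)
    (fun s c => s = i ∧ c = a) (fun s c => s = i ∧ c = a + 2) (fun s c => s = j ∧ c = b)
    (fun s c => s = j ∧ c = b + 2) (by grind [Eqc])
    (fun A hA hc => ⟨_, h.mvi hc a hA (by omega) (by omega) (by grind), cross_adj e3⟩)
    (fun A hA hc => ⟨_, h.mvi hc (a + 2) hA (by omega) (by omega) (by grind), cross_adj e4⟩)
    (fun A hA hc => ⟨_, cri hc hA e1 (by grind), h.step j (by omega)⟩)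
    (fun A hA hc => ⟨_, cri hc hA e2 (by grind), (h.step j (by omega)).symm⟩) i 0 (by omega)
    (h.ne_of (by omega) (by omega) (by omega) (by omega))
    (h.ne_of (by omega) (by omega) (by omega) (by omega))
  grind [Eqc]

lemma both_last (c1 : C1 n (cross G n p)) (c1' : C1 n (MP_ce5ee5_co.rev n (cross G n p))) {i k}
    (hw : Big (cross G n p) i (n i)) (hu : Big (cross G n p) k (n k)) (a1 : 1 < n i)
    (b1 : 1 < n k) (hik : i ≠ k) (na : ¬ cross G n p i (n i) k (n k))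
    (hg : Good G (p i (n i)) (p k (n k))) :
    Rule n (MP_ce5ee5_co.rev n (cross G n p)) k (n k + 1 - n k) i (n i + 1 - n i) ∨
      Rule n (MP_ce5ee5_co.rev n (cross G n p)) i (n i + 1 - n i) k (n k + 1 - n k) := by
  have H := h.ax
  by_cases w2 : Al (MP_ce5ee5_co.rev n (cross G n p)) i (n i + 1 - n i)
  · exact Or.inl ⟨by omega, Or.inl w2⟩
  by_cases u2 : Al (MP_ce5ee5_co.rev n (cross G n p)) k (n k + 1 - n k)
  · exact Or.inr ⟨by omega, Or.inl u2⟩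
  have ew := c1'.y H hw a1
  have eu := c1'.y H hu b1
  by_cases o1 : Ord (cross G n p) k (n k) i (n i)
  · refine Or.inl ⟨by omega, Or.inr (Or.inl ?_)⟩
    rw [H.rev_rev, show n k + 1 - (n k + 1 - n k) = n k by omega]
    exact h.en_of_ord c1 hu a1 le_rfl ew w2 hik o1 hg.symm
  by_cases o2 : Ord (cross G n p) i (n i) k (n k)
  · refine Or.inr ⟨by omega, Or.inr (Or.inl ?_)⟩
    rw [H.rev_rev, show n i + 1 - (n i + 1 - n i) = n i by omega]
    exact h.en_of_ord c1 hw b1 le_rfl eu u2 hik.symm o2 hg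
  exfalso
  have key : ∀ i k, i ≠ k → ¬ cross G n p i (n i) k (n k) →
      ((∃ j1 j2, BetaY n (cross G n p) i (n i) j1 j2) ∨ ∃ j q r, GDY n (cross G n p) i (n i) j q r) →
      ∀ d, cross G n p i (n i) k d → Ord (cross G n p) i (n i) k (n k) := by
    intro i k hik na t d hd
    have rd := H.rng hd
    have : d ≠ n k := by rintro rfl; exact na hd
    rcases t with ⟨j1, j2, -, t, -⟩ | ⟨j, q, r, t1, t2, -⟩
    · exact absurd ((t _ _).1 hd).2 this
    obtain ⟨rfl, -⟩ := (t2 _ _).1 hd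
    have eq := (t2 k q).2 ⟨rfl, Or.inl rfl⟩
    have er := (t2 k r).2 ⟨rfl, Or.inr rfl⟩
    have rq := H.rng eq
    have rr := H.rng er
    have : r ≠ n k := by rintro rfl; exact na er
    refine ⟨fun hh => absurd hh hik, fun e he => ?_, fun e he => ?_, fun m e e' h1 h2 => ?_⟩
    · obtain ⟨c, v1, -, v3⟩ := H.cut k r (by omega) (by omega)
      have := v3 _ _ _ _ (H.symm eq)
      have := v3 _ _ _ _ (H.symm he)
      have : e ≠ n i := by rintro rfl; exact na (H.symm he)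
      have := H.rng he
      omega
    · have := ((t2 _ _).1 he).2
      omega
    · exact absurd ((t2 _ _).1 h1).1 (H.rng h2).1.symm
  have tw := H.typY le_rfl ew w2
  have tu := H.typY le_rfl eu u2
  have n1 : ∀ d, ¬ cross G n p i (n i) k d := fun d hd => o2 (key i k hik na tw d hd)
  have n2 : ∀ d, ¬ cross G n p k (n k) i d := fun d hd =>
    o1 (key k i hik.symm (fun hh => na (H.symm hh)) tu d hd)
  simp only [Ord, not_and_or, not_forall] at o1 o2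
  rcases o1 with ⟨hh, -⟩ | ⟨d, hd, -⟩ | ⟨d, hd, -⟩ | ⟨m, d, d', e1, e2, hd⟩
  · exact hik hh.symm
  · exact n1 _ hd
  · exact n2 _ hd
  rcases o2 with ⟨hh, -⟩ | ⟨d, hd, -⟩ | ⟨d, hd, -⟩ | ⟨m', e, e', e3, e4, he⟩
  · exact hik hh
  · exact n2 _ hd
  · exact n1 _ hd
  have r1 := H.rng e1
  have r2 := H.rng e2
  have r3 := H.rng e3
  have r4 := H.rng e4
  rcases tw with ⟨j1, j2, -, t, -⟩ | ⟨j, q, r, t1, t2, -⟩
  · have := ((t _ _).1 e2).2
    omega
  rcases tu with ⟨j1, j2, -, t, -⟩ | ⟨j', q', r', s1, s2, -⟩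
  · have := ((t _ _).1 e4).2
    omega
  obtain ⟨rfl, v2⟩ := (t2 _ _).1 e2
  obtain ⟨rfl, v3⟩ := (t2 _ _).1 e3
  obtain ⟨rfl, v1⟩ := (s2 _ _).1 e1
  obtain ⟨-, v4⟩ := (s2 _ _).1 e4
  have eq := (t2 m' q).2 ⟨rfl, Or.inl rfl⟩
  have er := (t2 m' r).2 ⟨rfl, Or.inr rfl⟩
  have eq' := (s2 m' q').2 ⟨rfl, Or.inl rfl⟩
  have er' := (s2 m' r').2 ⟨rfl, Or.inr rfl⟩
  have rq := H.rng eq
  have rr := H.rng er
  have rq' := H.rng eq'
  have rr' := H.rng er'
  have f1 : q < r' := by omega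
  have f2 : q' < r := by omega
  obtain ⟨l, l1, l2, l3, -⟩ := fourth hik rq.1 rq'.1
  have := h.one l
  clear v1 v2 v3 v4 t2 s2 key n1 n2 r1 r2 r3 r4 e1 e2 e3 e4
  have := h.cov4 hg (fun s c => s = i ∧ c = n i + 1)
    (fun s c => s = m' ∧ (q ≤ c ∧ c ≤ q' ∨ q' ≤ c ∧ c ≤ q))
    (fun s c => s = m' ∧ (r ≤ c ∧ c ≤ r' ∨ r' ≤ c ∧ c ≤ r))
    (fun s c => (s = i ∨ s = k) ∧ c < n s) (by grind [Eqc])
    (fun A hA hc => ⟨_, h.jy k (h.mvi hc (n i + 1) hA (by omega) (by omega) (by grind)),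
      (h.step k le_rfl).symm⟩)
    (fun A hA hc => ⟨_, h.mvi hc q' (cri hc hA eq (by grind)) (by omega) (by omega) (by grind),
      (cross_adj eq').symm⟩)
    (fun A hA hc => ⟨_, h.mvi hc r' (cri hc hA er (by grind)) (by omega) (by omega) (by grind),
      (cross_adj er').symm⟩)
    (fun A hA hc => ⟨_, h.mvi hc (n k - 1) (h.jx k (h.mvi hc 0 hA (by omega) (by omega)
      (by grind))) (by omega) (by omega) (by grind), h.prev (by omega) (by omega)⟩) l 1 (by omega)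
    (h.ne_of (by omega) (by omega) (by omega) (by omega))
    (h.ne_of (by omega) (by omega) (by omega) (by omega))
  grind [Eqc]

lemma both_first (c1 : C1 n (cross G n p)) (c1' : C1 n (MP_ce5ee5_co.rev n (cross G n p))) {i k}
    (hw : Big (cross G n p) i 1) (hu : Big (cross G n p) k 1) (a1 : 1 < n i)
    (b1 : 1 < n k) (hik : i ≠ k) (na : ¬ cross G n p i 1 k 1)
    (hg : Good G (p i 1) (p k 1)) :
    Rule n (cross G n p) k 1 i 1 ∨ Rule n (cross G n p) i 1 k 1 := by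
  have H := h.ax
  have e1 : ∀ m, n m + 1 - n m = 1 := fun m => by omega
  have := h.rev.both_last (i := i) (k := k) (by rwa [cross_rev]) (by rwa [cross_rev, H.rev_rev])
    (by rw [cross_rev]; exact H.big_rev hw) (by rw [cross_rev]; exact H.big_rev hu) a1 b1 hik
    (by rw [cross_rev]; exact fun hh => na (H.rv.1 hh)) (by rwa [e1, e1])
  rwa [cross_rev, H.rev_rev, e1, e1] at this

/-- two routes from `(i, a)` to a hub through the heads leave two routes for the rest -/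
lemma hub_cov {i a j r q k l} (hk : n k = 1) (er : cross G n p i a j r) (eq : cross G n p i a j q)
    (hr : r < q) (hik : i ≠ k) (hjk : j ≠ k) (l1 : l ≠ i) (l2 : l ≠ j) (l3 : l ≠ k)
    (lo : ∃ s d, (s = i ∧ d < a ∨ s = j ∧ d < q) ∧ cross G n p k 1 s d)
    (hg : Good G (p i a) (p k 1)) (D3 D4 : Fin 4 → ℕ → Prop)
    (hD : ∀ s c, D3 s c ∨ D4 s c → s = i ∧ a < c ∨ s = j ∧ q ≤ c ∨ s = l ∧ 1 ≤ c)
    (hd : ∀ j b k c, Eqc n j b k c → ¬ (D3 j b ∧ D4 k c))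
    (r3 : Reach G (img n p D3) (p i a) (p k 1)) (r4 : Reach G (img n p D4) (p i a) (p k 1))
    (m e) (e1 : m = i ∧ a < e ∨ m = j ∧ q ≤ e ∨ m = l ∧ 1 ≤ e) (e2 : e ≤ n m) :
    D3 m e ∨ D4 m e := by
  have H := h.ax
  have rr := H.rng er
  have rq := H.rng eq
  obtain ⟨D1, D2, u1, u2, r1, r2⟩ : ∃ D1 D2 : Fin 4 → ℕ → Prop,
      (∀ s c, D1 s c ∨ D2 s c → s = i ∧ c < a ∨ s = j ∧ c < q) ∧
      (∀ j b k c, Eqc n j b k c → ¬ (D1 j b ∧ D2 k c)) ∧
      Reach G (img n p D1) (p i a) (p k 1) ∧ Reach G (img n p D2) (p i a) (p k 1) := by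
    obtain ⟨s, d, ⟨rfl, hs⟩ | ⟨rfl, hs⟩, he⟩ := lo
    · have := H.rng he
      exact ⟨fun u c => u = s ∧ d ≤ c ∧ c < a, fun u c => u = j ∧ c ≤ r, by grind,
        by grind [Eqc],
        fun A hA hc => ⟨_, h.mvi hc d hA (by omega) (by omega) (by grind), (cross_adj he).symm⟩,
        fun A hA hc => ⟨_, h.mvi hc 0 (cri hc hA er (by grind)) (by omega) (by omega) (by grind),
          (h.first _ _).symm⟩⟩
    · have := H.rng he
      exact ⟨fun u c => u = s ∧ (r ≤ c ∧ c ≤ d ∨ d ≤ c ∧ c ≤ r), fun u c => u = i ∧ c < a,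
        by grind, by grind [Eqc],
        fun A hA hc => ⟨_, h.mvi hc d (cri hc hA er (by grind)) (by omega) (by omega) (by grind),
          (cross_adj he).symm⟩,
        fun A hA hc => ⟨_, h.mvi hc 0 hA (by omega) (by omega) (by grind),
          (h.first _ _).symm⟩⟩
  have cr : ∀ s b t c, Eqc n s b t c → (D1 s b ∨ D2 s b) → ¬ (D3 t c ∨ D4 t c) := by
    intro s b t c he v1 v2
    have := u1 _ _ v1
    have := hD _ _ v2
    unfold Eqc at he
    grind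
  obtain ⟨s, b, v1, v2⟩ := h.cov4 hg D1 D2 D3 D4 (fun s b t c he =>
    ⟨u2 _ _ _ _ he, fun hh => cr _ _ _ _ he (Or.inl hh.1) (Or.inl hh.2),
      fun hh => cr _ _ _ _ he (Or.inl hh.1) (Or.inr hh.2),
      fun hh => cr _ _ _ _ he (Or.inr hh.1) (Or.inl hh.2),
      fun hh => cr _ _ _ _ he (Or.inr hh.1) (Or.inr hh.2), hd _ _ _ _ he⟩) r1 r2 r3 r4 m e
    (by omega) (h.ne_of (by omega) (by omega) (by omega) (by omega))
    (h.ne_of (by omega) (by omega) (by omega) (by omega))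
  have := u1 s b
  rcases v1 with ⟨rfl, rfl⟩ | v1 | v1
  · grind
  all_goals omega

lemma last (i k) (hk : n k = 1) : G.Adj (p i (n i + 1)) (p k 1) := by
  rw [h.py, ← h.py k, hk]
  exact (h.step k (a := 1) (by omega)).symm

lemma hub_bad {i a j r q k} (hk : n k = 1) (er : cross G n p i a j r) (eq : cross G n p i a j q)
    (hr : r < q) (hik : i ≠ k) (hjk : j ≠ k)
    (lo : ∃ s d, (s = i ∧ d < a ∨ s = j ∧ d < q) ∧ cross G n p k 1 s d)
    (hg : Good G (p i a) (p k 1)) {s d} (hs : s = i ∧ a < d ∨ s = j ∧ q ≤ d) :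
    ¬ cross G n p k 1 s d := by
  intro he
  have H := h.ax
  have rq := H.rng eq
  have re := H.rng he
  obtain ⟨l, l1, l2, l3, -⟩ := fourth rq.1 hik hjk
  have C := h.hub_cov hk er eq hr hik hjk l1 l2 l3 lo hg
  rcases hs with ⟨rfl, hs⟩ | ⟨rfl, hs⟩
  · have := C (fun u c => u = s ∧ a < c ∧ c ≤ d) (fun u c => u = j ∧ q ≤ c) (by grind)
      (by grind [Eqc])
      (fun A hA hc => ⟨_, h.mvi hc d hA (by omega) (by omega) (by grind), (cross_adj he).symm⟩)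
      (fun A hA hc => ⟨_, h.mvi hc (n j + 1) (cri hc hA eq (by grind)) (by omega) (by omega)
        (by grind), h.last _ _ hk⟩) l 1 (by simp) (h.one l)
    grind
  · have := C (fun u c => u = s ∧ q ≤ c ∧ c ≤ d) (fun u c => u = i ∧ a < c) (by grind)
      (by grind [Eqc])
      (fun A hA hc => ⟨_, h.mvi hc d (cri hc hA eq (by grind)) (by omega) (by omega) (by grind),
        (cross_adj he).symm⟩)
      (fun A hA hc => ⟨_, h.mvi hc (n i + 1) hA (by omega) (by omega)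
        (by grind), h.last _ _ hk⟩) l 1 (by simp) (h.one l)
    grind

end IsBr

end Pool.Agent.Lib.MP_ce5ee5_co
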