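import Pool.Agent.Lib.MP_ce5ee5_co.K3Four

namespace Pool.Agent.Lib.MP_ce5ee5_co

open Set

variable {n : Fin 4 → ℕ} {E : Rl}

def Beta (E : Rl) (i : Fin 4) (a : ℕ) (j k : Fin 4) : Prop :=
  j ≠ k ∧ (∀ l d, E i a l d ↔ (l = j ∨ l = k) ∧ d = 1) ∧
    ∀ c < a, ∀ l d, E i c l d → l = j ∨ l = k

def GD (E : Rl) (i : Fin 4) (a : ℕ) (j : Fin 4) (r q : ℕ) : Prop :=
  r < q ∧ (∀ l d, E i a l d ↔ l = j ∧ (d = r ∨ d = q)) ∧
    (r + 1 = q ∧ (∀ k c l d, Out E i a j q k c l d → c = 1 ∧ d = 1) ∧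
        (∀ k c l d k' c' l' d', Out E i a j q k c l d → Out E i a j q k' c' l' d' →
          k = k' ∨ l = l') ∨
      r + 1 < q ∧ r = 1 ∧ ∀ k c l d, Out E i a j q k c l d → k = j ∧ c + 1 = q ∧ d = 1) ∧
    ∃ k c l d, Out E i a j q k c l d

lemma typX {i a} (h : En E i a) (h' : ¬ Al E i a) :
    (∃ j k, Beta E i a j k) ∨ ∃ j r q, GD E i a j r q := by
  rcases h with h | h | ⟨j, r, q, h1, h2, h3⟩
  · exact absurd h h'
  · exact Or.inl h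
  refine Or.inr ⟨j, r, q, h1, h2, ?_, ?_⟩
  · rcases h3 with h3 | ⟨h3, h4⟩
    · exact Or.inl h3
    by_cases hq : r + 1 < q
    · exact Or.inr ⟨hq, h3, h4⟩
    · refine Or.inl ⟨by omega, fun k c l d ho => ?_, fun k c l d k' c' l' d' ho ho' => ?_⟩
      · have := h4 _ _ _ _ ho
        omega
      · exact Or.inl ((h4 _ _ _ _ ho).1.trans (h4 _ _ _ _ ho').1.symm)
  · by_contra hc
    push Not at hc
    refine h' ⟨j, q, ⟨(h2 _ _).2 ⟨rfl, Or.inr rfl⟩, fun k c hk => ?_⟩, hc⟩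
    have := (h2 _ _).1 hk
    exact ⟨this.1, by omega⟩

def OutY (E : Rl) (i : Fin 4) (a : ℕ) (j : Fin 4) (q : ℕ) : Rl := fun k c l d =>
  (k = i ∧ a ≤ c ∨ k = j ∧ q < c) ∧ l ≠ i ∧ l ≠ j ∧ E k c l d

def AlY (E : Rl) (i : Fin 4) (a : ℕ) : Prop :=
  ∃ j q, E i a j q ∧ (∀ k c, E i a k c → k = j ∧ q ≤ c) ∧ ∀ k c l d, ¬ OutY E i a j q k c l d

def BetaY (n : Fin 4 → ℕ) (E : Rl) (i : Fin 4) (a : ℕ) (j k : Fin 4) : Prop :=
  j ≠ k ∧ (∀ l d, E i a l d ↔ (l = j ∨ l = k) ∧ d = n l) ∧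
    ∀ c, a < c → ∀ l d, E i c l d → l = j ∨ l = k

def GDY (n : Fin 4 → ℕ) (E : Rl) (i : Fin 4) (a : ℕ) (j : Fin 4) (q r : ℕ) : Prop :=
  q < r ∧ (∀ l d, E i a l d ↔ l = j ∧ (d = q ∨ d = r)) ∧
    (q + 1 = r ∧ (∀ k c l d, OutY E i a j q k c l d → c = n k ∧ d = n l) ∧
        (∀ k c l d k' c' l' d', OutY E i a j q k c l d → OutY E i a j q k' c' l' d' →
          k = k' ∨ l = l') ∨
      q + 1 < r ∧ r = n j ∧ ∀ k c l d, OutY E i a j q k c l d → k = j ∧ c = q + 1 ∧ d = n l) ∧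
    ∃ k c l d, OutY E i a j q k c l d

namespace Ax

variable (H : Ax n E)
include H

lemma out_rev {i a j q k c l d} (a2 : a ≤ n i) (q1 : 1 ≤ q) (q2 : q ≤ n j) :
    Out (rev n E) i (n i + 1 - a) j q k (n k + 1 - c) l (n l + 1 - d) ↔
      OutY E i a j (n j + 1 - q) k c l d := by
  unfold Out OutY
  rw [H.rv]
  constructor
  · rintro ⟨h1, h2, h3, h4⟩
    have := H.rng h4
    refine ⟨?_, h2, h3, h4⟩
    rcases h1 with ⟨rfl, h1⟩ | ⟨rfl, h1⟩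
    · exact Or.inl ⟨rfl, by omega⟩
    · exact Or.inr ⟨rfl, by omega⟩
  · rintro ⟨h1, h2, h3, h4⟩
    have := H.rng h4
    refine ⟨?_, h2, h3, h4⟩
    rcases h1 with ⟨rfl, h1⟩ | ⟨rfl, h1⟩
    · exact Or.inl ⟨rfl, by omega⟩
    · exact Or.inr ⟨rfl, by omega⟩

lemma rv' {i a j b} (a2 : a ≤ n i) (h : rev n E i (n i + 1 - a) j b) :
    E i a j (n j + 1 - b) ∧ 1 ≤ b ∧ b ≤ n j := by
  unfold rev at h
  have := H.rng h
  rw [show n i + 1 - (n i + 1 - a) = a by omega] at h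
  exact ⟨h, by omega, by omega⟩

lemma alY {i a} (a2 : a ≤ n i) (h : Al (rev n E) i (n i + 1 - a)) : AlY E i a := by
  obtain ⟨j, q, ⟨h1, h2⟩, h3⟩ := h
  obtain ⟨h4, q1, q2⟩ := H.rv' a2 h1
  refine ⟨j, n j + 1 - q, h4, fun k c hk => ?_, fun k c l d ho => ?_⟩
  · obtain ⟨rfl, h5⟩ := h2 _ _ (H.rv.2 hk)
    exact ⟨rfl, by omega⟩
  · exact h3 _ _ _ _ ((H.out_rev a2 q1 q2).2 ho)

lemma typY {i a} (a2 : a ≤ n i) (h : En (rev n E) i (n i + 1 - a))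
    (h' : ¬ Al (rev n E) i (n i + 1 - a)) :
    (∃ j k, BetaY n E i a j k) ∨ ∃ j q r, GDY n E i a j q r := by
  rcases typX h h' with ⟨j, k, h1, h2, h3⟩ | ⟨j, r, q, h1, h2, h3, k, c, l, d, h4⟩
  · refine Or.inl ⟨j, k, h1, fun l d => ?_, fun c hc l d he => ?_⟩
    · have := H.one l
      constructor
      · intro he
        have := (h2 _ _).1 (H.rv.2 he)
        have := H.rng he
        exact ⟨by tauto, by omega⟩
      · rintro ⟨h5, rfl⟩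
        exact H.rv.1 ((h2 _ _).2 ⟨h5, by omega⟩)
    · have := H.rng he
      exact h3 _ (by omega) _ _ (H.rv.2 he)
  obtain ⟨e1, q1, q2⟩ := H.rv' a2 ((h2 j q).2 ⟨rfl, Or.inr rfl⟩)
  obtain ⟨e2, r1, r2⟩ := H.rv' a2 ((h2 j r).2 ⟨rfl, Or.inl rfl⟩)
  refine Or.inr ⟨j, n j + 1 - q, n j + 1 - r, by omega, fun l d => ?_, ?_, ?_⟩
  · constructor
    · intro he
      obtain ⟨rfl, h5⟩ := (h2 _ _).1 (H.rv.2 he)
      have := H.rng he
      exact ⟨rfl, by omega⟩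
    · rintro ⟨rfl, rfl | rfl⟩
      · exact e1
      · exact e2
  · rcases h3 with ⟨h5, h6, h7⟩ | ⟨h5, h6, h7⟩
    · refine Or.inl ⟨by omega, fun k c l d ho => ?_, fun k c l d k' c' l' d' ho ho' => ?_⟩
      · have := h6 _ _ _ _ ((H.out_rev a2 q1 q2).2 ho)
        have := H.rng ho.2.2.2
        omega
      · exact h7 _ _ _ _ _ _ _ _ ((H.out_rev a2 q1 q2).2 ho) ((H.out_rev a2 q1 q2).2 ho')
    · refine Or.inr ⟨by omega, by omega, fun k c l d ho => ?_⟩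
      obtain ⟨rfl, h8⟩ := h7 _ _ _ _ ((H.out_rev a2 q1 q2).2 ho)
      have := H.rng ho.2.2.2
      exact ⟨rfl, by omega, by omega⟩
  · have := H.rng h4.2.2.2
    refine ⟨k, n k + 1 - c, l, n l + 1 - d, (H.out_rev a2 q1 q2).1 ?_⟩
    rwa [show n k + 1 - (n k + 1 - c) = c by omega, show n l + 1 - (n l + 1 - d) = d by omega]

lemma typY' {i a} (a2 : a ≤ n i) (h : En (rev n E) i (n i + 1 - a)) :
    AlY E i a ∨ (∃ j k, BetaY n E i a j k) ∨ ∃ j q r, GDY n E i a j q r := by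
  by_cases h' : Al (rev n E) i (n i + 1 - a)
  · exact Or.inl (H.alY a2 h')
  · exact Or.inr (H.typY a2 h h')

lemma big_rng {i a} (h : Big E i a) : 1 ≤ a ∧ a ≤ n i := by
  obtain ⟨j, b, -, -, -, h, -⟩ := h
  have := H.rng h
  omega

lemma big_rev {i a} (h : Big E i a) : Big (rev n E) i (n i + 1 - a) := by
  obtain ⟨j, b, k, c, h1, h2, h3⟩ := h
  refine ⟨j, n j + 1 - b, k, n k + 1 - c, fun he => h1 ?_, H.rv.2 h2, H.rv.2 h3⟩
  obtain ⟨rfl, h4⟩ := Prod.mk.inj he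
  have := H.rng h2
  have := H.rng h3
  rw [show b = c by omega]

end Ax

/-- first condition, on one side -/
def C1 (n : Fin 4 → ℕ) (E : Rl) : Prop := ∀ i a, Big E i a → a < n i → En E i a

/-- second condition -/
def C2 (E : Rl) : Prop := ∀ i a j b, E i (a + 1) j b → E i (a + 1) j (b + 2) →
    E i a j (b + 1) → E i (a + 2) j (b + 1) → E i (a + 1) j (b + 1)

lemma C1.y (H : Ax n E) (h : C1 n (rev n E)) {i a} (hb : Big E i a) (a1 : 1 < a) :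
    En (rev n E) i (n i + 1 - a) :=
  h _ _ (H.big_rev hb) (by have := H.big_rng hb; omega)

lemma C2.rev (H : Ax n E) (h : C2 E) : C2 (rev n E) := by
  intro i a j b h1 h2 h3 h4
  unfold MP_ce5ee5_co.rev at *
  have r1 := H.rng h1
  have r2 := H.rng h2
  have r3 := H.rng h3
  have r4 := H.rng h4
  have := h i (n i - 1 - a) j (n j - 1 - b)
  rw [show n i - 1 - a + 1 = n i + 1 - (a + 1) by omega,
    show n i - 1 - a + 2 = n i + 1 - a by omega,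
    show n j - 1 - b + 1 = n j + 1 - (b + 1) by omega,
    show n j - 1 - b + 2 = n j + 1 - b by omega,
    show n i - 1 - a = n i + 1 - (a + 2) by omega,
    show n j - 1 - b = n j + 1 - (b + 2) by omega] at this
  exact this h2 h1 h4 h3

/-- the fourth index -/
lemma fourth {i j k : Fin 4} (h1 : i ≠ j) (h2 : i ≠ k) (h3 : j ≠ k) :
    ∃ l, l ≠ i ∧ l ≠ j ∧ l ≠ k ∧ ∀ m, m = i ∨ m = j ∨ m = k ∨ m = l := by
  revert i j k
  decide

lemma third {i j : Fin 4} (h1 : i ≠ j) : ∃ k, i ≠ k ∧ j ≠ k := by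
  revert i j
  decide

end Pool.Agent.Lib.MP_ce5ee5_co
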